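import Pool.Agent.Helper46.QR.DblR
import Pool.Agent.Helper46.QR.RatesR
import Pool.Agent.Helper46.QP.Lya

/-! Block QR-LYA: as QP-LYA (`QP/Lya.lean`, complete), for the real noise: `Ar`, `Fr`, `dblR` (mean over the starting point), `ratesR`, and the growth as hypothesis (`hgrow`, it is proved in `Helper82/QR`): Markov: `log nn < t` iff `nn⁻¹ ^ 2 > exp (-2 t)`, `t = 2^(δ i) / 2`.
`Fr_mp`, `Fr_meas` are also in the block QR-ERG (stub `ErgR.lean`); prove private copies if needed (they are `F_mp`, `F_meas` of `QP/Meas.lean` for the real part). -/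

set_option autoImplicit false
open MeasureTheory Real Set Filter Topology
open scoped ENNReal

namespace Pool.Agent.Helper46.QR

open Pool.Agent.Helper18.UC (nn)
open Pool.Agent.Helper46.QP

variable {d : ℕ} {D : Dat d}

/-- growth of the derivative in the mean -/
def GrowR (D : Dat d) (C η : ℝ) : Prop := ∀ l n : ℕ, D.iso l n → D.s l ≤ 1 → ∀ θ,
  ∫⁻ ω, (∫⁻ z : TT, ENNReal.ofReal ((nn (Mx (Ar D ω θ) z n))⁻¹ ^ 2)) ∂law d ≤
    ENNReal.ofReal (C * (1 - η * D.s l ^ 2) ^ (n / 8))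

/-- from sums of means to almost everywhere convergence -/
private theorem tendR38 {Ω : Type*} [MeasurableSpace Ω] {P : Measure Ω} {f : ℕ → Ω → ℝ≥0∞}
    (hf : ∀ i, Measurable (f i)) {a : ℕ → ℝ} {i₀ : ℕ} (ha : Summable a)
    (h : ∀ i, i₀ ≤ i → ∫⁻ ω, f i ω ∂P ≤ ENNReal.ofReal (a i)) :
    ∀ᵐ ω ∂P, Tendsto (fun i => f i ω) atTop (𝓝 0) := by
  have h1 : ∫⁻ ω, ∑' i, f (i + i₀) ω ∂P ≠ ⊤ := by
    rw [lintegral_tsum fun i => (hf _).aemeasurable]
    exact ne_top_of_le_ne_top ((summable_nat_add_iff i₀).2 ha).tsum_ofReal_ne_top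
      (ENNReal.tsum_le_tsum fun i => h (i + i₀) (Nat.le_add_left _ _))
  filter_upwards [ae_lt_top (Measurable.tsum fun i => hf (i + i₀)) h1] with ω hω
  exact (tendsto_add_atTop_iff_nat i₀).1 (ENNReal.tendsto_atTop_zero_of_tsum_ne_top hω.ne)

/-- the noise, then the phase, then the point of the fibre -/
private theorem tonelli38 {H : Om d × (Td d × TT) → ℝ≥0∞} (hH : Measurable H) {c : ℝ≥0∞}
    (h : ∀ θ : Td d, ∫⁻ ω, (∫⁻ z : TT, H (ω, (θ, z))) ∂law d ≤ c) :
    ∫⁻ ω, (∫⁻ p : Td d × TT, H (ω, p)) ∂law d ≤ c := by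
  have h1 : ∀ ω : Om d, ∫⁻ p : Td d × TT, H (ω, p) = ∫⁻ θ : Td d, ∫⁻ z : TT, H (ω, (θ, z)) := by
    intro ω
    rw [Measure.volume_eq_prod]
    have hm : Measurable fun p : Td d × TT => H (ω, p) := hH.comp (measurable_const.prodMk measurable_id)
    exact lintegral_prod _ hm.aemeasurable
  simp only [h1]
  have hm2 : Measurable fun q : Om d × Td d => ∫⁻ z : TT, H (q.1, (q.2, z)) := by
    have hm3 : Measurable fun r : (Om d × Td d) × TT => H (r.1.1, (r.1.2, r.2)) :=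
      hH.comp ((measurable_fst.comp measurable_fst).prodMk
        ((measurable_snd.comp measurable_fst).prodMk measurable_snd))
    exact hm3.lintegral_prod_right'
  rw [lintegral_lintegral_swap (f := fun (ω : Om d) (θ : Td d) => ∫⁻ z : TT, H (ω, (θ, z))) hm2.aemeasurable]
  refine (lintegral_mono h).trans ?_
  rw [lintegral_const, measure_univ, mul_one]

private theorem Ar_meas38 (hD : D.Ok) : Measurable fun p : Om d × Td d => Ar D p.1 p.2 := by
  refine measurable_pi_lambda _ fun j => ?_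
  have h1 : Measurable fun p : Om d × Td d => D.As p.1 p.2 j := (measurable_pi_apply j).comp (As_meas hD)
  unfold Ar ar
  exact Complex.measurable_ofReal.comp (Complex.measurable_re.comp h1)

private theorem Fr_mp38 (hD : D.Ok) (ω : Om d) : MeasurePreserving (Fr D ω) volume volume := by
  have hA : Measurable fun θ : Td d => (((D.A ω θ).re : ℝ) : ℂ) := by
    have hb : Measurable fun θ : Td d => ((ω, θ) : Om d × Td d) := measurable_const.prodMk measurable_id
    have h1 := (A_meas hD).comp hb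
    simp only [Function.comp_def] at h1
    exact Complex.measurable_ofReal.comp (Complex.measurable_re.comp h1)
  have hm : Measurable (Function.uncurry fun (θ : Td d) (z : TT) => stp (((D.A ω θ).re : ℝ) : ℂ) z) := by
    have hc : Measurable fun p : Td d × TT => (((((D.A ω p.1).re : ℝ) : ℂ), p.2) : ℂ × TT) :=
      (hA.comp measurable_fst).prodMk measurable_snd
    exact stp_meas.comp hc
  have h := (measurePreserving_add_right (volume : Measure (Td d)) D.α).skew_product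
    (μc := (volume : Measure TT)) (μd := (volume : Measure TT))
    (g := fun θ z => stp (((D.A ω θ).re : ℝ) : ℂ) z) hm
    (Filter.Eventually.of_forall fun θ => (stp_mp _).map_eq)
  exact h

/-- the cocycle of the logarithms -/
private noncomputable def gR38 (D : Dat d) (ω : Om d) (n : ℕ) (p : Td d × TT) : ℝ :=
  if n = 0 then 0 else Real.log (nn (Mx (Ar D ω p.1) p.2 n))

private theorem gR38_pos {ω : Om d} {n : ℕ} (hn : n ≠ 0) (p : Td d × TT) :
    gR38 D ω n p = Real.log (nn (Mx (Ar D ω p.1) p.2 n)) := by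
  unfold gR38; rw [if_neg hn]

private theorem nnR0_38 (hD : D.Ok) (n : ℕ) : Measurable fun q : Om d × (Td d × TT) =>
    nn (Mx (Ar D q.1 q.2.1) q.2.2 n) := by
  have h2 : Measurable fun q : Om d × (Td d × TT) => ((q.1, q.2.1) : Om d × Td d) :=
    measurable_fst.prodMk (measurable_fst.comp measurable_snd)
  have h3 : Measurable fun q : Om d × (Td d × TT) => ((Ar D q.1 q.2.1, q.2.2) : (ℕ → ℂ) × TT) :=
    ((Ar_meas38 hD).comp h2).prodMk (measurable_snd.comp measurable_snd)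
  exact (Mx_meas n).comp h3

private theorem nnR38 (hD : D.Ok) (n m : ℕ) : Measurable fun q : Om d × (Td d × TT) =>
    nn (Mx (Ar D q.1 (q.2.1 + m • D.α)) (orb (Ar D q.1 q.2.1) q.2.2 m) n) := by
  have h1 : Measurable fun q : Om d × (Td d × TT) => ((q.1, q.2.1 + m • D.α) : Om d × Td d) :=
    measurable_fst.prodMk ((measurable_fst.comp measurable_snd).add_const _)
  have h2 : Measurable fun q : Om d × (Td d × TT) => ((q.1, q.2.1) : Om d × Td d) :=
    measurable_fst.prodMk (measurable_fst.comp measurable_snd)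
  have h3 : Measurable fun q : Om d × (Td d × TT) => ((Ar D q.1 q.2.1, q.2.2) : (ℕ → ℂ) × TT) :=
    ((Ar_meas38 hD).comp h2).prodMk (measurable_snd.comp measurable_snd)
  have h4 := (orb_meas m).comp h3
  simp only [Function.comp_def] at h4
  have h5 : Measurable fun q : Om d × (Td d × TT) =>
      ((Ar D q.1 (q.2.1 + m • D.α), orb (Ar D q.1 q.2.1) q.2.2 m) : (ℕ → ℂ) × TT) :=
    ((Ar_meas38 hD).comp h1).prodMk h4
  exact (Mx_meas n).comp h5

/-- the loss at the junction -/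
private noncomputable def lsR38 (D : Dat d) (m : ℕ) (q : Om d × (Td d × TT)) : ℝ :=
  Real.log (nn (Mx (Ar D q.1 q.2.1) q.2.2 m)) +
    Real.log (nn (Mx (Ar D q.1 (q.2.1 + m • D.α)) (orb (Ar D q.1 q.2.1) q.2.2 m) m)) -
    Real.log (nn (Mx (Ar D q.1 q.2.1) q.2.2 (2 * m)))

private theorem lsR38_meas (hD : D.Ok) (m : ℕ) : Measurable (lsR38 D m) := by
  unfold lsR38
  exact ((Real.measurable_log.comp (nnR0_38 hD m)).add (Real.measurable_log.comp (nnR38 hD m m))).sub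
    (Real.measurable_log.comp (nnR0_38 hD (2 * m)))

private theorem invR38_meas (hD : D.Ok) (n : ℕ) : Measurable fun q : Om d × (Td d × TT) =>
    ENNReal.ofReal ((nn (Mx (Ar D q.1 q.2.1) q.2.2 n))⁻¹ ^ 2) :=
  ENNReal.measurable_ofReal.comp ((nnR0_38 hD n).inv.pow_const 2)

/-- growth: the measure of the points with small norm tends to zero for almost every noise -/
private theorem slowR38 (hD : D.Ok) {L : ℕ → ℕ} {i₀ : ℕ} {δ C η : ℝ} (hg : GrowR D C η)
    (hiso : ∀ i, D.iso (L i) (2 ^ (i + 2))) (hs : ∀ i, i₀ ≤ i → D.s (L i) ≤ 1)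
    (hsum : Summable fun i : ℕ => Real.exp ((2 : ℝ) ^ (δ * i)) * (1 - η * D.s (L i) ^ 2) ^ (2 ^ i / 8)) :
    ∀ᵐ ω ∂law d, Tendsto (fun i : ℕ => ENNReal.ofReal (Real.exp ((2 : ℝ) ^ (δ * i))) *
      ∫⁻ p : Td d × TT, ENNReal.ofReal ((nn (Mx (Ar D ω p.1) p.2 (2 ^ i)))⁻¹ ^ 2)) atTop (𝓝 0) := by
  refine tendR38 (i₀ := i₀) (fun i => ?_) (hsum.mul_left C) (fun i hi => ?_)
  · exact (invR38_meas hD (2 ^ i)).lintegral_prod_right'.const_mul _
  · have hm : Measurable fun ω : Om d =>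
        ∫⁻ p : Td d × TT, ENNReal.ofReal ((nn (Mx (Ar D ω p.1) p.2 (2 ^ i)))⁻¹ ^ 2) :=
      (invR38_meas hD (2 ^ i)).lintegral_prod_right'
    have hi2 : D.iso (L i) (2 ^ i) := fun k h1 h2 =>
      hiso i k h1 (h2.trans_le (Nat.pow_le_pow_right (by norm_num) (by omega)))
    have h3 : ∫⁻ ω, (∫⁻ p : Td d × TT, ENNReal.ofReal ((nn (Mx (Ar D ω p.1) p.2 (2 ^ i)))⁻¹ ^ 2)) ∂law d ≤
        ENNReal.ofReal (C * (1 - η * D.s (L i) ^ 2) ^ (2 ^ i / 8)) :=
      tonelli38 (invR38_meas hD (2 ^ i)) (fun θ => hg (L i) (2 ^ i) hi2 (hs i hi) θ)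
    rw [lintegral_const_mul _ hm]
    refine (mul_le_mul_right h3 _).trans (le_of_eq ?_)
    rw [← ENNReal.ofReal_mul (Real.exp_pos _).le]
    congr 1
    ring

/-- the losses at the junctions -/
private theorem lossR38 (hD : D.Ok) {L : ℕ → ℕ} {i₀ : ℕ} {C : ℝ} (hC : 0 < C)
    (hiso : ∀ i, D.iso (L i) (2 ^ (i + 2)))
    (hs : ∀ i, i₀ ≤ i → D.s (L i) ≤ 1) (hlog : ∀ i : ℕ, Real.log (1 / D.s (L i)) ≤ C * (i + 1)) :
    ∀ᵐ ω ∂law d, Tendsto (fun i : ℕ => ENNReal.ofReal ((((i : ℝ) + 1) ^ 3)⁻¹) *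
      ∫⁻ p : Td d × TT, ENNReal.ofReal (lsR38 D (2 ^ i) (ω, p))) atTop (𝓝 0) := by
  obtain ⟨Cd, hCd, hdbl⟩ := dblR hD
  have hm1 : ∀ i : ℕ, Measurable fun q : Om d × (Td d × TT) => ENNReal.ofReal (lsR38 D (2 ^ i) q) :=
    fun i => ENNReal.measurable_ofReal.comp (lsR38_meas hD (2 ^ i))
  have hsum : Summable fun i : ℕ => (Cd * (2 + C)) * (((i : ℝ) + 1) ^ 2)⁻¹ := by
    refine Summable.mul_left _ ?_
    have h := (summable_nat_add_iff 1).2 (Real.summable_nat_pow_inv.2 (one_lt_two : 1 < 2))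
    refine h.congr fun i => ?_
    rw [Nat.cast_add, Nat.cast_one]
  refine tendR38 (i₀ := max i₀ 1) (fun i => ?_) hsum (fun i hi => ?_)
  · exact (hm1 i).lintegral_prod_right'.const_mul _
  · have hi0 : i₀ ≤ i := (le_max_left _ _).trans hi
    have hi1 : 1 ≤ i := (le_max_right _ _).trans hi
    have hm : Measurable fun ω : Om d => ∫⁻ p : Td d × TT, ENNReal.ofReal (lsR38 D (2 ^ i) (ω, p)) :=
      (hm1 i).lintegral_prod_right'
    have h2m : 2 ≤ 2 ^ i := by
      calc 2 = 2 ^ 1 := rfl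
        _ ≤ 2 ^ i := Nat.pow_le_pow_right (by norm_num) hi1
    have hi2 : D.iso (L i) (2 * 2 ^ i) := fun k h1 h2 =>
      hiso i k h1 (h2.trans_le (by
        calc 2 * 2 ^ i = 2 ^ (i + 1) := by rw [pow_succ, mul_comm]
          _ ≤ 2 ^ (i + 2) := Nat.pow_le_pow_right (by norm_num) (by omega)))
    rw [lintegral_const_mul _ hm]
    have h3 : ∫⁻ ω, (∫⁻ p : Td d × TT, ENNReal.ofReal (lsR38 D (2 ^ i) (ω, p))) ∂law d ≤
        ENNReal.ofReal (Cd * (2 + C) * ((i : ℝ) + 1)) := by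
      refine tonelli38 (hm1 i) (fun θ => ?_)
      have h6 : ∫⁻ ω, (∫⁻ z : TT, ENNReal.ofReal (lsR38 D (2 ^ i) (ω, (θ, z)))) ∂law d ≤
          ENNReal.ofReal (Cd * (1 + Real.log (1 / D.s (L i)) + Real.log ((2 ^ i : ℕ) : ℝ))) := by
        unfold lsR38
        exact hdbl (L i) (2 ^ i) h2m hi2 (hs i hi0) θ
      refine h6.trans (ENNReal.ofReal_le_ofReal ?_)
      have h4 := hlog i
      have h5 : (0 : ℝ) ≤ i := Nat.cast_nonneg i
      have h7 : Real.log ((2 ^ i : ℕ) : ℝ) ≤ i := by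
        push_cast
        rw [Real.log_pow]
        have : Real.log 2 ≤ 1 := by
          have := Real.log_two_lt_d9
          linarith
        nlinarith
      have h8 : 1 + Real.log (1 / D.s (L i)) + Real.log ((2 ^ i : ℕ) : ℝ) ≤ (2 + C) * ((i : ℝ) + 1) := by
        nlinarith
      calc Cd * (1 + Real.log (1 / D.s (L i)) + Real.log ((2 ^ i : ℕ) : ℝ)) ≤
            Cd * ((2 + C) * ((i : ℝ) + 1)) := mul_le_mul_of_nonneg_left h8 hCd
        _ = _ := by ring
    refine (mul_le_mul_right h3 _).trans ?_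
    have hp : (0 : ℝ) < (i : ℝ) + 1 := by positivity
    rw [← ENNReal.ofReal_mul (by positivity)]
    refine ENNReal.ofReal_le_ofReal (le_of_eq ?_)
    field_simp

theorem lyaR (hD : D.Ok) (hb : D.b < d / 2) (hgrow : ∃ C η, 0 < C ∧ 0 < η ∧ η ≤ 1 ∧ GrowR D C η)
    (hα : ∀ τ : ℝ, 1 / (d : ℝ) < τ → ∃ c : ℝ, 0 < c ∧ ∀ k : ℕ, 1 ≤ k → c * (k : ℝ) ^ (-τ) ≤ ‖k • D.α‖) :
    ∀ᵐ ω ∂law d, ∃ G : Td d × TT → ℝ, Measurable G ∧ (∀ᵐ p, 0 < G p) ∧
      ∀ᵐ p : Td d × TT, Tendsto (fun n : ℕ => Real.log (nn (Mx (Ar D ω p.1) p.2 n)) / n) atTop (𝓝 (G p)) := by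
  obtain ⟨Cg, η, -, hη0, hη1, hg⟩ := hgrow
  obtain ⟨L, i₀, C, δ, hC, hδ, hiso, hs, hlog, hrat⟩ := ratesR hD hb hα
  obtain ⟨-, hsum⟩ := hrat η 8 hη0 hη1 (by norm_num)
  obtain ⟨K, hK0, hK⟩ := A_bd hD
  filter_upwards [slowR38 hD hg hiso hs hsum, lossR38 hD hC hiso hs hlog] with ω h1 h2
  have hpair : Measurable fun p : Td d × TT => ((ω, p) : Om d × (Td d × TT)) :=
    measurable_const.prodMk measurable_id
  have hnn : ∀ n, Measurable fun p : Td d × TT => nn (Mx (Ar D ω p.1) p.2 n) := by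
    intro n
    have h := (nnR0_38 hD n).comp hpair
    simp only [Function.comp_def] at h
    exact h
  have hgm : ∀ n, Measurable (gR38 D ω n) := by
    intro n
    by_cases hn : n = 0
    · have e : gR38 D ω n = fun _ => (0 : ℝ) := by
        funext p; unfold gR38; rw [if_pos hn]
      rw [e]; exact measurable_const
    · have e : gR38 D ω n = fun p => Real.log (nn (Mx (Ar D ω p.1) p.2 n)) := by
        funext p; exact gR38_pos hn p
      rw [e]
      exact (hnn n).log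
  have hlK : ∀ (n : ℕ) (p : Td d × TT), Real.log (nn (Mx (Ar D ω p.1) p.2 n)) ≤
      Real.log 2 + n * Real.log (2 * π * K + 4) := by
    intro n p
    refine log_nn_le hK0 (fun j => ?_) p.2 n
    unfold Ar ar
    rw [Complex.norm_real]
    exact (Complex.abs_re_le_norm _).trans (hK ω _)
  have hg0 : ∀ n p, 0 ≤ gR38 D ω n p := by
    intro n p
    unfold gR38
    split_ifs
    · exact le_rfl
    · exact log_nn_nonneg _ _ _
  have hC1 : ∀ n p, |gR38 D ω n p| ≤ (Real.log 2 + Real.log (2 * π * K + 4)) * n := by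
    intro n p
    rw [abs_of_nonneg (hg0 n p)]
    by_cases hn : n = 0
    · subst hn
      unfold gR38
      simp
    · rw [gR38_pos hn]
      refine (hlK n p).trans ?_
      have hn1 : (1 : ℝ) ≤ n := by exact_mod_cast Nat.one_le_iff_ne_zero.2 hn
      have h3 : 0 ≤ Real.log 2 := Real.log_nonneg one_le_two
      nlinarith
  have hsub : ∀ n m p, gR38 D ω (n + m) p ≤ gR38 D ω n p + gR38 D ω m ((Fr D ω)^[n] p) := by
    intro n m p
    by_cases hn : n = 0
    · subst hn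
      simp [gR38]
    by_cases hm : m = 0
    · subst hm
      simp [gR38]
    obtain ⟨θ, z⟩ := p
    have hnm : n + m ≠ 0 := by omega
    rw [gR38_pos hn, gR38_pos hm, gR38_pos hnm, Fr_iter]
    show Real.log (nn (Mx (Ar D ω θ) z (n + m))) ≤ Real.log (nn (Mx (Ar D ω θ) z n)) +
      Real.log (nn (Mx (Ar D ω (θ + n • D.α)) (orb (Ar D ω θ) z n) m))
    have a1 : 0 < nn (Mx (Ar D ω θ) z n) := by
      linarith [Pool.Agent.Helper95.PV.nn_ge_two (det_Mx (Ar D ω θ) z n)]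
    have a2 : 0 < nn (Mx (Ar D ω (θ + n • D.α)) (orb (Ar D ω θ) z n) m) := by
      linarith [Pool.Agent.Helper95.PV.nn_ge_two (det_Mx (Ar D ω (θ + n • D.α)) (orb (Ar D ω θ) z n) m)]
    have a3 : 0 < nn (Mx (Ar D ω θ) z (n + m)) := by
      linarith [Pool.Agent.Helper95.PV.nn_ge_two (det_Mx (Ar D ω θ) z (n + m))]
    rw [← Real.log_mul a1.ne' a2.ne']
    refine Real.log_le_log a3 ?_
    rw [Mx_add, Ar_add, mul_comm (nn (Mx (Ar D ω θ) z n))]
    exact Pool.Agent.Helper18.UC.nn_mul _ _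
  have hev : ∀ᶠ i : ℕ in atTop, ENNReal.ofReal ((((i : ℝ) + 1) ^ 3)⁻¹) *
      ∫⁻ p : Td d × TT, ENNReal.ofReal (lsR38 D (2 ^ i) (ω, p)) ≤ 1 :=
    h2.eventually_le_const zero_lt_one
  obtain ⟨i₁, hi₁⟩ := eventually_atTop.1 hev
  have hDD : ∀ i : ℕ, i₁ ≤ i → ∃ e : Td d × TT → ℝ, Integrable e volume ∧ (∀ x, 0 ≤ e x) ∧
      ∫ x, e x ≤ 1 * ((i : ℝ) + 1) ^ 3 ∧
      ∀ x, gR38 D ω (2 ^ i) x + gR38 D ω (2 ^ i) ((Fr D ω)^[2 ^ i] x) ≤ gR38 D ω (2 ^ (i + 1)) x + e x := by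
    intro i hi
    have hp : (0 : ℝ) < ((i : ℝ) + 1) ^ 3 := by positivity
    have hb : ∫⁻ p : Td d × TT, ENNReal.ofReal (lsR38 D (2 ^ i) (ω, p)) ≤
        ENNReal.ofReal (((i : ℝ) + 1) ^ 3) := by
      have h3 := hi₁ i hi
      rw [ENNReal.ofReal_inv_of_pos hp, mul_comm, ← div_eq_mul_inv] at h3
      have h4 := (ENNReal.div_le_iff (by simpa using hp) ENNReal.ofReal_ne_top).1 h3
      rwa [one_mul] at h4
    have hls : Measurable fun p : Td d × TT => lsR38 D (2 ^ i) (ω, p) := (lsR38_meas hD (2 ^ i)).comp hpair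
    have hem : Measurable fun p : Td d × TT => max 0 (lsR38 D (2 ^ i) (ω, p)) := measurable_const.max hls
    have he0 : ∀ p : Td d × TT, 0 ≤ max 0 (lsR38 D (2 ^ i) (ω, p)) := fun p => le_max_left _ _
    have hee : ∫⁻ p : Td d × TT, ENNReal.ofReal (max 0 (lsR38 D (2 ^ i) (ω, p))) ≤
        ENNReal.ofReal (((i : ℝ) + 1) ^ 3) := by
      refine le_trans (le_of_eq (lintegral_congr fun p => ?_)) hb
      rw [ENNReal.ofReal_max, ENNReal.ofReal_zero]
      exact max_eq_right zero_le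
    refine ⟨fun p => max 0 (lsR38 D (2 ^ i) (ω, p)), ?_, he0, ?_, ?_⟩
    · exact (lintegral_ofReal_ne_top_iff_integrable hem.aestronglyMeasurable
        (Eventually.of_forall he0)).1 (ne_top_of_le_ne_top ENNReal.ofReal_ne_top hee)
    · rw [integral_eq_lintegral_of_nonneg_ae (Eventually.of_forall he0) hem.aestronglyMeasurable, one_mul]
      exact ENNReal.toReal_le_of_le_ofReal hp.le hee
    · rintro ⟨θ, z⟩
      have hne : 2 ^ i ≠ 0 := by positivity
      have hne2 : 2 ^ (i + 1) ≠ 0 := by positivity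
      rw [gR38_pos hne, gR38_pos hne, gR38_pos hne2, Fr_iter, pow_succ, mul_comm (2 ^ i) 2]
      have h5 : lsR38 D (2 ^ i) (ω, (θ, z)) ≤ max 0 (lsR38 D (2 ^ i) (ω, (θ, z))) := le_max_right _ _
      unfold lsR38 at h5 ⊢
      simp only at h5 ⊢
      linarith
  have hδ2 : 0 < δ / 2 := by linarith
  have hGG : ∀ ε : ℝ, 0 < ε → ∃ i₀ : ℕ, ∀ i ≥ i₀,
      (volume : Measure (Td d × TT)).real {x | gR38 D ω (2 ^ i) x < (2 : ℝ) ^ (δ / 2 * i)} ≤ ε := by
    intro ε hε
    have h3 := h1.eventually_le_const (ENNReal.ofReal_pos.2 hε)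
    obtain ⟨i₂, hi₂⟩ := eventually_atTop.1 h3
    refine ⟨max i₂ ⌈2 / δ⌉₊, fun i hi => ?_⟩
    have hi2 : i₂ ≤ i := (le_max_left _ _).trans hi
    have hi3 : 2 / δ ≤ i := (Nat.le_ceil _).trans (by exact_mod_cast (le_max_right _ _).trans hi)
    have hpow : 2 * (2 : ℝ) ^ (δ / 2 * i) ≤ (2 : ℝ) ^ (δ * i) := by
      have e1 : 2 * (2 : ℝ) ^ (δ / 2 * i) = (2 : ℝ) ^ (1 + δ / 2 * i) := by
        rw [Real.rpow_add two_pos, Real.rpow_one]
      rw [e1]
      refine Real.rpow_le_rpow_of_exponent_le one_le_two ?_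
      rw [div_le_iff₀ hδ] at hi3
      nlinarith
    refine ENNReal.toReal_le_of_le_ofReal hε.le (le_trans ?_ (hi₂ i hi2))
    have hne : 2 ^ i ≠ 0 := by positivity
    have hms : MeasurableSet {x : Td d × TT | gR38 D ω (2 ^ i) x < (2 : ℝ) ^ (δ / 2 * i)} :=
      measurableSet_lt (hgm _) measurable_const
    have hmi : Measurable fun p : Td d × TT => ENNReal.ofReal ((nn (Mx (Ar D ω p.1) p.2 (2 ^ i)))⁻¹ ^ 2) :=
      ENNReal.measurable_ofReal.comp ((hnn (2 ^ i)).inv.pow_const 2)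
    rw [← lintegral_indicator_one hms, ← lintegral_const_mul _ hmi]
    refine lintegral_mono fun p => ?_
    by_cases hp : p ∈ {x : Td d × TT | gR38 D ω (2 ^ i) x < (2 : ℝ) ^ (δ / 2 * i)}
    · rw [indicator_of_mem hp]
      have h4 : gR38 D ω (2 ^ i) p < (2 : ℝ) ^ (δ / 2 * i) := hp
      rw [gR38_pos hne] at h4
      have a3 : 0 < nn (Mx (Ar D ω p.1) p.2 (2 ^ i)) := by
        linarith [Pool.Agent.Helper95.PV.nn_ge_two (det_Mx (Ar D ω p.1) p.2 (2 ^ i))]
      have h5 : nn (Mx (Ar D ω p.1) p.2 (2 ^ i)) ^ 2 ≤ Real.exp ((2 : ℝ) ^ (δ * i)) := by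
        rw [← Real.exp_log a3, ← Real.exp_nat_mul]
        refine Real.exp_le_exp.2 ?_
        push_cast
        linarith
      rw [← ENNReal.ofReal_mul (Real.exp_pos _).le]
      show (1 : ℝ≥0∞) ≤ _
      rw [← ENNReal.ofReal_one]
      refine ENNReal.ofReal_le_ofReal ?_
      rw [inv_pow, ← div_eq_mul_inv, le_div_iff₀ (pow_pos a3 2), one_mul]
      exact h5
    · rw [indicator_of_notMem hp]
      exact zero_le
  obtain ⟨G, hGm, hGp, hGt⟩ := soft (Fr_mp38 hD ω) hgm hδ2 hC1 hg0 hsub hDD hGG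
  refine ⟨G, hGm, hGp, ?_⟩
  filter_upwards [hGt] with p hp
  refine hp.congr fun n => ?_
  by_cases hn : n = 0
  · subst hn; simp
  · rw [gR38_pos hn]

end Pool.Agent.Helper46.QR
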