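import Pool.Agent.Helper46.QP.Ann
import Pool.Agent.Helper82.QR.Tan

/-! Project QR (MP_9ee088_an): standard maps with a real quasi-periodic amplitude. Definitions.
The noise, the data `Dat` and the complex amplitude `D.A` are those of project QP; here only the real part is used: the
map on the fibre is `sr a`, `a = re (D.A ω θ)`. -/

set_option autoImplicit false
open MeasureTheory Real Set
open scoped ENNReal

namespace Pool.Agent.Helper46.QR

open Pool.Agent.Helper18.UC (nn)
open Pool.Agent.Helper95.PV (mv)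
open Pool.Agent.Helper46.QP
open Pool.Agent.Helper82.QR (sn cs sr vr)

variable {d : ℕ}

/-- the real amplitudes along the rotation -/
noncomputable def ar (D : Dat d) (ω : Om d) (θ : Td d) (j : ℕ) : ℝ := (D.As ω θ j).re

/-- the same, complex valued -/
noncomputable def Ar (D : Dat d) (ω : Om d) (θ : Td d) (j : ℕ) : ℂ := ((ar D ω θ j : ℝ) : ℂ)

/-- the real amplitudes without the noise of the own cell -/
noncomputable def arm (D : Dat d) (l : ℕ) (ω : Om d) (θ : Td d) (j : ℕ) : ℝ := (D.Ams l ω θ j).re

/-- the map of the torus of dimension `d + 2`: standard maps with the real parameter `re (D.A ω θ)` -/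
noncomputable def Fr (D : Dat d) (ω : Om d) (p : Td d × TT) : Td d × TT :=
  (p.1 + D.α, stp (((D.A ω p.1).re : ℝ) : ℂ) p.2)

lemma Ar_zero (D : Dat d) (ω : Om d) (θ : Td d) : Ar D ω θ 0 = (((D.A ω θ).re : ℝ) : ℂ) := by
  unfold Ar ar Dat.As
  simp

lemma ar_add (D : Dat d) (ω : Om d) (θ : Td d) (m : ℕ) :
    (fun j => ar D ω θ (j + m)) = ar D ω (θ + m • D.α) := by
  funext j
  have h := congrFun (As_add D ω θ m) j
  unfold ar
  rw [← h]

lemma Ar_add (D : Dat d) (ω : Om d) (θ : Td d) (m : ℕ) :
    (fun j => Ar D ω θ (j + m)) = Ar D ω (θ + m • D.α) := by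
  funext j
  have h := congrFun (ar_add D ω θ m) j
  unfold Ar
  rw [← h]

lemma Fr_iter (D : Dat d) (ω : Om d) (θ : Td d) (z : TT) (n : ℕ) :
    (Fr D ω)^[n] (θ, z) = (θ + n • D.α, orb (Ar D ω θ) z n) := by
  induction n with
  | zero => simp [orb]
  | succ n ih =>
    rw [Function.iterate_succ_apply', ih]
    unfold Fr
    rw [orb_succ]
    refine Prod.ext ?_ rfl
    show θ + n • D.α + D.α = θ + (n + 1) • D.α
    rw [succ_nsmul, add_assoc]

end Pool.Agent.Helper46.QR
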