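import Pool.Agent.Helper46.QR.Core

/-! Block QR-DBL: the junction for real noise, mean over the noise and the starting point.

`V := 2 π K + 4`, `K` the bound of `‖D.A‖`, `‖D.Am‖` (`A_bd`, `Am_bd`). `L = Mx a z (m-1)`, `Kx` the three matrices of the times `m-1, m, m+1`, `R` the `m - 2` matrices of the times `m+2, ..., 2m-1`: `Mx z (2m) = R * (Kx * L)`, `Mx z m = mv v_(m-1) * L`, the second block is `R * (mv v_(m+1) * mv v_m)` (`Mx_add`, `Ar_add`), so (`nn_mul`, `nn_mv`)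
the loss is at most `3 log V + log (nn R * nn L / nn (R * (Kx * L)))`, and also at most `2 (log 2 + m log V) =: T` (`log_nn_le`, `log_nn_nonneg`).
`ent`: let `i`, `j` be the indices of the largest row of `R` and of the largest column of `L`; rows and columns are not zero (determinant one); normalise them: `nn R * nn L * |row_i · Kx col_j| ≤ 16 nn (R * (Kx * L))`.
So `t < loss` implies that for some `i, j ∈ {0, 1}` the normalised row and column satisfy `|q · Kx p| < 16 V³ exp (-t)`. For frozen noise outside the three cells of `θ + (m-1) α`, `θ + m α`, `θ + (m+1) α` (`res_l` three times; `A_far`, `A_own`, `Am_far`, `Am_own`, `iso`; `clip_ae`) and a frozen start `z`, `z₀ = orb a z (m-1)` and `p` do not depend on the three values `w0, w1, w2`,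
the three amplitudes are `arm + s (w_j).re`, `R` and `q` are functions of `z₃` alone: `core` (for `t` with `ε = 16 V³ exp (-t)`). The cut offs: `|sn x_j| < ρ`, `|cs x_j| < ρ` for `j = m-1, m, m+1` have measure at most `2 ρ` in `z` for fixed noise (`orb_mp`, `cut`). So `P × dz {t < loss} ≤ 12 ρ + 4 C (s ρ)⁻⁴ (16 V³)^(1/8) exp (-t/8)`.
`tail` with `ρ = 1/m`, `T ≤ C m`, `log b ≤ C (1 + log (1/s) + log m)`. -/

set_option autoImplicit false
open MeasureTheory Real Set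
open scoped ENNReal

namespace Pool.Agent.Helper46.QR

open Pool.Agent.Helper18.UC (nn)
open Pool.Agent.Helper95.PV (mv rp)
open Pool.Agent.Helper46.QP
open Pool.Agent.Helper82.QR (sn cs sr vr act)

variable {d : ℕ} {D : Dat d}

private theorem exp_int1 {c : ℝ} (hc : 0 < c) {b : ℝ} (hb : 0 ≤ b) (t0 : ℝ) :
    ∫⁻ t in Ioi t0, ENNReal.ofReal (b * Real.exp (-(c * t))) = ENNReal.ofReal (b * Real.exp (-(c * t0)) / c) := by
  have h1 : IntegrableOn (fun t : ℝ => b * Real.exp (-(c * t))) (Ioi t0) := by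
    have := exp_neg_integrableOn_Ioi t0 hc
    simp only [neg_mul] at this
    exact this.const_mul b
  rw [← ofReal_integral_eq_lintegral_ofReal h1 (Filter.Eventually.of_forall fun t => by positivity)]
  congr 1
  rw [integral_const_mul]
  have h2 := integral_exp_mul_Ioi (a := -c) (by linarith) t0
  have h3 : (fun t : ℝ => Real.exp (-(c * t))) = fun t => Real.exp (-c * t) := by
    funext t; rw [neg_mul]
  rw [h3, h2]
  rw [neg_mul]
  field_simp

theorem tail {Ω : Type*} [MeasurableSpace Ω] {μ : Measure Ω} [IsProbabilityMeasure μ] {X : Ω → ℝ} (hX : Measurable X)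
    {T a b c : ℝ} (hT0 : 0 ≤ T) (ha : 0 ≤ a) (hb : 1 ≤ b) (hc : 0 < c) (hT : ∀ x, X x ≤ T)
    (h : ∀ t : ℝ, 0 < t → μ {x | t < X x} ≤ ENNReal.ofReal (a + b * Real.exp (-(c * t)))) :
    ∫⁻ x, ENNReal.ofReal (X x) ∂μ ≤ ENNReal.ofReal (a * T + (Real.log b + 1) / c) := by
  have hlb : 0 ≤ Real.log b := Real.log_nonneg hb
  obtain ⟨t0, ht0⟩ : ∃ t0 : ℝ, t0 = Real.log b / c := ⟨_, rfl⟩
  have ht00 : 0 ≤ t0 := by rw [ht0]; positivity
  have e1 : ∀ x, ENNReal.ofReal (X x) = ENNReal.ofReal (max (X x) 0) := by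
    intro x
    rcases le_total (X x) 0 with h0 | h0
    · rw [max_eq_right h0, ENNReal.ofReal_zero, ENNReal.ofReal_of_nonpos h0]
    · rw [max_eq_left h0]
  have e0 := lintegral_eq_lintegral_meas_lt μ (f := fun x => max (X x) 0) (Filter.Eventually.of_forall fun x => le_max_right _ _)
    (hX.max measurable_const).aemeasurable
  rw [lintegral_congr e1, e0]
  have hp : ∀ t ∈ Ioi (0 : ℝ), μ {x | t < max (X x) 0} ≤ (Iio T).indicator (fun _ => ENNReal.ofReal a) t +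
      ((Iic t0).indicator (fun _ => (1 : ℝ≥0∞)) t + (Ioi t0).indicator (fun t => ENNReal.ofReal (b * Real.exp (-(c * t)))) t) := by
    intro t ht
    rw [mem_Ioi] at ht
    have e2 : {x | t < max (X x) 0} = {x | t < X x} := by
      ext x
      simp only [mem_ofPred_eq, lt_max_iff, or_iff_left_iff_imp]
      intro h0
      linarith
    rw [e2]
    by_cases h1 : t < T
    · rw [indicator_of_mem (show t ∈ Iio T from h1)]
      by_cases h2 : t ≤ t0
      · rw [indicator_of_mem (show t ∈ Iic t0 from h2)]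
        refine le_trans prob_le_one ?_
        refine le_trans ?_ (le_add_left le_rfl)
        exact le_add_right le_rfl
      · push Not at h2
        rw [indicator_of_mem (show t ∈ Ioi t0 from h2), indicator_of_notMem (show t ∉ Iic t0 from not_le.2 h2), zero_add,
          ← ENNReal.ofReal_add ha (by positivity)]
        exact h t ht
    · have e3 : {x | t < X x} = ∅ := by
        ext x
        simp only [mem_ofPred_eq, mem_empty_iff_false, iff_false, not_lt]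
        exact (hT x).trans (not_lt.1 h1)
      rw [e3, measure_empty]
      exact zero_le
  refine (setLIntegral_mono' measurableSet_Ioi hp).trans ?_
  have m1 : Measurable ((Iio T).indicator (fun _ : ℝ => ENNReal.ofReal a)) := measurable_const.indicator measurableSet_Iio
  have m2 : Measurable ((Iic t0).indicator (fun _ : ℝ => (1 : ℝ≥0∞))) := measurable_const.indicator measurableSet_Iic
  rw [lintegral_add_left m1, lintegral_add_left m2]
  have i1 : ∫⁻ t in Ioi (0 : ℝ), (Iio T).indicator (fun _ => ENNReal.ofReal a) t = ENNReal.ofReal (a * T) := by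
    rw [lintegral_indicator measurableSet_Iio, Measure.restrict_restrict measurableSet_Iio, setLIntegral_const,
      show Iio T ∩ Ioi (0 : ℝ) = Ioo 0 T by ext t; simp [and_comm], Real.volume_Ioo, sub_zero, ENNReal.ofReal_mul ha]
  have i2 : ∫⁻ t in Ioi (0 : ℝ), (Iic t0).indicator (fun _ => (1 : ℝ≥0∞)) t = ENNReal.ofReal t0 := by
    rw [lintegral_indicator measurableSet_Iic, Measure.restrict_restrict measurableSet_Iic, setLIntegral_const,
      show Iic t0 ∩ Ioi (0 : ℝ) = Ioc 0 t0 by ext t; simp [and_comm], Real.volume_Ioc, sub_zero, one_mul]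
  have i3 : ∫⁻ t in Ioi (0 : ℝ), (Ioi t0).indicator (fun t => ENNReal.ofReal (b * Real.exp (-(c * t)))) t ≤ ENNReal.ofReal (1 / c) := by
    refine (setLIntegral_le_lintegral _ _).trans ?_
    rw [lintegral_indicator measurableSet_Ioi, exp_int1 hc (by linarith)]
    apply ENNReal.ofReal_le_ofReal
    apply le_of_eq
    congr 1
    rw [ht0, mul_div_cancel₀ _ hc.ne', Real.exp_neg, Real.exp_log (by linarith)]
    field_simp
  calc _ ≤ ENNReal.ofReal (a * T) + (ENNReal.ofReal t0 + ENNReal.ofReal (1 / c)) := by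
        rw [i1, i2]
        gcongr
    _ = _ := by
        rw [← ENNReal.ofReal_add ht00 (by positivity), ← ENNReal.ofReal_add (by positivity) (by positivity)]
        congr 1
        rw [ht0]
        field_simp

/-- normalised row, normalised column -/
noncomputable def rw2 (R : Matrix (Fin 2) (Fin 2) ℝ) (i : Fin 2) : ℝ × ℝ :=
  (R i 0 / √(R i 0 ^ 2 + R i 1 ^ 2), R i 1 / √(R i 0 ^ 2 + R i 1 ^ 2))

noncomputable def cl2 (L : Matrix (Fin 2) (Fin 2) ℝ) (j : Fin 2) : ℝ × ℝ :=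
  (L 0 j / √(L 0 j ^ 2 + L 1 j ^ 2), L 1 j / √(L 0 j ^ 2 + L 1 j ^ 2))

private theorem nrm1 (x y : ℝ) : √(x ^ 2 + y ^ 2) * (x / √(x ^ 2 + y ^ 2)) = x ∧
    √(x ^ 2 + y ^ 2) * (y / √(x ^ 2 + y ^ 2)) = y := by
  by_cases h : √(x ^ 2 + y ^ 2) = 0
  · rw [Real.sqrt_eq_zero (by positivity)] at h
    have hx : x = 0 := by nlinarith [sq_nonneg x, sq_nonneg y]
    have hy : y = 0 := by nlinarith [sq_nonneg x, sq_nonneg y]
    subst hx hy
    simp
  · exact ⟨mul_div_cancel₀ _ h, mul_div_cancel₀ _ h⟩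

private theorem abs1 (x y : ℝ) : |x| ≤ √(x ^ 2 + y ^ 2) ∧ |y| ≤ √(x ^ 2 + y ^ 2) :=
  ⟨Real.abs_le_sqrt (by nlinarith [sq_nonneg y]), Real.abs_le_sqrt (by nlinarith [sq_nonneg x])⟩

theorem ent (R M L : Matrix (Fin 2) (Fin 2) ℝ) : ∃ i j : Fin 2,
    nn R * nn L * |dot2 (rw2 R i) (act M (cl2 L j))| ≤ 16 * nn (R * (M * L)) := by
  have hR : ∃ i : Fin 2, Pool.Agent.Helper18.UC.nn R ≤ 4 * √(R i 0 ^ 2 + R i 1 ^ 2) := by
    obtain ⟨a1, a2⟩ := abs1 (R 0 0) (R 0 1)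
    obtain ⟨b1, b2⟩ := abs1 (R 1 0) (R 1 1)
    unfold Pool.Agent.Helper18.UC.nn
    rcases le_total (√(R 0 0 ^ 2 + R 0 1 ^ 2)) (√(R 1 0 ^ 2 + R 1 1 ^ 2)) with h | h
    · exact ⟨1, by linarith⟩
    · exact ⟨0, by linarith⟩
  have hL : ∃ j : Fin 2, Pool.Agent.Helper18.UC.nn L ≤ 4 * √(L 0 j ^ 2 + L 1 j ^ 2) := by
    obtain ⟨a1, a2⟩ := abs1 (L 0 0) (L 1 0)
    obtain ⟨b1, b2⟩ := abs1 (L 0 1) (L 1 1)
    unfold Pool.Agent.Helper18.UC.nn
    rcases le_total (√(L 0 0 ^ 2 + L 1 0 ^ 2)) (√(L 0 1 ^ 2 + L 1 1 ^ 2)) with h | h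
    · exact ⟨1, by linarith⟩
    · exact ⟨0, by linarith⟩
  obtain ⟨i, hi⟩ := hR
  obtain ⟨j, hj⟩ := hL
  refine ⟨i, j, ?_⟩
  obtain ⟨r1, r2⟩ := nrm1 (R i 0) (R i 1)
  obtain ⟨c1, c2⟩ := nrm1 (L 0 j) (L 1 j)
  set r := √(R i 0 ^ 2 + R i 1 ^ 2) with hr
  set c := √(L 0 j ^ 2 + L 1 j ^ 2) with hc
  have hr0 : 0 ≤ r := Real.sqrt_nonneg _
  have hc0 : 0 ≤ c := Real.sqrt_nonneg _
  have key : r * c * dot2 (rw2 R i) (Pool.Agent.Helper82.QR.act M (cl2 L j)) = (R * (M * L)) i j := by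
    unfold dot2 rw2 cl2 Pool.Agent.Helper82.QR.act
    simp only [← hr, ← hc]
    rw [Matrix.mul_apply, Fin.sum_univ_two, Matrix.mul_apply, Matrix.mul_apply, Fin.sum_univ_two, Fin.sum_univ_two]
    conv_rhs => rw [← r1, ← r2, ← c1, ← c2]
    ring
  have hent : |(R * (M * L)) i j| ≤ Pool.Agent.Helper18.UC.nn (R * (M * L)) := by
    unfold Pool.Agent.Helper18.UC.nn
    have p00 := abs_nonneg ((R * (M * L)) 0 0)
    have p01 := abs_nonneg ((R * (M * L)) 0 1)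
    have p10 := abs_nonneg ((R * (M * L)) 1 0)
    have p11 := abs_nonneg ((R * (M * L)) 1 1)
    fin_cases i <;> fin_cases j <;> simp <;> linarith
  have hn1 := Pool.Agent.Helper18.UC.nn_nonneg R
  have hn2 := Pool.Agent.Helper18.UC.nn_nonneg L
  calc Pool.Agent.Helper18.UC.nn R * Pool.Agent.Helper18.UC.nn L * |dot2 (rw2 R i) (Pool.Agent.Helper82.QR.act M (cl2 L j))|
      ≤ (4 * r) * (4 * c) * |dot2 (rw2 R i) (Pool.Agent.Helper82.QR.act M (cl2 L j))| := by gcongr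
    _ = 16 * |r * c * dot2 (rw2 R i) (Pool.Agent.Helper82.QR.act M (cl2 L j))| := by
        rw [abs_mul, abs_of_nonneg (mul_nonneg hr0 hc0)]
        ring
    _ ≤ _ := by rw [key]; linarith


private theorem orb_congr1 {A A' : ℕ → ℂ} (z : TT) {n : ℕ} (h : ∀ j < n, A j = A' j) : orb A z n = orb A' z n := by
  induction n with
  | zero => rfl
  | succ n ih => rw [orb_succ, orb_succ, ih fun j hj => h j (by omega), h n (by omega)]

private theorem Mx_congr1 {A A' : ℕ → ℂ} (z : TT) {n : ℕ} (h : ∀ j < n, A j = A' j) : Mx A z n = Mx A' z n := by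
  induction n with
  | zero => rfl
  | succ n ih =>
    rw [Mx_succ, Mx_succ, ih fun j hj => h j (by omega), h n (by omega),
      orb_congr1 z fun j hj => h j (by omega)]

private theorem iso_dist1 {l n : ℕ} (h : D.iso l n) (θ : Td d) {j k : ℕ} (hj : j < n) (hk : k < n) (hjk : j ≠ k) :
    2 / (Pool.Agent.Helper18.FD.NN l : ℝ) ≤ dist (θ + k • D.α) (θ + j • D.α) := by
  rw [dist_add_left, dist_eq_norm]
  rcases lt_or_gt_of_ne hjk with h1 | h1
  · have e : k • D.α - j • D.α = (k - j) • D.α := by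
      rw [sub_eq_iff_eq_add, ← add_nsmul]
      congr 1
      omega
    rw [e]
    exact h _ (by omega) (by omega)
  · have e : k • D.α - j • D.α = -((j - k) • D.α) := by
      rw [eq_neg_iff_add_eq_zero, sub_add_eq_add_sub, sub_eq_zero, ← add_nsmul]
      congr 1
      omega
    rw [e, norm_neg]
    exact h _ (by omega) (by omega)

private theorem s_pos1 (hD : D.Ok) (l : ℕ) : 0 < D.s l := by
  unfold Dat.s
  have h1 : (0 : ℝ) < Pool.Agent.Helper18.FD.NN l := by exact_mod_cast Pool.Agent.Helper18.FD.NN_pos l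
  exact mul_pos hD.hq (Real.rpow_pos_of_pos h1 _)

private theorem lm1 (i : Ix d) {F : Om d → ℝ≥0∞} (hF : Measurable F) :
    Measurable fun ω : Om d => ∫⁻ w, F (Function.update ω i w) ∂dl :=
  (hF.comp (measurable_upd88 i)).lintegral_prod_right'

private theorem res31 (i0 i1 i2 : Ix d) {F : Om d → ℝ≥0∞} (hF : Measurable F) :
    ∫⁻ ω, F ω ∂law d = ∫⁻ ω, ∫⁻ w0, ∫⁻ w1, ∫⁻ w2,
      F (Function.update (Function.update (Function.update ω i0 w0) i1 w1) i2 w2) ∂dl ∂dl ∂dl ∂law d := by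
  rw [res_l i2 hF, res_l i1 (lm1 i2 hF), res_l i0 (lm1 i1 (lm1 i2 hF))]

/-- three new values -/
private noncomputable def up1 (D : Dat d) (l n : ℕ) (θ : Td d) (ω : Om d) (w0 w1 w2 : ℂ) : Om d :=
  Function.update (Function.update (Function.update ω (l, cl l (θ + (n + 1) • D.α)) w0)
    (l, cl l (θ + (n + 2) • D.α)) w1) (l, cl l (θ + (n + 3) • D.α)) w2

private theorem up_far1 (hD : D.Ok) {l n : ℕ} (hi : D.iso l (2 * (n + 2))) (θ : Td d) (ω : Om d) (w0 w1 w2 : ℂ) {j : ℕ}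
    (hj : j < 2 * (n + 2)) (h0 : j ≠ n + 1) (h1 : j ≠ n + 2) (h2 : j ≠ n + 3) :
    Ar D (up1 D l n θ ω w0 w1 w2) θ j = Ar D ω θ j := by
  unfold Ar ar Dat.As up1
  rcases Nat.eq_zero_or_pos n with hn | hn
  · subst hn
    have hj0 : j = 0 := by omega
    subst hj0
    rw [A_far hD (iso_dist1 hi θ hj (by omega) h2), A_far hD (iso_dist1 hi θ hj (by omega) h1),
      A_far hD (iso_dist1 hi θ hj (by omega) h0)]
  · rw [A_far hD (iso_dist1 hi θ hj (by omega) h2), A_far hD (iso_dist1 hi θ hj (by omega) h1),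
      A_far hD (iso_dist1 hi θ hj (by omega) h0)]

private theorem up_near1 (hD : D.Ok) {l n : ℕ} (hi : D.iso l (2 * (n + 2))) (θ : Td d) (ω : Om d) {w0 w1 w2 : ℂ}
    (c0 : clip w0 = w0) (c1 : clip w1 = w1) (c2 : clip w2 = w2) {j : ℕ} (hj : j < 3) :
    Ar D (up1 D l n θ ω w0 w1 w2) θ (j + (n + 1)) = am3 (fun i => arm D l ω θ (n + 1 + i)) (D.s l) w0 w1 w2 j := by
  have d01 := iso_dist1 hi θ (j := n + 2) (k := n + 1) (by omega) (by omega) (by omega)
  have d02 := iso_dist1 hi θ (j := n + 3) (k := n + 1) (by omega) (by omega) (by omega)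
  have d12 := iso_dist1 hi θ (j := n + 3) (k := n + 2) (by omega) (by omega) (by omega)
  have d10 := iso_dist1 hi θ (j := n + 1) (k := n + 2) (by omega) (by omega) (by omega)
  have d20 := iso_dist1 hi θ (j := n + 1) (k := n + 3) (by omega) (by omega) (by omega)
  have d21 := iso_dist1 hi θ (j := n + 2) (k := n + 3) (by omega) (by omega) (by omega)
  unfold Ar ar am3 arm Dat.As Dat.Ams up1
  interval_cases j
  · simp only [if_true, zero_add, add_zero]
    rw [A_far hD d20, A_far hD d10, A_own hD, c0]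
    norm_num
  · simp only [one_ne_zero, if_false, if_true]
    rw [show 1 + (n + 1) = n + 2 by omega, show n + 1 + 1 = n + 2 by omega]
    rw [A_far hD d21, A_own hD, Am_far hD d01, c1]
    norm_num
  · have e1 : (2 : ℕ) ≠ 0 := by norm_num
    have e2 : (2 : ℕ) ≠ 1 := by norm_num
    simp only [if_neg e1, if_neg e2]
    rw [show 2 + (n + 1) = n + 3 by omega, show n + 1 + 2 = n + 3 by omega]
    rw [A_own hD, Am_far hD d12, Am_far hD d02, c2]
    norm_num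

/-- the event for a sequence of amplitudes -/
private def Ev1 (n : ℕ) (i j : Fin 2) (ρ ε : ℝ) (a : ℕ → ℂ) (z : TT) : Prop :=
  ρ ≤ |sn (orb a z (n + 1)).1| ∧ ρ ≤ |cs (orb a z (n + 1)).1| ∧ ρ ≤ |sn (orb a z (n + 2)).1| ∧
  ρ ≤ |sn (orb a z (n + 3)).1| ∧ ρ ≤ |cs (orb a z (n + 3)).1| ∧
  |dot2 (rw2 (Mx (fun k => a (k + (n + 4))) (orb a z (n + 4)) n) i)
    (act (Mx (fun k => a (k + (n + 1))) (orb a z (n + 1)) 3) (cl2 (Mx a z (n + 1)) j))| < ε

private theorem pt_meas1 (m : ℕ) :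
    Measurable fun p : (ℕ → ℂ) × TT => (((fun j => p.1 (j + m)), orb p.1 p.2 m) : (ℕ → ℂ) × TT) :=
  (measurable_pi_lambda _ fun j => (measurable_pi_apply (j + m)).comp measurable_fst).prodMk (orb_meas m)

private theorem rw2_meas1 {Y : Type*} [MeasurableSpace Y] {R : Y → Matrix (Fin 2) (Fin 2) ℝ} (hR : ∀ i j, Measurable fun y => R y i j)
    (i : Fin 2) : Measurable fun y => rw2 (R y) i := by
  unfold rw2
  have h1 : Measurable fun y => √(R y i 0 ^ 2 + R y i 1 ^ 2) :=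
    (((hR i 0).pow_const 2).add ((hR i 1).pow_const 2)).sqrt
  exact ((hR i 0).div h1).prodMk ((hR i 1).div h1)

private theorem cl2_meas1 {Y : Type*} [MeasurableSpace Y] {R : Y → Matrix (Fin 2) (Fin 2) ℝ} (hR : ∀ i j, Measurable fun y => R y i j)
    (j : Fin 2) : Measurable fun y => cl2 (R y) j := by
  unfold cl2
  have h1 : Measurable fun y => √(R y 0 j ^ 2 + R y 1 j ^ 2) :=
    (((hR 0 j).pow_const 2).add ((hR 1 j).pow_const 2)).sqrt
  exact ((hR 0 j).div h1).prodMk ((hR 1 j).div h1)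

private theorem mD_meas1 (n k : ℕ) (i j : Fin 2) : Measurable fun p : (ℕ → ℂ) × TT =>
    |dot2 (rw2 (Mx (fun k => p.1 (k + (n + 4))) (orb p.1 p.2 (n + 4)) n) i)
      (act (Mx (fun k => p.1 (k + (n + 1))) (orb p.1 p.2 (n + 1)) k) (cl2 (Mx p.1 p.2 (n + 1)) j))| := by
  have mR : Measurable fun p : (ℕ → ℂ) × TT => rw2 (Mx (fun k => p.1 (k + (n + 4))) (orb p.1 p.2 (n + 4)) n) i :=
    rw2_meas1 (R := fun p : (ℕ → ℂ) × TT => Mx (fun k => p.1 (k + (n + 4))) (orb p.1 p.2 (n + 4)) n)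
      (fun a b => (Mx_meas' n a b).comp (pt_meas1 (n + 4))) i
  have mK : ∀ a b, Measurable fun p : (ℕ → ℂ) × TT => Mx (fun k => p.1 (k + (n + 1))) (orb p.1 p.2 (n + 1)) k a b :=
    fun a b => (Mx_meas' k a b).comp (pt_meas1 (n + 1))
  have mL : Measurable fun p : (ℕ → ℂ) × TT => cl2 (Mx p.1 p.2 (n + 1)) j :=
    cl2_meas1 (R := fun p : (ℕ → ℂ) × TT => Mx p.1 p.2 (n + 1)) (fun a b => Mx_meas' (n + 1) a b) j
  have l1 := measurable_fst.comp mL
  have l2 := measurable_snd.comp mL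
  have a1 := ((mK 0 0).mul l1).add ((mK 0 1).mul l2)
  have a2 := ((mK 1 0).mul l1).add ((mK 1 1).mul l2)
  have r1 := measurable_fst.comp mR
  have r2 := measurable_snd.comp mR
  have := ((r1.mul a1).add (r2.mul a2)).norm
  simp only [Function.comp_def, Real.norm_eq_abs] at this
  unfold dot2 act
  exact this

private theorem Ev_meas1 (n : ℕ) (i j : Fin 2) (ρ ε : ℝ) : MeasurableSet {p : (ℕ → ℂ) × TT | Ev1 n i j ρ ε p.1 p.2} := by
  have ms : ∀ k : ℕ, Measurable fun p : (ℕ → ℂ) × TT => |sn (orb p.1 p.2 k).1| := by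
    intro k
    have := (Pool.Agent.Helper82.QR.sn_meas.comp (measurable_fst.comp (orb_meas k))).norm
    simp only [Function.comp_def, Real.norm_eq_abs] at this
    exact this
  have mc : ∀ k : ℕ, Measurable fun p : (ℕ → ℂ) × TT => |cs (orb p.1 p.2 k).1| := by
    intro k
    have := (Pool.Agent.Helper82.QR.cs_meas.comp (measurable_fst.comp (orb_meas k))).norm
    simp only [Function.comp_def, Real.norm_eq_abs] at this
    exact this
  have s1 : MeasurableSet {p : (ℕ → ℂ) × TT | ρ ≤ |sn (orb p.1 p.2 (n + 1)).1|} := measurableSet_le measurable_const (ms _)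
  have s2 : MeasurableSet {p : (ℕ → ℂ) × TT | ρ ≤ |cs (orb p.1 p.2 (n + 1)).1|} := measurableSet_le measurable_const (mc _)
  have s3 : MeasurableSet {p : (ℕ → ℂ) × TT | ρ ≤ |sn (orb p.1 p.2 (n + 2)).1|} := measurableSet_le measurable_const (ms _)
  have s4 : MeasurableSet {p : (ℕ → ℂ) × TT | ρ ≤ |sn (orb p.1 p.2 (n + 3)).1|} := measurableSet_le measurable_const (ms _)
  have s5 : MeasurableSet {p : (ℕ → ℂ) × TT | ρ ≤ |cs (orb p.1 p.2 (n + 3)).1|} := measurableSet_le measurable_const (mc _)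
  have s6 := measurableSet_lt (mD_meas1 n 3 i j) (measurable_const (a := ε))
  have s := s1.inter (s2.inter (s3.inter (s4.inter (s5.inter s6))))
  unfold Ev1
  exact s

private theorem unit1 {x y : ℝ} (h : x ^ 2 + y ^ 2 ≠ 0) :
    1 ≤ (x / √(x ^ 2 + y ^ 2)) ^ 2 + (y / √(x ^ 2 + y ^ 2)) ^ 2 := by
  rw [div_pow, div_pow, Real.sq_sqrt (by positivity), ← add_div, div_self h]

private theorem rw_unit1 {R : Matrix (Fin 2) (Fin 2) ℝ} (h : R.det = 1) (i : Fin 2) :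
    1 ≤ (rw2 R i).1 ^ 2 + (rw2 R i).2 ^ 2 := by
  refine unit1 fun h0 => ?_
  have hx : R i 0 = 0 := by nlinarith [sq_nonneg (R i 0), sq_nonneg (R i 1)]
  have hy : R i 1 = 0 := by nlinarith [sq_nonneg (R i 0), sq_nonneg (R i 1)]
  rw [Matrix.det_fin_two] at h
  fin_cases i <;> simp at hx hy <;> rw [hx, hy] at h <;> norm_num at h

private theorem cl_unit1 {R : Matrix (Fin 2) (Fin 2) ℝ} (h : R.det = 1) (j : Fin 2) :
    1 ≤ (cl2 R j).1 ^ 2 + (cl2 R j).2 ^ 2 := by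
  refine unit1 fun h0 => ?_
  have hx : R 0 j = 0 := by nlinarith [sq_nonneg (R 0 j), sq_nonneg (R 1 j)]
  have hy : R 1 j = 0 := by nlinarith [sq_nonneg (R 0 j), sq_nonneg (R 1 j)]
  rw [Matrix.det_fin_two] at h
  fin_cases j <;> simp at hx hy <;> rw [hx, hy] at h <;> norm_num at h

/-- frozen noise -/
private theorem froz1 (hD : D.Ok) {K : ℝ} (hK : ∀ l ω θ, ‖D.Am l ω θ‖ ≤ K) {C : ℝ}
    (hcore : ∀ (s ρ ε : ℝ) (A : ℕ → ℝ) (z : TT) (p : ℝ × ℝ) (q : TT → ℝ × ℝ),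
      0 < s → s ≤ 1 → 0 < ρ → ρ ≤ 1 → 0 < ε → (∀ j, |A j| ≤ K) → Measurable q → 1 ≤ p.1 ^ 2 + p.2 ^ 2 →
      (∀ y, 1 ≤ (q y).1 ^ 2 + (q y).2 ^ 2) → ρ ≤ |sn z.1| → ρ ≤ |cs z.1| →
      ∫⁻ w0, ∫⁻ w1, ∫⁻ w2, {w : ℂ | bad3 A s ρ ε z p q w0 w1 w}.indicator 1 w2 ∂dl ∂dl ∂dl ≤
        ENNReal.ofReal (C * (s * ρ)⁻¹ ^ 4 * ε ^ ((1 : ℝ) / 8)))
    {l n : ℕ} (hi : D.iso l (2 * (n + 2))) (hs : D.s l ≤ 1) (θ : Td d) (i j : Fin 2) {ρ ε : ℝ} (hρ : 0 < ρ) (hρ1 : ρ ≤ 1)
    (hε : 0 < ε) (z : TT) :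
    ∫⁻ ω, {ω : Om d | Ev1 n i j ρ ε (Ar D ω θ) z}.indicator 1 ω ∂law d ≤
      ENNReal.ofReal (C * (D.s l * ρ)⁻¹ ^ 4 * ε ^ ((1 : ℝ) / 8)) := by
  have hArm : Measurable fun ω : Om d => Ar D ω θ := by
    refine measurable_pi_lambda _ fun j => ?_
    have h1 : Measurable fun ω : Om d => D.As ω θ j :=
      (measurable_pi_apply j).comp ((As_meas hD).comp (measurable_id.prodMk measurable_const))
    unfold Ar ar
    exact Complex.measurable_ofReal.comp (Complex.measurable_re.comp h1)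
  have hms : MeasurableSet {ω : Om d | Ev1 n i j ρ ε (Ar D ω θ) z} :=
    (hArm.prodMk measurable_const) (Ev_meas1 n i j ρ ε)
  have hF : Measurable ({ω : Om d | Ev1 n i j ρ ε (Ar D ω θ) z}.indicator (1 : Om d → ℝ≥0∞)) :=
    measurable_one.indicator hms
  rw [res31 (l, cl l (θ + (n + 1) • D.α)) (l, cl l (θ + (n + 2) • D.α)) (l, cl l (θ + (n + 3) • D.α)) hF]
  have key : ∀ ω : Om d, ∫⁻ w0, ∫⁻ w1, ∫⁻ w2,
      {ω : Om d | Ev1 n i j ρ ε (Ar D ω θ) z}.indicator (1 : Om d → ℝ≥0∞) (up1 D l n θ ω w0 w1 w2) ∂dl ∂dl ∂dl ≤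
      ENNReal.ofReal (C * (D.s l * ρ)⁻¹ ^ 4 * ε ^ ((1 : ℝ) / 8)) := by
    intro ω
    -- the frozen data
    obtain ⟨z0, hz0⟩ : ∃ z0, z0 = orb (Ar D ω θ) z (n + 1) := ⟨_, rfl⟩
    obtain ⟨p, hp⟩ : ∃ p, p = cl2 (Mx (Ar D ω θ) z (n + 1)) j := ⟨_, rfl⟩
    obtain ⟨q, hq⟩ : ∃ q : TT → ℝ × ℝ, q = fun y => rw2 (Mx (fun k => Ar D ω θ (k + (n + 4))) y n) i := ⟨_, rfl⟩
    have hEv : ∀ {w0 w1 w2 : ℂ}, clip w0 = w0 → clip w1 = w1 → clip w2 = w2 →
        Ev1 n i j ρ ε (Ar D (up1 D l n θ ω w0 w1 w2) θ) z →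
        ρ ≤ |sn z0.1| ∧ ρ ≤ |cs z0.1| ∧ bad3 (fun i => arm D l ω θ (n + 1 + i)) (D.s l) ρ ε z0 p q w0 w1 w2 := by
      intro w0 w1 w2 c0 c1 c2 he
      obtain ⟨e1, e2, e3, e4, e5, e6⟩ := he
      set a' := Ar D (up1 D l n θ ω w0 w1 w2) θ with ha'
      have f0 : ∀ k < n + 1, a' k = Ar D ω θ k := fun k hk =>
        up_far1 hD hi θ ω w0 w1 w2 (by omega) (by omega) (by omega) (by omega)
      have o0 : orb a' z (n + 1) = z0 := by rw [hz0]; exact orb_congr1 z f0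
      have m0 : Mx a' z (n + 1) = Mx (Ar D ω θ) z (n + 1) := Mx_congr1 z f0
      have f1 : ∀ k < 3, (fun k => a' (k + (n + 1))) k = am3 (fun i => arm D l ω θ (n + 1 + i)) (D.s l) w0 w1 w2 k :=
        fun k hk => up_near1 hD hi θ ω c0 c1 c2 hk
      have o1 : ∀ r ≤ 3, orb a' z (n + 1 + r) = orb (am3 (fun i => arm D l ω θ (n + 1 + i)) (D.s l) w0 w1 w2) z0 r := by
        intro r hr
        rw [orb_add, o0]
        exact orb_congr1 z0 fun k hk => f1 k (by omega)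
      have m1 : Mx (fun k => a' (k + (n + 1))) z0 3 = Mx (am3 (fun i => arm D l ω θ (n + 1 + i)) (D.s l) w0 w1 w2) z0 3 :=
        Mx_congr1 z0 f1
      have f2 : ∀ k < n, (fun k => a' (k + (n + 4))) k = (fun k => Ar D ω θ (k + (n + 4))) k := fun k hk =>
        up_far1 hD hi θ ω w0 w1 w2 (by omega) (by omega) (by omega) (by omega)
      have m2 : ∀ y, Mx (fun k => a' (k + (n + 4))) y n = Mx (fun k => Ar D ω θ (k + (n + 4))) y n :=
        fun y => Mx_congr1 y f2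
      rw [o0] at e1 e2
      have g1 := o1 1 (by norm_num)
      have g2 := o1 2 (by norm_num)
      have g3 := o1 3 (by norm_num)
      rw [show n + 1 + 1 = n + 2 by omega] at g1
      rw [show n + 1 + 2 = n + 3 by omega] at g2
      rw [show n + 1 + 3 = n + 4 by omega] at g3
      rw [g1] at e3
      rw [g2] at e4 e5
      rw [o0, m0, m1, m2, g3, ← hp] at e6
      refine ⟨e1, e2, e3, e4, e5, ?_⟩
      rw [hq]
      exact e6
    by_cases hc : ρ ≤ |sn z0.1| ∧ ρ ≤ |cs z0.1|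
    · have hqm : Measurable q := by
        rw [hq]
        refine rw2_meas1 (R := fun y => Mx (fun k => Ar D ω θ (k + (n + 4))) y n) (fun a b => ?_) i
        exact (Mx_meas' n a b).comp (measurable_const.prodMk measurable_id)
      refine le_trans ?_ (hcore (D.s l) ρ ε (fun i => arm D l ω θ (n + 1 + i)) z0 p q (s_pos1 hD l) hs hρ hρ1 hε ?_ hqm ?_ ?_
        hc.1 hc.2)
      · refine lintegral_mono_ae ?_
        filter_upwards [clip_ae] with w0 c0
        refine lintegral_mono_ae ?_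
        filter_upwards [clip_ae] with w1 c1
        refine lintegral_mono_ae ?_
        filter_upwards [clip_ae] with w2 c2
        by_cases he : Ev1 n i j ρ ε (Ar D (up1 D l n θ ω w0 w1 w2) θ) z
        · rw [indicator_of_mem (show up1 D l n θ ω w0 w1 w2 ∈ {ω : Om d | Ev1 n i j ρ ε (Ar D ω θ) z} from he),
            indicator_of_mem (show w2 ∈ {w : ℂ | bad3 (fun i => arm D l ω θ (n + 1 + i)) (D.s l) ρ ε z0 p q w0 w1 w} from
              (hEv c0 c1 c2 he).2.2)]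
          rfl
        · rw [indicator_of_notMem (show up1 D l n θ ω w0 w1 w2 ∉ {ω : Om d | Ev1 n i j ρ ε (Ar D ω θ) z} from he)]
          exact zero_le
      · intro k
        unfold arm Dat.Ams
        exact (Complex.abs_re_le_norm _).trans (hK _ _ _)
      · rw [hp]
        exact cl_unit1 (det_Mx _ _ _) j
      · intro y
        rw [hq]
        exact rw_unit1 (det_Mx _ _ _) i
    · refine le_trans (le_of_eq ?_) zero_le
      rw [← lintegral_zero (μ := dl)]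
      refine lintegral_congr_ae ?_
      filter_upwards [clip_ae] with w0 c0
      rw [← lintegral_zero (μ := dl)]
      refine lintegral_congr_ae ?_
      filter_upwards [clip_ae] with w1 c1
      rw [← lintegral_zero (μ := dl)]
      refine lintegral_congr_ae ?_
      filter_upwards [clip_ae] with w2 c2
      apply indicator_of_notMem
      intro he
      obtain ⟨h1, h2, -⟩ := hEv c0 c1 c2 he
      exact hc ⟨h1, h2⟩
  calc _ ≤ ∫⁻ _ : Om d, ENNReal.ofReal (C * (D.s l * ρ)⁻¹ ^ 4 * ε ^ ((1 : ℝ) / 8)) ∂law d := lintegral_mono key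
    _ = _ := by rw [lintegral_const, measure_univ, mul_one]

private theorem va_le1 {a : ℂ} {K : ℝ} (ha : ‖a‖ ≤ K) (x : UnitAddCircle) : nn (mv (va a x)) ≤ 2 * π * K + 4 := by
  rw [Pool.Agent.Helper95.PV.nn_mv]
  have h1 : |(a * ee x).re| ≤ K := by
    refine (Complex.abs_re_le_norm _).trans ?_
    rw [norm_mul, norm_ee, mul_one]
    exact ha
  unfold va
  have h2 := abs_add_le (2 : ℝ) (2 * π * (a * ee x).re)
  rw [abs_two, abs_mul, abs_of_pos (by positivity : (0 : ℝ) < 2 * π)] at h2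
  have := mul_le_mul_of_nonneg_left h1 (by positivity : (0 : ℝ) ≤ 2 * π)
  linarith

/-- the loss for a sequence of amplitudes -/
private noncomputable def ls1 (a : ℕ → ℂ) (z : TT) (m : ℕ) : ℝ :=
  Real.log (nn (Mx a z m)) + Real.log (nn (Mx (fun j => a (j + m)) (orb a z m) m)) - Real.log (nn (Mx a z (2 * m)))

private theorem ls_le1 {a : ℕ → ℂ} {K : ℝ} (hK0 : 0 ≤ K) (ha : ∀ j, ‖a j‖ ≤ K) (z : TT) (m : ℕ) :
    ls1 a z m ≤ 2 * (Real.log 2 + m * Real.log (2 * π * K + 4)) := by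
  unfold ls1
  have h1 := log_nn_le hK0 ha z m
  have h2 := log_nn_le hK0 (A := fun j => a (j + m)) (fun j => ha (j + m)) (orb a z m) m
  have h3 := log_nn_nonneg a z (2 * m)
  linarith

private theorem ls_ev1 {a : ℕ → ℂ} {K : ℝ} (hK0 : 0 ≤ K) (ha : ∀ j, ‖a j‖ ≤ K) (z : TT) (n : ℕ) {t : ℝ}
    (ht : t < ls1 a z (n + 2)) : ∃ i j : Fin 2,
    |dot2 (rw2 (Mx (fun k => a (k + (n + 4))) (orb a z (n + 4)) n) i)
      (act (Mx (fun k => a (k + (n + 1))) (orb a z (n + 1)) 3) (cl2 (Mx a z (n + 1)) j))| <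
      16 * (2 * π * K + 4) ^ 3 * Real.exp (-t) := by
  obtain ⟨V, hV⟩ : ∃ V : ℝ, V = 2 * π * K + 4 := ⟨_, rfl⟩
  rw [← hV]
  have hV0 : 0 < V := by rw [hV]; positivity
  obtain ⟨R, hR⟩ : ∃ R, R = Mx (fun k => a (k + (n + 4))) (orb a z (n + 4)) n := ⟨_, rfl⟩
  obtain ⟨M, hM⟩ : ∃ M, M = Mx (fun k => a (k + (n + 1))) (orb a z (n + 1)) 3 := ⟨_, rfl⟩
  obtain ⟨L, hL⟩ : ∃ L, L = Mx a z (n + 1) := ⟨_, rfl⟩
  rw [← hR, ← hM, ← hL]
  have e1 : Mx a z (2 * (n + 2)) = R * (M * L) := by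
    rw [show 2 * (n + 2) = (n + 4) + n by ring, Mx_add, ← hR]
    congr 1
    rw [show n + 4 = (n + 1) + 3 by ring, Mx_add, ← hM, ← hL]
  have hdR : R.det = 1 := by rw [hR]; exact det_Mx _ _ _
  have hdL : L.det = 1 := by rw [hL]; exact det_Mx _ _ _
  have hdP : (R * (M * L)).det = 1 := by rw [← e1]; exact det_Mx _ _ _
  have pR := Pool.Agent.Helper95.PV.nn_ge_two hdR
  have pL := Pool.Agent.Helper95.PV.nn_ge_two hdL
  have pP := Pool.Agent.Helper95.PV.nn_ge_two hdP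
  have e2 : nn (Mx a z (n + 2)) ≤ V * nn L := by
    rw [show n + 2 = (n + 1) + 1 by ring, Mx_succ, ← hL]
    refine (Pool.Agent.Helper18.UC.nn_mul _ _).trans ?_
    have := va_le1 (ha (n + 1)) (orb a z (n + 1)).1
    rw [← hV] at this
    exact mul_le_mul_of_nonneg_right this (by linarith)
  have e3 : nn (Mx (fun j => a (j + (n + 2))) (orb a z (n + 2)) (n + 2)) ≤ nn R * (V * V) := by
    rw [show n + 2 = 2 + n by ring, Mx_add]
    have e4 : (fun j => (fun j => a (j + (2 + n))) (j + 2)) = fun k => a (k + (n + 4)) := by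
      funext j
      simp only
      congr 1
      ring
    have e5 : orb (fun j => a (j + (2 + n))) (orb a z (2 + n)) 2 = orb a z (n + 4) := by
      rw [← orb_add]
      congr 1
      ring
    rw [e4, e5, ← hR]
    refine (Pool.Agent.Helper18.UC.nn_mul _ _).trans ?_
    refine mul_le_mul_of_nonneg_left ?_ (by linarith)
    rw [Mx_succ, Mx_succ]
    have e6 : Mx (fun j => a (j + (2 + n))) (orb a z (2 + n)) 0 = 1 := rfl
    rw [e6, Matrix.mul_one]
    refine (Pool.Agent.Helper18.UC.nn_mul _ _).trans ?_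
    have h0 := va_le1 (ha (0 + (2 + n))) (orb (fun j => a (j + (2 + n))) (orb a z (2 + n)) 0).1
    have h1 := va_le1 (ha (0 + 1 + (2 + n))) (orb (fun j => a (j + (2 + n))) (orb a z (2 + n)) (0 + 1)).1
    rw [← hV] at h0 h1
    exact mul_le_mul h1 h0 (Pool.Agent.Helper18.UC.nn_nonneg _) hV0.le
  have q2 := Pool.Agent.Helper95.PV.nn_ge_two (det_Mx a z (n + 2))
  have q3 := Pool.Agent.Helper95.PV.nn_ge_two (det_Mx (fun j => a (j + (n + 2))) (orb a z (n + 2)) (n + 2))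
  obtain ⟨i, j, hij⟩ := ent R M L
  refine ⟨i, j, ?_⟩
  by_contra hc
  rw [not_lt] at hc
  have h4 : nn R * nn L * (V ^ 3 * Real.exp (-t)) ≤ nn (R * (M * L)) := by
    have : nn R * nn L * (16 * V ^ 3 * Real.exp (-t)) ≤ 16 * nn (R * (M * L)) :=
      (mul_le_mul_of_nonneg_left hc (by positivity)).trans hij
    linarith
  have h5 := Real.log_le_log (by positivity) h4
  rw [Real.log_mul (by positivity) (by positivity), Real.log_mul (by positivity) (by positivity),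
    Real.log_mul (by positivity) (by positivity), Real.log_exp, Real.log_pow] at h5
  have h6 := Real.log_le_log (by linarith) e2
  have h7 := Real.log_le_log (by linarith) e3
  rw [Real.log_mul (by positivity) (by positivity)] at h6
  rw [Real.log_mul (by positivity) (by positivity), Real.log_mul (by positivity) (by positivity)] at h7
  unfold ls1 at ht
  rw [e1] at ht
  push_cast at h5
  linarith

private theorem Ar_meas1 (hD : D.Ok) (θ : Td d) : Measurable fun ω : Om d => Ar D ω θ := by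
  refine measurable_pi_lambda _ fun j => ?_
  have h1 : Measurable fun ω : Om d => D.As ω θ j :=
    (measurable_pi_apply j).comp ((As_meas hD).comp (measurable_id.prodMk measurable_const))
  unfold Ar ar
  exact Complex.measurable_ofReal.comp (Complex.measurable_re.comp h1)

private theorem ls_meas1 (m : ℕ) : Measurable fun p : (ℕ → ℂ) × TT => ls1 p.1 p.2 m := by
  unfold ls1
  have h1 := Real.measurable_log.comp (Mx_meas m)
  have h2 := Real.measurable_log.comp ((Mx_meas m).comp (pt_meas1 m))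
  have h3 := Real.measurable_log.comp (Mx_meas (2 * m))
  exact (h1.add h2).sub h3

/-- the cut off sets -/
private theorem cutE1 (hD : D.Ok) (θ : Td d) (k : ℕ) {g : UnitAddCircle → ℝ} (hg : Measurable g) {ρ : ℝ}
    (hc : volume {x : UnitAddCircle | |g x| < ρ} ≤ ENNReal.ofReal (2 * ρ)) :
    ((law d).prod (volume : Measure TT)) {p : Om d × TT | |g (orb (Ar D p.1 θ) p.2 k).1| < ρ} ≤ ENNReal.ofReal (2 * ρ) := by
  have hm0 : MeasurableSet {x : UnitAddCircle | |g x| < ρ} := measurableSet_lt hg.norm measurable_const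
  have hm1 : Measurable fun p : Om d × TT => |g (orb (Ar D p.1 θ) p.2 k).1| := by
    have h1 : Measurable fun p : Om d × TT => ((Ar D p.1 θ, p.2) : (ℕ → ℂ) × TT) :=
      ((Ar_meas1 hD θ).comp measurable_fst).prodMk measurable_snd
    have h2 := (hg.comp (measurable_fst.comp ((orb_meas k).comp h1))).norm
    exact h2
  have hm : MeasurableSet {p : Om d × TT | |g (orb (Ar D p.1 θ) p.2 k).1| < ρ} := measurableSet_lt hm1 measurable_const
  rw [Measure.prod_apply hm]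
  have key : ∀ ω : Om d, (volume : Measure TT) (Prod.mk ω ⁻¹' {p : Om d × TT | |g (orb (Ar D p.1 θ) p.2 k).1| < ρ}) ≤ ENNReal.ofReal (2 * ρ) := by
    intro ω
    have e1 : Prod.mk ω ⁻¹' {p : Om d × TT | |g (orb (Ar D p.1 θ) p.2 k).1| < ρ} =
        (fun z => orb (Ar D ω θ) z k) ⁻¹' ({x : UnitAddCircle | |g x| < ρ} ×ˢ univ) := by
      ext z
      simp only [mem_preimage, mem_ofPred_eq, mem_prod, mem_univ, and_true]
    rw [e1, (orb_mp (Ar D ω θ) k).measure_preimage (hm0.prod MeasurableSet.univ).nullMeasurableSet,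
      Measure.volume_eq_prod, Measure.prod_prod, measure_univ, mul_one]
    exact hc
  calc _ ≤ ∫⁻ _ : Om d, ENNReal.ofReal (2 * ρ) ∂law d := lintegral_mono key
    _ = _ := by rw [lintegral_const, measure_univ, mul_one]

private theorem ev_bd1 (hD : D.Ok) {K V C : ℝ} (hK0 : 0 ≤ K) (hKm : ∀ l ω θ, ‖D.Am l ω θ‖ ≤ K) (hV : V = 2 * π * K + 4)
    (hV4 : 4 ≤ V) (hC0 : 0 < C)
    (hcore : ∀ (s ρ ε : ℝ) (A : ℕ → ℝ) (z : TT) (p : ℝ × ℝ) (q : TT → ℝ × ℝ),
      0 < s → s ≤ 1 → 0 < ρ → ρ ≤ 1 → 0 < ε → (∀ j, |A j| ≤ K) → Measurable q → 1 ≤ p.1 ^ 2 + p.2 ^ 2 →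
      (∀ y, 1 ≤ (q y).1 ^ 2 + (q y).2 ^ 2) → ρ ≤ |sn z.1| → ρ ≤ |cs z.1| →
      ∫⁻ w0, ∫⁻ w1, ∫⁻ w2, {w : ℂ | bad3 A s ρ ε z p q w0 w1 w}.indicator 1 w2 ∂dl ∂dl ∂dl ≤
        ENNReal.ofReal (C * (s * ρ)⁻¹ ^ 4 * ε ^ ((1 : ℝ) / 8)))
    {l n : ℕ} (hi : D.iso l (2 * (n + 2))) (hs : D.s l ≤ 1) (θ : Td d) (hAr : ∀ ω : Om d, ∀ j, ‖Ar D ω θ j‖ ≤ K)
    {ρ : ℝ} (hρ0 : 0 < ρ) (hρ1 : ρ ≤ 1) (t : ℝ) :
    ((law d).prod (volume : Measure TT)) {p : Om d × TT | t < ls1 (Ar D p.1 θ) p.2 (n + 2)} ≤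
      ENNReal.ofReal (10 * ρ + (4 * C + 1) * (D.s l * ρ)⁻¹ ^ 4 * (16 * V ^ 3) ^ ((1 : ℝ) / 8) * Real.exp (-(1 / 8 * t))) := by
  have hs0 := s_pos1 hD l
  have hsρ : 0 < D.s l * ρ := mul_pos hs0 hρ0
  have hpm : Measurable fun p : Om d × TT => ((Ar D p.1 θ, p.2) : (ℕ → ℂ) × TT) :=
    ((Ar_meas1 hD θ).comp measurable_fst).prodMk measurable_snd
  obtain ⟨ε, hε⟩ : ∃ ε : ℝ, ε = 16 * V ^ 3 * Real.exp (-t) := ⟨_, rfl⟩
  have hε0 : 0 < ε := by rw [hε]; positivity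
  have hEm : ∀ i j : Fin 2, MeasurableSet {p : Om d × TT | Ev1 n i j ρ ε (Ar D p.1 θ) p.2} := fun i j =>
    hpm (Ev_meas1 n i j ρ ε)
  have hE : ∀ i j : Fin 2, ((law d).prod (volume : Measure TT)) {p : Om d × TT | Ev1 n i j ρ ε (Ar D p.1 θ) p.2} ≤
      ENNReal.ofReal (C * (D.s l * ρ)⁻¹ ^ 4 * ε ^ ((1 : ℝ) / 8)) := by
    intro i j
    rw [Measure.prod_apply_symm (hEm i j)]
    have h1 : ∀ z : TT, (law d) ((fun ω => (ω, z)) ⁻¹' {p : Om d × TT | Ev1 n i j ρ ε (Ar D p.1 θ) p.2}) ≤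
        ENNReal.ofReal (C * (D.s l * ρ)⁻¹ ^ 4 * ε ^ ((1 : ℝ) / 8)) := by
      intro z
      have h2 := froz1 hD hKm hcore hi hs θ i j hρ0 hρ1 hε0 z
      have hms : MeasurableSet {ω : Om d | Ev1 n i j ρ ε (Ar D ω θ) z} :=
        ((Ar_meas1 hD θ).prodMk measurable_const) (Ev_meas1 n i j ρ ε)
      rw [lintegral_indicator_one hms] at h2
      exact h2
    calc _ ≤ ∫⁻ _ : TT, ENNReal.ofReal (C * (D.s l * ρ)⁻¹ ^ 4 * ε ^ ((1 : ℝ) / 8)) := lintegral_mono h1
      _ = _ := by rw [lintegral_const, measure_univ, mul_one]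
  obtain ⟨cs1, cs2⟩ := cut hρ0.le
  have c1 := cutE1 hD θ (n + 1) Pool.Agent.Helper82.QR.sn_meas cs1
  have c2 := cutE1 hD θ (n + 1) Pool.Agent.Helper82.QR.cs_meas cs2
  have c3 := cutE1 hD θ (n + 2) Pool.Agent.Helper82.QR.sn_meas cs1
  have c4 := cutE1 hD θ (n + 3) Pool.Agent.Helper82.QR.sn_meas cs1
  have c5 := cutE1 hD θ (n + 3) Pool.Agent.Helper82.QR.cs_meas cs2
  have hsub : {p : Om d × TT | t < ls1 (Ar D p.1 θ) p.2 (n + 2)} ⊆
      {p : Om d × TT | |sn (orb (Ar D p.1 θ) p.2 (n + 1)).1| < ρ} ∪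
      ({p : Om d × TT | |cs (orb (Ar D p.1 θ) p.2 (n + 1)).1| < ρ} ∪
      ({p : Om d × TT | |sn (orb (Ar D p.1 θ) p.2 (n + 2)).1| < ρ} ∪
      ({p : Om d × TT | |sn (orb (Ar D p.1 θ) p.2 (n + 3)).1| < ρ} ∪
      ({p : Om d × TT | |cs (orb (Ar D p.1 θ) p.2 (n + 3)).1| < ρ} ∪
      ({p : Om d × TT | Ev1 n 0 0 ρ ε (Ar D p.1 θ) p.2} ∪ ({p : Om d × TT | Ev1 n 0 1 ρ ε (Ar D p.1 θ) p.2} ∪
      ({p : Om d × TT | Ev1 n 1 0 ρ ε (Ar D p.1 θ) p.2} ∪ {p : Om d × TT | Ev1 n 1 1 ρ ε (Ar D p.1 θ) p.2}))))))) := by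
    intro p hp
    simp only [mem_union, mem_ofPred_eq]
    simp only [mem_ofPred_eq] at hp
    by_contra hcon
    simp only [not_or, not_lt] at hcon
    obtain ⟨d1, d2, d3, d4, d5, f1, f2, f3, f4⟩ := hcon
    obtain ⟨i, j, hij⟩ := ls_ev1 hK0 (hAr p.1) p.2 n hp
    rw [← hV, ← hε] at hij
    have hev : Ev1 n i j ρ ε (Ar D p.1 θ) p.2 := ⟨d1, d2, d3, d4, d5, hij⟩
    have hall : ∀ i j : Fin 2, ¬ Ev1 n i j ρ ε (Ar D p.1 θ) p.2 := by
      intro i j
      fin_cases i <;> fin_cases j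
      · exact f1
      · exact f2
      · exact f3
      · exact f4
    exact hall i j hev
  refine (measure_mono hsub).trans ?_
  have hX0 : 0 ≤ C * (D.s l * ρ)⁻¹ ^ 4 * ε ^ ((1 : ℝ) / 8) := by positivity
  have hρ2 : 0 ≤ 2 * ρ := by positivity
  have e8 : ε ^ ((1 : ℝ) / 8) = (16 * V ^ 3) ^ ((1 : ℝ) / 8) * Real.exp (-(1 / 8 * t)) := by
    rw [hε, Real.mul_rpow (by positivity) (Real.exp_pos _).le, ← Real.exp_mul]
    congr 2
    ring
  refine (measure_union_le _ _).trans ((add_le_add c1 ((measure_union_le _ _).trans (add_le_add c2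
    ((measure_union_le _ _).trans (add_le_add c3 ((measure_union_le _ _).trans (add_le_add c4
    ((measure_union_le _ _).trans (add_le_add c5 ((measure_union_le _ _).trans (add_le_add (hE 0 0)
    ((measure_union_le _ _).trans (add_le_add (hE 0 1) ((measure_union_le _ _).trans
    (add_le_add (hE 1 0) (hE 1 1)))))))))))))))).trans ?_)
  rw [← ENNReal.ofReal_add hX0 hX0, ← ENNReal.ofReal_add hX0 (by positivity), ← ENNReal.ofReal_add hX0 (by positivity),
    ← ENNReal.ofReal_add hρ2 (by positivity), ← ENNReal.ofReal_add hρ2 (by positivity),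
    ← ENNReal.ofReal_add hρ2 (by positivity), ← ENNReal.ofReal_add hρ2 (by positivity),
    ← ENNReal.ofReal_add hρ2 (by positivity)]
  apply ENNReal.ofReal_le_ofReal
  have hq : 0 ≤ (D.s l * ρ)⁻¹ ^ 4 * ((16 * V ^ 3) ^ ((1 : ℝ) / 8) * Real.exp (-(1 / 8 * t))) := by positivity
  rw [e8]
  nlinarith [hq]

private theorem lsA_meas1 (hD : D.Ok) (θ : Td d) (m : ℕ) : Measurable fun p : Om d × TT => ls1 (Ar D p.1 θ) p.2 m := by
  have hpm : Measurable fun p : Om d × TT => ((Ar D p.1 θ, p.2) : (ℕ → ℂ) × TT) :=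
    ((Ar_meas1 hD θ).comp measurable_fst).prodMk measurable_snd
  have h := (ls_meas1 m).comp hpm
  simp only [Function.comp_def] at h
  exact h

private theorem int_eq1 (hD : D.Ok) (θ : Td d) (m : ℕ) :
    ∫⁻ ω, (∫⁻ z : TT, ENNReal.ofReal (Real.log (nn (Mx (Ar D ω θ) z m)) +
      Real.log (nn (Mx (Ar D ω (θ + m • D.α)) (orb (Ar D ω θ) z m) m)) -
      Real.log (nn (Mx (Ar D ω θ) z (2 * m))))) ∂law d =
      ∫⁻ p, ENNReal.ofReal (ls1 (Ar D p.1 θ) p.2 m) ∂((law d).prod (volume : Measure TT)) := by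
  have hF := ENNReal.measurable_ofReal.comp (lsA_meas1 hD θ m)
  simp only [Function.comp_def] at hF
  rw [lintegral_prod _ hF.aemeasurable]
  refine lintegral_congr fun ω => lintegral_congr fun z => ?_
  simp only [ls1]
  rw [Ar_add]

theorem dblR (hD : D.Ok) : ∃ C : ℝ, 0 ≤ C ∧ ∀ l m : ℕ, 2 ≤ m → D.iso l (2 * m) → D.s l ≤ 1 → ∀ θ,
    ∫⁻ ω, (∫⁻ z : TT, ENNReal.ofReal (Real.log (nn (Mx (Ar D ω θ) z m)) +
      Real.log (nn (Mx (Ar D ω (θ + m • D.α)) (orb (Ar D ω θ) z m) m)) -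
      Real.log (nn (Mx (Ar D ω θ) z (2 * m))))) ∂law d ≤
      ENNReal.ofReal (C * (1 + Real.log (1 / D.s l) + Real.log m)) := by
  obtain ⟨K1, hK10, hK1⟩ := A_bd hD
  obtain ⟨K2, hK20, hK2⟩ := Am_bd hD
  obtain ⟨K, hK⟩ : ∃ K, K = max K1 K2 := ⟨_, rfl⟩
  have hK0 : 0 ≤ K := by rw [hK]; exact hK10.trans (le_max_left _ _)
  have hKA : ∀ ω θ, ‖D.A ω θ‖ ≤ K := fun ω θ => (hK1 ω θ).trans (by rw [hK]; exact le_max_left _ _)
  have hKm : ∀ l ω θ, ‖D.Am l ω θ‖ ≤ K := fun l ω θ => (hK2 l ω θ).trans (by rw [hK]; exact le_max_right _ _)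
  obtain ⟨C, hC0, hcore⟩ := core K hK0
  obtain ⟨V, hV⟩ : ∃ V : ℝ, V = 2 * π * K + 4 := ⟨_, rfl⟩
  have hV4 : 4 ≤ V := by
    rw [hV]
    have : 0 ≤ 2 * π * K := by positivity
    linarith
  have hlV : 0 ≤ Real.log V := Real.log_nonneg (by linarith)
  have hl2 : 0 ≤ Real.log 2 := Real.log_nonneg one_le_two
  have hlC : 0 ≤ Real.log (4 * C + 1) := Real.log_nonneg (by linarith)
  have hW1 : 1 ≤ 16 * V ^ 3 := by nlinarith [one_le_pow₀ (n := 3) (by linarith : 1 ≤ V)]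
  have hlW : 0 ≤ Real.log (16 * V ^ 3) := Real.log_nonneg hW1
  refine ⟨20 * (Real.log 2 + Real.log V) + 8 + 8 * Real.log (4 * C + 1) + Real.log (16 * V ^ 3) + 32, by positivity, ?_⟩
  intro l m hm hi hs θ
  obtain ⟨n, rfl⟩ : ∃ n, m = n + 2 := ⟨m - 2, by omega⟩
  have hs0 := s_pos1 hD l
  -- the bounds for the amplitudes
  have hAr : ∀ ω : Om d, ∀ j, ‖Ar D ω θ j‖ ≤ K := by
    intro ω j
    unfold Ar ar Dat.As
    rw [Complex.norm_real, Real.norm_eq_abs]
    exact (Complex.abs_re_le_norm _).trans (hKA _ _)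
  obtain ⟨ρ, hρ⟩ : ∃ ρ : ℝ, ρ = 1 / ((n + 2 : ℕ) : ℝ) := ⟨_, rfl⟩
  have hmp : (0 : ℝ) < ((n + 2 : ℕ) : ℝ) := by positivity
  have hm1 : (1 : ℝ) ≤ ((n + 2 : ℕ) : ℝ) := by
    have : (1 : ℕ) ≤ n + 2 := by omega
    exact_mod_cast this
  have hρ0 : 0 < ρ := by rw [hρ]; positivity
  have hρ1 : ρ ≤ 1 := by rw [hρ, div_le_one hmp]; exact hm1
  obtain ⟨T, hT⟩ : ∃ T : ℝ, T = 2 * (Real.log 2 + ((n + 2 : ℕ) : ℝ) * Real.log V) := ⟨_, rfl⟩
  have hT0 : 0 ≤ T := by rw [hT]; positivity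
  obtain ⟨b, hb⟩ : ∃ b : ℝ, b = (4 * C + 1) * (D.s l * ρ)⁻¹ ^ 4 * (16 * V ^ 3) ^ ((1 : ℝ) / 8) := ⟨_, rfl⟩
  have hsρ : 0 < D.s l * ρ := mul_pos hs0 hρ0
  have hsρ1 : D.s l * ρ ≤ 1 := mul_le_one₀ hs hρ0.le hρ1
  have hinv : 1 ≤ (D.s l * ρ)⁻¹ := (one_le_inv₀ hsρ).2 hsρ1
  have hb1 : 1 ≤ b := by
    rw [hb]
    have h1 : 1 ≤ (D.s l * ρ)⁻¹ ^ 4 := one_le_pow₀ hinv
    have h2 : 1 ≤ (16 * V ^ 3) ^ ((1 : ℝ) / 8) := Real.one_le_rpow hW1 (by norm_num)
    have h3 : 1 ≤ 4 * C + 1 := by linarith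
    exact one_le_mul_of_one_le_of_one_le (one_le_mul_of_one_le_of_one_le h3 h1) h2
  have hXm := lsA_meas1 hD θ (n + 2)
  have key := tail (μ := (law d).prod (volume : Measure TT)) hXm (T := T) (a := 10 * ρ) (b := b) (c := 1 / 8)
    hT0 (by positivity) hb1 (by norm_num)
    (fun p => by
      rw [hT, hV]
      exact ls_le1 hK0 (hAr p.1) p.2 (n + 2))
    (fun t ht => by
      rw [hb]
      exact ev_bd1 hD hK0 hKm hV hV4 hC0 hcore hi hs θ hAr hρ0 hρ1 t)
  rw [int_eq1 hD θ (n + 2)]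
  refine key.trans (ENNReal.ofReal_le_ofReal ?_)
  have hlm : 0 ≤ Real.log ((n + 2 : ℕ) : ℝ) := Real.log_nonneg hm1
  have hls : 0 ≤ Real.log (1 / D.s l) := Real.log_nonneg (by rw [le_div_iff₀ hs0]; linarith)
  have k1 : 10 * ρ * T ≤ 20 * (Real.log 2 + Real.log V) := by
    rw [hρ, hT]
    have h1 : 10 * (1 / ((n + 2 : ℕ) : ℝ)) * (2 * (Real.log 2 + ((n + 2 : ℕ) : ℝ) * Real.log V)) =
        20 * (Real.log 2 / ((n + 2 : ℕ) : ℝ) + Real.log V) := by
      field_simp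
      ring
    rw [h1]
    have h2 : Real.log 2 / ((n + 2 : ℕ) : ℝ) ≤ Real.log 2 := div_le_self hl2 hm1
    linarith
  have k2 : Real.log b = Real.log (4 * C + 1) + 4 * (Real.log (1 / D.s l) + Real.log ((n + 2 : ℕ) : ℝ)) +
      1 / 8 * Real.log (16 * V ^ 3) := by
    have e1 : (D.s l * ρ)⁻¹ = 1 / D.s l * ((n + 2 : ℕ) : ℝ) := by
      rw [hρ]
      field_simp
    rw [hb, Real.log_mul (by positivity) (by positivity), Real.log_mul (by positivity) (by positivity), Real.log_pow,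
      Real.log_rpow (by positivity), e1, Real.log_mul (by positivity) (by positivity)]
    push_cast
    ring
  have k3 : (Real.log b + 1) / (1 / 8) = 8 * Real.log b + 8 := by ring
  rw [k3, k2]
  nlinarith [mul_nonneg (by positivity : 0 ≤ 20 * (Real.log 2 + Real.log V) + 8 + 8 * Real.log (4 * C + 1) + Real.log (16 * V ^ 3)) (add_nonneg hls hlm)]

end Pool.Agent.Helper46.QR
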