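import Pool.Agent.Helper46.QR.PairsR
import Pool.Agent.Helper46.QR.RatesR
import Pool.Agent.Helper46.QP.Erg

/-! Block QR-ERG: as QP-ERG (`QP/Erg.lean`, complete), with `Fr`, `pairsR`, `ratesR` (`k = 3`) and the gap as hypothesis. -/

set_option autoImplicit false
open MeasureTheory Real Set Filter Topology

namespace Pool.Agent.Helper46.QR

open Pool.Agent.Helper18.FD (NN)
open Pool.Agent.Helper46.QP

variable {d : ℕ} {D : Dat d}

theorem Fr_meas (hD : D.Ok) : Measurable fun p : Om d × (Td d × TT) => Fr D p.1 p.2 := by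
  have hb : Measurable fun p : Om d × (Td d × TT) => ((p.1, p.2.1) : Om d × Td d) :=
    measurable_fst.prodMk (measurable_fst.comp measurable_snd)
  have h1 : Measurable fun p : Om d × (Td d × TT) => (((D.A p.1 p.2.1).re : ℝ) : ℂ) :=
    Complex.measurable_ofReal.comp (Complex.measurable_re.comp ((A_meas hD).comp hb))
  have hc : Measurable fun p : Om d × (Td d × TT) => (((((D.A p.1 p.2.1).re : ℝ) : ℂ), p.2.2) : ℂ × TT) :=
    h1.prodMk (measurable_snd.comp measurable_snd)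
  unfold Fr
  exact ((measurable_fst.comp measurable_snd).add_const _).prodMk (stp_meas.comp hc)

theorem Fr_mp (hD : D.Ok) (ω : Om d) : MeasurePreserving (Fr D ω) volume volume := by
  have hA : Measurable fun θ : Td d => (((D.A ω θ).re : ℝ) : ℂ) := by
    have hb : Measurable fun θ : Td d => ((ω, θ) : Om d × Td d) := measurable_const.prodMk measurable_id
    exact Complex.measurable_ofReal.comp (Complex.measurable_re.comp ((A_meas hD).comp hb))
  have hm : Measurable (Function.uncurry fun (θ : Td d) (z : TT) => stp (((D.A ω θ).re : ℝ) : ℂ) z) := by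
    have hc : Measurable fun p : Td d × TT => (((((D.A ω p.1).re : ℝ) : ℂ), p.2) : ℂ × TT) :=
      (hA.comp measurable_fst).prodMk measurable_snd
    exact stp_meas.comp hc
  have h := (measurePreserving_add_right (volume : Measure (Td d)) D.α).skew_product
    (μc := (volume : Measure TT)) (μd := (volume : Measure TT))
    (g := fun θ z => stp (((D.A ω θ).re : ℝ) : ℂ) z) hm
    (Filter.Eventually.of_forall fun θ => (stp_mp _).map_eq)
  exact h

/-! ### preparations -/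

private theorem iter_meas_h4 (hD : D.Ok) (n : ℕ) :
    Measurable fun p : Om d × (Td d × TT) => (Fr D p.1)^[n] p.2 := by
  induction n with
  | zero => exact measurable_snd
  | succ n ih =>
    have h : Measurable fun p : Om d × (Td d × TT) =>
        ((p.1, (Fr D p.1)^[n] p.2) : Om d × (Td d × TT)) := measurable_fst.prodMk ih
    have h1 := (Fr_meas hD).comp h
    simp only [Function.comp_def] at h1
    simpa only [Function.iterate_succ_apply'] using h1

private theorem co_meas_h4 (hD : D.Ok) {G Ψ : Td d × TT → ℝ} (hG : Measurable G) (hΨ : Measurable Ψ)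
    (n : ℕ) : Measurable fun ω : Om d => ∫ p, G ((Fr D ω)^[n] p) * Ψ p := by
  have h1 : Measurable fun p : Om d × (Td d × TT) => G ((Fr D p.1)^[n] p.2) * Ψ p.2 :=
    (hG.comp (iter_meas_h4 hD n)).mul (hΨ.comp measurable_snd)
  exact (h1.stronglyMeasurable.integral_prod_right').measurable

private theorem co_bd_h4 {G Ψ : Td d × TT → ℝ} {K : ℝ} (hK : ∀ p, |G p| ≤ K) (hK' : ∀ p, |Ψ p| ≤ K)
    (ω : Om d) (n : ℕ) : |∫ p, G ((Fr D ω)^[n] p) * Ψ p| ≤ K * K := by
  rw [← Real.norm_eq_abs]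
  refine (norm_integral_le_of_norm_le_const (C := K * K)
    (Filter.Eventually.of_forall fun p => ?_)).trans ?_
  · rw [norm_mul]
    exact mul_le_mul (hK _) (hK' _) (abs_nonneg _) ((abs_nonneg _).trans (hK p))
  · simp

private theorem s_pos_h4 (hD : D.Ok) (l : ℕ) : 0 < D.s l := by
  unfold Dat.s
  have h1 : (0 : ℝ) < (NN l : ℝ) := by
    exact_mod_cast Pool.Agent.Helper18.FD.NN_pos l
  exact mul_pos hD.hq (Real.rpow_pos_of_pos h1 _)

theorem corR (hD : D.Ok) (hb : D.b < d / 2) (hgap : ∀ K, ∃ η, 0 < η ∧ η ≤ 1 ∧ GapT K η)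
    (hα : ∀ τ : ℝ, 1 / (d : ℝ) < τ → ∃ c : ℝ, 0 < c ∧ ∀ k : ℕ, 1 ≤ k → c * (k : ℝ) ^ (-τ) ≤ ‖k • D.α‖)
    {G Ψ : Td d × TT → ℝ} (hG : Measurable G) (hΨ : Measurable Ψ) {K : ℝ} (hK : ∀ p, |G p| ≤ K) (hK' : ∀ p, |Ψ p| ≤ K)
    (h0 : ∀ θ, ∫ z, Ψ (θ, z) = 0) :
    ∀ᵐ ω ∂law d, Tendsto (fun i : ℕ => ∫ p, G ((Fr D ω)^[2 ^ i] p) * Ψ p) atTop (𝓝 0) := by
  obtain ⟨K₀, hK₀0, hK₀⟩ := Am_bd hD
  obtain ⟨η, hη, hη1, hgapK⟩ := hgap K₀
  obtain ⟨L, i₀, C, δ, hC, hδ, hiso, hs, hlog, hsum'⟩ := ratesR hD hb hα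
  obtain ⟨hsum, _⟩ := hsum' η 3 hη hη1 (by norm_num)
  have hr0 : ∀ i, i₀ ≤ i → 0 ≤ (1 - η * D.s (L i) ^ 2) ^ (2 ^ i / 3) +
      2 * (2 : ℝ) ^ i * (4 / (NN (L i) : ℝ)) ^ d := by
    intro i hi
    have h1 := hs i hi
    have h2 := s_pos_h4 hD (L i)
    have h3 : 0 ≤ 1 - η * D.s (L i) ^ 2 := by
      have h4 : D.s (L i) ^ 2 ≤ 1 := by nlinarith
      nlinarith [sq_nonneg (D.s (L i))]
    positivity
  have hb1 : ∀ i, i₀ ≤ i → ∫ ω, (∫ p, G ((Fr D ω)^[2 ^ i] p) * Ψ p) ^ 2 ∂law d ≤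
      K ^ 2 * K ^ 2 * ((1 - η * D.s (L i) ^ 2) ^ (2 ^ i / 3) +
      2 * (2 : ℝ) ^ i * (4 / (NN (L i) : ℝ)) ^ d) := by
    intro i hi
    have hlt : (2 : ℕ) ^ i ≤ 2 ^ (i + 2) := Nat.pow_le_pow_right (by norm_num) (by omega)
    have h := pairsR hD hK₀ hη hη1 hgapK (l := L i) (n := 2 ^ i)
      (fun k hk hk' => hiso i k hk (lt_of_lt_of_le hk' hlt)) (hs i hi) hG hΨ hK hK' h0
    push_cast at h
    exact h
  have hint : ∀ i : ℕ, Integrable (fun ω : Om d => (∫ p, G ((Fr D ω)^[2 ^ i] p) * Ψ p) ^ 2) (law d) := by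
    intro i
    refine Integrable.mono' (integrable_const ((K * K) ^ 2))
      ((co_meas_h4 hD hG hΨ (2 ^ i)).pow_const 2).aestronglyMeasurable
      (Filter.Eventually.of_forall fun ω => ?_)
    rw [Real.norm_eq_abs, abs_of_nonneg (sq_nonneg _), ← sq_abs]
    exact pow_le_pow_left₀ (abs_nonneg _) (co_bd_h4 hK hK' ω _) 2
  have hfin : ∫⁻ ω, ∑' i : ℕ, ENNReal.ofReal ((∫ p, G ((Fr D ω)^[2 ^ (i + i₀)] p) * Ψ p) ^ 2) ∂law d ≠ ⊤ := by
    rw [lintegral_tsum (fun i => ((co_meas_h4 hD hG hΨ (2 ^ (i + i₀))).pow_const 2).ennreal_ofReal.aemeasurable)]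
    have hle : ∀ i : ℕ, ∫⁻ ω, ENNReal.ofReal ((∫ p, G ((Fr D ω)^[2 ^ (i + i₀)] p) * Ψ p) ^ 2) ∂law d ≤
        ENNReal.ofReal (K ^ 2 * K ^ 2 * ((1 - η * D.s (L (i + i₀)) ^ 2) ^ (2 ^ (i + i₀) / 3) +
          2 * (2 : ℝ) ^ (i + i₀) * (4 / (NN (L (i + i₀)) : ℝ)) ^ d)) := by
      intro i
      rw [← ofReal_integral_eq_lintegral_ofReal (hint (i + i₀))
        (Filter.Eventually.of_forall fun ω => sq_nonneg _)]
      exact ENNReal.ofReal_le_ofReal (hb1 (i + i₀) (by omega))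
    refine ne_top_of_le_ne_top ?_ (ENNReal.tsum_le_tsum hle)
    have hsum2 := ((summable_nat_add_iff i₀).2 hsum).mul_left (K ^ 2 * K ^ 2)
    rw [← ENNReal.ofReal_tsum_of_nonneg (fun i => mul_nonneg (by positivity) (hr0 (i + i₀) (by omega))) hsum2]
    exact ENNReal.ofReal_ne_top
  have hmeas : Measurable fun ω : Om d =>
      ∑' i : ℕ, ENNReal.ofReal ((∫ p, G ((Fr D ω)^[2 ^ (i + i₀)] p) * Ψ p) ^ 2) :=
    Measurable.tsum fun i => ((co_meas_h4 hD hG hΨ (2 ^ (i + i₀))).pow_const 2).ennreal_ofReal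
  filter_upwards [ae_lt_top hmeas hfin] with ω hω
  have h1 := ENNReal.tendsto_atTop_zero_of_tsum_ne_top hω.ne
  have h2 : Tendsto (fun i : ℕ => (∫ p, G ((Fr D ω)^[2 ^ (i + i₀)] p) * Ψ p) ^ 2) atTop (𝓝 0) := by
    have h3 := (ENNReal.tendsto_toReal ENNReal.zero_ne_top).comp h1
    simp only [Function.comp_def, ENNReal.toReal_zero] at h3
    refine h3.congr fun i => ?_
    rw [ENNReal.toReal_ofReal (sq_nonneg _)]
  have h4 : Tendsto (fun i : ℕ => |∫ p, G ((Fr D ω)^[2 ^ (i + i₀)] p) * Ψ p|) atTop (𝓝 0) := by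
    have h5 := (Real.continuous_sqrt.tendsto 0).comp h2
    rw [Real.sqrt_zero] at h5
    refine h5.congr fun i => ?_
    simp only [Function.comp_def, Real.sqrt_sq_eq_abs]
  have h6 := tendsto_zero_iff_abs_tendsto_zero _ |>.2 h4
  exact (tendsto_add_atTop_iff_nat i₀).1 h6

/-! ### means on the fibres -/

private noncomputable def av_h4 (g : Td d × TT → ℝ) (θ : Td d) : ℝ := ∫ z, g (θ, z)

private noncomputable def ps_h4 (g : Td d × TT → ℝ) (p : Td d × TT) : ℝ := g p - av_h4 g p.1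

private theorem av_meas_h4 {g : Td d × TT → ℝ} (hg : Measurable g) : Measurable (av_h4 g) :=
  (hg.stronglyMeasurable.integral_prod_right').measurable

private theorem av_bd_h4 {g : Td d × TT → ℝ} {K : ℝ} (hK : ∀ p, |g p| ≤ K) (θ : Td d) : |av_h4 g θ| ≤ K := by
  unfold av_h4
  rw [← Real.norm_eq_abs]
  refine (norm_integral_le_of_norm_le_const (C := K) (Filter.Eventually.of_forall fun z => hK (θ, z))).trans ?_
  simp

private theorem ps_meas_h4 {g : Td d × TT → ℝ} (hg : Measurable g) : Measurable (ps_h4 g) :=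
  hg.sub ((av_meas_h4 hg).comp measurable_fst)

private theorem ps_bd_h4 {g : Td d × TT → ℝ} {K : ℝ} (hK : ∀ p, |g p| ≤ K) (p : Td d × TT) :
    |ps_h4 g p| ≤ 2 * K := by
  unfold ps_h4
  have h1 := hK p
  have h2 := av_bd_h4 hK p.1
  have h3 := abs_sub (g p) (av_h4 g p.1)
  linarith

private theorem fib_int_h4 {g : Td d × TT → ℝ} {K : ℝ} (hg : Measurable g) (hK : ∀ p, |g p| ≤ K) (θ : Td d) :
    Integrable (fun z => g (θ, z)) (volume : Measure TT) := by
  refine Integrable.mono' (integrable_const K) (hg.comp (measurable_const.prodMk measurable_id)).aestronglyMeasurable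
    (Filter.Eventually.of_forall fun z => ?_)
  exact hK (θ, z)

private theorem ps_zero_h4 {g : Td d × TT → ℝ} {K : ℝ} (hg : Measurable g) (hK : ∀ p, |g p| ≤ K) (θ : Td d) :
    ∫ z, ps_h4 g (θ, z) = 0 := by
  have h1 : ∫ z, (g (θ, z) - av_h4 g θ) = (∫ z, g (θ, z)) - ∫ _ : TT, av_h4 g θ :=
    integral_sub (fib_int_h4 hg hK θ) (integrable_const (av_h4 g θ))
  have h2 : ∫ _ : TT, av_h4 g θ = av_h4 g θ := by simp
  show ∫ z, (g (θ, z) - av_h4 g θ) = 0
  rw [h1, h2]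
  exact sub_self _

/-! ### density -/

private theorem wr_h4 : (volume : Measure (Td d × TT)).WeaklyRegular :=
  Measure.WeaklyRegular.of_pseudoMetrizableSpace_of_isFiniteMeasure _

private theorem dens_h4 {S : Set C(Td d × TT, ℝ)} (hS : Dense S) {f : Td d × TT → ℝ}
    (hf : Integrable f (volume : Measure (Td d × TT))) {ε : ℝ} (hε : 0 < ε) :
    ∃ g ∈ S, ∫ p, |f p - g p| ≤ ε := by
  have : (volume : Measure (Td d × TT)).WeaklyRegular := wr_h4
  obtain ⟨g0, hg0, hg0i⟩ := hf.exists_boundedContinuous_integral_sub_le (half_pos hε)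
  obtain ⟨g, hgS, hg⟩ := hS.exists_dist_lt g0.toContinuousMap (half_pos hε)
  refine ⟨g, hgS, ?_⟩
  have hgi : Integrable (fun p => g p) (volume : Measure (Td d × TT)) :=
    g.continuous.integrable_of_hasCompactSupport (HasCompactSupport.of_compactSpace _)
  have hp : ∀ p, |f p - g p| ≤ ‖f p - g0 p‖ + ε / 2 := by
    intro p
    have h1 : |g0 p - g p| ≤ ε / 2 := by
      have h2 := (ContinuousMap.dist_lt_iff (half_pos hε)).1 hg p
      rw [Real.dist_eq] at h2
      exact h2.le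
    have h3 := abs_add_le (f p - g0 p) (g0 p - g p)
    rw [sub_add_sub_cancel] at h3
    rw [Real.norm_eq_abs]
    linarith
  have hni : Integrable (fun p => ‖f p - g0 p‖) (volume : Measure (Td d × TT)) := (hf.sub hg0i).norm
  calc ∫ p, |f p - g p| ≤ ∫ p, (‖f p - g0 p‖ + ε / 2) :=
        integral_mono (hf.sub hgi).abs (hni.add (integrable_const _)) hp
    _ = (∫ p, ‖f p - g0 p‖) + ε / 2 := by
        rw [integral_add hni (integrable_const _)]
        simp
    _ ≤ ε := by linarith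

private theorem densC_h4 {S : Set C(Td d × TT, ℝ)} (hS : Dense S) {f : Td d × TT → ℂ}
    (hf : Integrable f (volume : Measure (Td d × TT))) {ε : ℝ} (hε : 0 < ε) :
    ∃ g₁ ∈ S, ∃ g₂ ∈ S, ∫ p, ‖f p - ((g₁ p : ℂ) + (g₂ p : ℂ) * Complex.I)‖ ≤ ε := by
  obtain ⟨g₁, h1, h1'⟩ := dens_h4 hS hf.re (half_pos hε)
  obtain ⟨g₂, h2, h2'⟩ := dens_h4 hS hf.im (half_pos hε)
  refine ⟨g₁, h1, g₂, h2, ?_⟩
  have hg₁ : Integrable (fun p => g₁ p) (volume : Measure (Td d × TT)) :=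
    g₁.continuous.integrable_of_hasCompactSupport (HasCompactSupport.of_compactSpace _)
  have hg₂ : Integrable (fun p => g₂ p) (volume : Measure (Td d × TT)) :=
    g₂.continuous.integrable_of_hasCompactSupport (HasCompactSupport.of_compactSpace _)
  have hp : ∀ p, ‖f p - ((g₁ p : ℂ) + (g₂ p : ℂ) * Complex.I)‖ ≤
      |RCLike.re (f p) - g₁ p| + |RCLike.im (f p) - g₂ p| := by
    intro p
    refine (Complex.norm_le_abs_re_add_abs_im _).trans (le_of_eq ?_)
    simp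
  calc ∫ p, ‖f p - ((g₁ p : ℂ) + (g₂ p : ℂ) * Complex.I)‖
      ≤ ∫ p, (|RCLike.re (f p) - g₁ p| + |RCLike.im (f p) - g₂ p|) :=
        integral_mono (hf.sub (hg₁.ofReal.add (hg₂.ofReal.mul_const _))).norm
          ((hf.re.sub hg₁).abs.add (hf.im.sub hg₂).abs) hp
    _ = (∫ p, |RCLike.re (f p) - g₁ p|) + ∫ p, |RCLike.im (f p) - g₂ p| :=
        integral_add (hf.re.sub hg₁).abs (hf.im.sub hg₂).abs
    _ ≤ ε := by linarith

/-! ### bounded measurable functions -/

private theorem bm_int_h4 {f : Td d × TT → ℂ} (hf : Measurable f) {K : ℝ} (hK : ∀ p, ‖f p‖ ≤ K) :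
    Integrable f (volume : Measure (Td d × TT)) :=
  Integrable.mono' (integrable_const K) hf.aestronglyMeasurable (Filter.Eventually.of_forall hK)

private theorem it_h4 (hD : D.Ok) (ω : Om d) {ξ : ℂ} {h : Td d × TT → ℂ}
    (hF : ∀ᵐ p, h (Fr D ω p) = ξ * h p) (n : ℕ) :
    ∀ᵐ p : Td d × TT, h ((Fr D ω)^[n] p) = ξ ^ n * h p := by
  induction n with
  | zero => exact Filter.Eventually.of_forall fun p => by simp
  | succ n ih =>
    have h1 := ((Fr_mp hD ω).iterate n).quasiMeasurePreserving.ae hF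
    filter_upwards [h1, ih] with p a b
    rw [Function.iterate_succ_apply', a, b, pow_succ]
    ring

/-- correlations tend to zero: orthogonality -/
private theorem orth_h4 (hD : D.Ok) (ω : Om d) {S : Set C(Td d × TT, ℝ)} (hS : Dense S) {Ψ : Td d × TT → ℝ}
    (hΨ : Measurable Ψ) {M : ℝ} (hM : ∀ p, |Ψ p| ≤ M)
    (hc : ∀ g ∈ S, Tendsto (fun i : ℕ => ∫ p, g ((Fr D ω)^[2 ^ i] p) * Ψ p) atTop (𝓝 0))
    {ξ : ℂ} {h : Td d × TT → ℂ} (hξ : ‖ξ‖ = 1) (hh : Measurable h) {K : ℝ} (hK : ∀ p, ‖h p‖ ≤ K)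
    (hF : ∀ᵐ p, h (Fr D ω p) = ξ * h p) :
    ∫ p, h p * (Ψ p : ℂ) = 0 := by
  have hM0 : 0 ≤ M := (abs_nonneg _).trans (hM (Classical.arbitrary _))
  have hΨc : Measurable fun p => (Ψ p : ℂ) := Complex.measurable_ofReal.comp hΨ
  have hΨn : ∀ p, ‖(Ψ p : ℂ)‖ ≤ M := fun p => by
    rw [Complex.norm_real]; exact hM p
  have key : ∀ ε : ℝ, 0 < ε → ‖∫ p, h p * (Ψ p : ℂ)‖ ≤ M * ε := by
    intro ε hε
    obtain ⟨g₁, hg₁, g₂, hg₂, hg⟩ := densC_h4 hS (bm_int_h4 hh hK) hε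
    have hgm : Measurable fun p => ((g₁ p : ℂ) + (g₂ p : ℂ) * Complex.I) :=
      (Complex.measurable_ofReal.comp g₁.continuous.measurable).add
        ((Complex.measurable_ofReal.comp g₂.continuous.measurable).mul_const _)
    have hgb : ∀ p, ‖((g₁ p : ℂ) + (g₂ p : ℂ) * Complex.I)‖ ≤ ‖g₁‖ + ‖g₂‖ := by
      intro p
      refine (norm_add_le _ _).trans ?_
      rw [norm_mul, Complex.norm_I, mul_one, Complex.norm_real, Complex.norm_real]
      exact add_le_add (g₁.norm_coe_le_norm p) (g₂.norm_coe_le_norm p)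
    have hlim : Tendsto (fun i : ℕ => M * ε + (|∫ p, g₁ ((Fr D ω)^[2 ^ i] p) * Ψ p| +
        |∫ p, g₂ ((Fr D ω)^[2 ^ i] p) * Ψ p|)) atTop (𝓝 (M * ε)) := by
      have a1 := (hc g₁ hg₁).abs
      have a2 := (hc g₂ hg₂).abs
      have a3 := (a1.add a2).const_add (M * ε)
      simpa using a3
    refine ge_of_tendsto' hlim fun i => ?_
    set n := 2 ^ i with hn
    have hT := (Fr_mp hD ω).iterate n
    have hTm : Measurable ((Fr D ω)^[n]) := hT.measurable
    have i1 : Integrable (fun p => (h ((Fr D ω)^[n] p) - ((g₁ ((Fr D ω)^[n] p) : ℂ) +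
        (g₂ ((Fr D ω)^[n] p) : ℂ) * Complex.I)) * (Ψ p : ℂ)) (volume : Measure (Td d × TT)) := by
      refine bm_int_h4 (((hh.comp hTm).sub (hgm.comp hTm)).mul hΨc) (K := (K + (‖g₁‖ + ‖g₂‖)) * M) fun p => ?_
      rw [norm_mul]
      exact mul_le_mul ((norm_sub_le _ _).trans (add_le_add (hK _) (hgb _))) (hΨn p) (norm_nonneg _)
        (add_nonneg ((norm_nonneg _).trans (hK p)) (by positivity))
    have j1 : Integrable (fun p => g₁ ((Fr D ω)^[n] p) * Ψ p) (volume : Measure (Td d × TT)) := by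
      refine Integrable.mono' (integrable_const (‖g₁‖ * M))
        ((g₁.continuous.measurable.comp hTm).mul hΨ).aestronglyMeasurable
        (Filter.Eventually.of_forall fun p => ?_)
      rw [norm_mul]
      exact mul_le_mul (g₁.norm_coe_le_norm _) (hM p) (norm_nonneg _) (norm_nonneg _)
    have j2 : Integrable (fun p => g₂ ((Fr D ω)^[n] p) * Ψ p) (volume : Measure (Td d × TT)) := by
      refine Integrable.mono' (integrable_const (‖g₂‖ * M))
        ((g₂.continuous.measurable.comp hTm).mul hΨ).aestronglyMeasurable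
        (Filter.Eventually.of_forall fun p => ?_)
      rw [norm_mul]
      exact mul_le_mul (g₂.norm_coe_le_norm _) (hM p) (norm_nonneg _) (norm_nonneg _)
    have e1 : ξ ^ n * ∫ p, h p * (Ψ p : ℂ) = ∫ p, h ((Fr D ω)^[n] p) * (Ψ p : ℂ) := by
      rw [← integral_const_mul]
      refine integral_congr_ae ?_
      filter_upwards [it_h4 hD ω hF n] with p hp
      rw [hp, mul_assoc]
    have e2 : ∫ p, h ((Fr D ω)^[n] p) * (Ψ p : ℂ) =
        (∫ p, (h ((Fr D ω)^[n] p) - ((g₁ ((Fr D ω)^[n] p) : ℂ) +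
          (g₂ ((Fr D ω)^[n] p) : ℂ) * Complex.I)) * (Ψ p : ℂ)) +
        (((∫ p, g₁ ((Fr D ω)^[n] p) * Ψ p : ℝ) : ℂ) +
          ((∫ p, g₂ ((Fr D ω)^[n] p) * Ψ p : ℝ) : ℂ) * Complex.I) := by
      have j1c : Integrable (fun p => ((g₁ ((Fr D ω)^[n] p) * Ψ p : ℝ) : ℂ))
          (volume : Measure (Td d × TT)) := j1.ofReal
      have j2c : Integrable (fun p => ((g₂ ((Fr D ω)^[n] p) * Ψ p : ℝ) : ℂ) * Complex.I)
          (volume : Measure (Td d × TT)) := (j2.ofReal (𝕜 := ℂ)).mul_const _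
      have a1 : ((∫ p, g₁ ((Fr D ω)^[n] p) * Ψ p : ℝ) : ℂ) =
          ∫ p, ((g₁ ((Fr D ω)^[n] p) * Ψ p : ℝ) : ℂ) := integral_complex_ofReal.symm
      have a2 : ((∫ p, g₂ ((Fr D ω)^[n] p) * Ψ p : ℝ) : ℂ) * Complex.I =
          ∫ p, ((g₂ ((Fr D ω)^[n] p) * Ψ p : ℝ) : ℂ) * Complex.I := by
        rw [integral_mul_const, integral_complex_ofReal]
      have j3c : Integrable (fun p => ((g₁ ((Fr D ω)^[n] p) * Ψ p : ℝ) : ℂ) +
          ((g₂ ((Fr D ω)^[n] p) * Ψ p : ℝ) : ℂ) * Complex.I)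
          (volume : Measure (Td d × TT)) := j1c.add j2c
      rw [a1, a2, ← integral_add j1c j2c, ← integral_add i1 j3c]
      refine integral_congr_ae (Filter.Eventually.of_forall fun p => ?_)
      show h ((Fr D ω)^[n] p) * (Ψ p : ℂ) = (h ((Fr D ω)^[n] p) - ((g₁ ((Fr D ω)^[n] p) : ℂ) +
        (g₂ ((Fr D ω)^[n] p) : ℂ) * Complex.I)) * (Ψ p : ℂ) +
        (((g₁ ((Fr D ω)^[n] p) * Ψ p : ℝ) : ℂ) + ((g₂ ((Fr D ω)^[n] p) * Ψ p : ℝ) : ℂ) * Complex.I)
      push_cast
      ring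
    have e3 : ‖∫ p, h p * (Ψ p : ℂ)‖ = ‖∫ p, h ((Fr D ω)^[n] p) * (Ψ p : ℂ)‖ := by
      rw [← e1, norm_mul, norm_pow, hξ, one_pow, one_mul]
    rw [e3, e2]
    refine (norm_add_le _ _).trans (add_le_add ?_ ?_)
    · calc ‖∫ p, (h ((Fr D ω)^[n] p) - ((g₁ ((Fr D ω)^[n] p) : ℂ) +
            (g₂ ((Fr D ω)^[n] p) : ℂ) * Complex.I)) * (Ψ p : ℂ)‖
          ≤ ∫ p, ‖(h ((Fr D ω)^[n] p) - ((g₁ ((Fr D ω)^[n] p) : ℂ) +
            (g₂ ((Fr D ω)^[n] p) : ℂ) * Complex.I)) * (Ψ p : ℂ)‖ := norm_integral_le_integral_norm _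
        _ ≤ ∫ p, M * ‖h ((Fr D ω)^[n] p) - ((g₁ ((Fr D ω)^[n] p) : ℂ) +
            (g₂ ((Fr D ω)^[n] p) : ℂ) * Complex.I)‖ := by
            refine integral_mono i1.norm ((bm_int_h4 ((hh.comp hTm).sub (hgm.comp hTm))
              (K := K + (‖g₁‖ + ‖g₂‖)) fun p =>
                (norm_sub_le _ _).trans (add_le_add (hK _) (hgb _))).norm.const_mul M) fun p => ?_
            show ‖_ * _‖ ≤ M * _
            rw [norm_mul, mul_comm]
            exact mul_le_mul_of_nonneg_right (hΨn p) (norm_nonneg _)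
        _ = M * ∫ p, ‖h p - ((g₁ p : ℂ) + (g₂ p : ℂ) * Complex.I)‖ := by
            rw [integral_const_mul]
            congr 1
            have h5 : Measurable fun p => ‖h p - ((g₁ p : ℂ) + (g₂ p : ℂ) * Complex.I)‖ := (hh.sub hgm).norm
            have h6 := hT.map_eq
            calc ∫ p, ‖h ((Fr D ω)^[n] p) - ((g₁ ((Fr D ω)^[n] p) : ℂ) +
                  (g₂ ((Fr D ω)^[n] p) : ℂ) * Complex.I)‖
                = ∫ q, ‖h q - ((g₁ q : ℂ) + (g₂ q : ℂ) * Complex.I)‖ ∂(Measure.map ((Fr D ω)^[n]) volume) :=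
                  (integral_map hTm.aemeasurable h5.aestronglyMeasurable).symm
              _ = _ := by rw [h6]
        _ ≤ M * ε := mul_le_mul_of_nonneg_left hg hM0
    · refine (norm_add_le _ _).trans ?_
      rw [norm_mul, Complex.norm_I, mul_one, Complex.norm_real, Complex.norm_real]
      exact le_rfl
  by_contra hne
  have hpos : 0 < ‖∫ p, h p * (Ψ p : ℂ)‖ := norm_pos_iff.2 hne
  have h1 := key (‖∫ p, h p * (Ψ p : ℂ)‖ / (2 * (M + 1))) (by positivity)
  have h2 : M * (‖∫ p, h p * (Ψ p : ℂ)‖ / (2 * (M + 1))) ≤ ‖∫ p, h p * (Ψ p : ℂ)‖ / 2 := by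
    rw [mul_div_assoc', div_le_div_iff₀ (by positivity) (by norm_num)]
    nlinarith
  linarith

/-- the mean of a complex function on the fibres -/
private noncomputable def uu_h4 (h : Td d × TT → ℂ) (θ : Td d) : ℂ := ∫ z, h (θ, z)

private theorem uu_meas_h4 {h : Td d × TT → ℂ} (hh : Measurable h) : Measurable (uu_h4 h) :=
  (hh.stronglyMeasurable.integral_prod_right').measurable

private theorem uu_bd_h4 {h : Td d × TT → ℂ} {K : ℝ} (hK : ∀ p, ‖h p‖ ≤ K) (θ : Td d) : ‖uu_h4 h θ‖ ≤ K := by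
  unfold uu_h4
  refine (norm_integral_le_of_norm_le_const (C := K) (Filter.Eventually.of_forall fun z => hK (θ, z))).trans ?_
  simp

/-- the two means are exchanged -/
private theorem exch_h4 {h : Td d × TT → ℂ} (hh : Measurable h) {K : ℝ} (hK : ∀ p, ‖h p‖ ≤ K)
    {g : Td d × TT → ℝ} (hg : Measurable g) {M : ℝ} (hM : ∀ p, |g p| ≤ M) :
    ∫ p : Td d × TT, uu_h4 h p.1 * (g p : ℂ) = ∫ p : Td d × TT, h p * (av_h4 g p.1 : ℂ) := by
  have hgc : Measurable fun p => (g p : ℂ) := Complex.measurable_ofReal.comp hg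
  have i1 : Integrable (fun p : Td d × TT => uu_h4 h p.1 * (g p : ℂ)) (volume : Measure (Td d × TT)) := by
    refine bm_int_h4 (((uu_meas_h4 hh).comp measurable_fst).mul hgc) (K := K * M) fun p => ?_
    rw [norm_mul, Complex.norm_real]
    exact mul_le_mul (uu_bd_h4 hK _) (hM p) (norm_nonneg _) ((norm_nonneg _).trans (hK p))
  have i2 : Integrable (fun p : Td d × TT => h p * (av_h4 g p.1 : ℂ)) (volume : Measure (Td d × TT)) := by
    refine bm_int_h4 (hh.mul (Complex.measurable_ofReal.comp ((av_meas_h4 hg).comp measurable_fst)))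
      (K := K * M) fun p => ?_
    rw [norm_mul, Complex.norm_real]
    exact mul_le_mul (hK _) (av_bd_h4 hM _) (norm_nonneg _) ((norm_nonneg _).trans (hK p))
  rw [Measure.volume_eq_prod] at i1 i2 ⊢
  rw [integral_prod _ i1, integral_prod _ i2]
  refine integral_congr_ae (Filter.Eventually.of_forall fun θ => ?_)
  show ∫ z, uu_h4 h θ * (g (θ, z) : ℂ) = ∫ z, h (θ, z) * (av_h4 g θ : ℂ)
  rw [integral_const_mul, integral_mul_const, integral_complex_ofReal]
  rfl

theorem fibR (hD : D.Ok) (hb : D.b < d / 2) (hgap : ∀ K, ∃ η, 0 < η ∧ η ≤ 1 ∧ GapT K η)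
    (hα : ∀ τ : ℝ, 1 / (d : ℝ) < τ → ∃ c : ℝ, 0 < c ∧ ∀ k : ℕ, 1 ≤ k → c * (k : ℝ) ^ (-τ) ≤ ‖k • D.α‖) :
    ∀ᵐ ω ∂law d, ∀ (ξ : ℂ) (h : Td d × TT → ℂ), ‖ξ‖ = 1 → Measurable h → (∃ K : ℝ, ∀ p, ‖h p‖ ≤ K) →
      (∀ᵐ p, h (Fr D ω p) = ξ * h p) → ∃ u : Td d → ℂ, Measurable u ∧ ∀ᵐ p : Td d × TT, h p = u p.1 := by
  obtain ⟨S, hSc, hSd⟩ := TopologicalSpace.exists_countable_dense C(Td d × TT, ℝ)
  have hall : ∀ᵐ ω ∂law d, ∀ g' ∈ S, ∀ g ∈ S,
      Tendsto (fun i : ℕ => ∫ p, g ((Fr D ω)^[2 ^ i] p) * ps_h4 g' p) atTop (𝓝 0) := by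
    refine (ae_ball_iff hSc).2 fun g' _ => (ae_ball_iff hSc).2 fun g _ => ?_
    have hb' : ∀ p, |g' p| ≤ ‖g'‖ := fun p => g'.norm_coe_le_norm p
    refine corR hD hb hgap hα g.continuous.measurable (ps_meas_h4 g'.continuous.measurable)
      (K := ‖g‖ + 2 * ‖g'‖) (fun p => ?_) (fun p => ?_)
      (fun θ => ps_zero_h4 g'.continuous.measurable hb' θ)
    · have h1 : |g p| ≤ ‖g‖ := g.norm_coe_le_norm p
      have h2 := norm_nonneg g'
      linarith
    · have h1 := ps_bd_h4 hb' p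
      have h2 := norm_nonneg g
      linarith
  filter_upwards [hall] with ω hω
  rintro ξ h hξ hh ⟨K, hK⟩ hF
  refine ⟨uu_h4 h, uu_meas_h4 hh, ?_⟩
  have hK0 : 0 ≤ K := (norm_nonneg _).trans (hK (Classical.arbitrary _))
  have hkm : Measurable fun p : Td d × TT => h p - uu_h4 h p.1 := hh.sub ((uu_meas_h4 hh).comp measurable_fst)
  have hkb : ∀ p : Td d × TT, ‖h p - uu_h4 h p.1‖ ≤ 2 * K := fun p => by
    have h1 := norm_sub_le (h p) (uu_h4 h p.1)
    have h2 := hK p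
    have h3 := uu_bd_h4 hK p.1
    linarith
  have hki := bm_int_h4 hkm hkb
  -- orthogonal to the dense set
  have ho : ∀ g ∈ S, ∫ p : Td d × TT, (h p - uu_h4 h p.1) * (g p : ℂ) = 0 := by
    intro g hg
    have hb' : ∀ p, |g p| ≤ ‖g‖ := fun p => g.norm_coe_le_norm p
    have hgm : Measurable fun p => g p := g.continuous.measurable
    have hgc : Measurable fun p => (g p : ℂ) := Complex.measurable_ofReal.comp hgm
    have h1 := orth_h4 hD ω hSd (ps_meas_h4 hgm) (ps_bd_h4 hb') (hω g hg) hξ hh hK hF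
    have i1 : Integrable (fun p => h p * (g p : ℂ)) (volume : Measure (Td d × TT)) := by
      refine bm_int_h4 (hh.mul hgc) (K := K * ‖g‖) fun p => ?_
      rw [norm_mul, Complex.norm_real]
      exact mul_le_mul (hK _) (hb' p) (norm_nonneg _) hK0
    have i2 : Integrable (fun p : Td d × TT => h p * (av_h4 g p.1 : ℂ)) (volume : Measure (Td d × TT)) := by
      refine bm_int_h4 (hh.mul (Complex.measurable_ofReal.comp ((av_meas_h4 hgm).comp measurable_fst)))
        (K := K * ‖g‖) fun p => ?_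
      rw [norm_mul, Complex.norm_real]
      exact mul_le_mul (hK _) (av_bd_h4 hb' _) (norm_nonneg _) hK0
    have i3 : Integrable (fun p : Td d × TT => uu_h4 h p.1 * (g p : ℂ)) (volume : Measure (Td d × TT)) := by
      refine bm_int_h4 (((uu_meas_h4 hh).comp measurable_fst).mul hgc) (K := K * ‖g‖) fun p => ?_
      rw [norm_mul, Complex.norm_real]
      exact mul_le_mul (uu_bd_h4 hK _) (hb' p) (norm_nonneg _) hK0
    have e1 : ∫ p : Td d × TT, (h p - uu_h4 h p.1) * (g p : ℂ) =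
        (∫ p, h p * (g p : ℂ)) - ∫ p : Td d × TT, uu_h4 h p.1 * (g p : ℂ) := by
      rw [← integral_sub i1 i3]
      refine integral_congr_ae (Filter.Eventually.of_forall fun p => ?_)
      show (h p - uu_h4 h p.1) * (g p : ℂ) = h p * (g p : ℂ) - uu_h4 h p.1 * (g p : ℂ)
      ring
    have e2 : ∫ p, h p * (ps_h4 g p : ℂ) =
        (∫ p, h p * (g p : ℂ)) - ∫ p : Td d × TT, h p * (av_h4 g p.1 : ℂ) := by
      rw [← integral_sub i1 i2]
      refine integral_congr_ae (Filter.Eventually.of_forall fun p => ?_)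
      show h p * ((g p - av_h4 g p.1 : ℝ) : ℂ) = h p * (g p : ℂ) - h p * (av_h4 g p.1 : ℂ)
      push_cast
      ring
    rw [e1, exch_h4 hh hK hgm hb', ← e2, h1]
  -- the square is zero
  have hsq : ∫ p : Td d × TT, (h p - uu_h4 h p.1) * (starRingEnd ℂ) (h p - uu_h4 h p.1) = 0 := by
    have hcm : Measurable fun p : Td d × TT => (starRingEnd ℂ) (h p - uu_h4 h p.1) :=
      Complex.continuous_conj.measurable.comp hkm
    have hcb : ∀ p : Td d × TT, ‖(starRingEnd ℂ) (h p - uu_h4 h p.1)‖ ≤ 2 * K := fun p => by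
      rw [RCLike.norm_conj]; exact hkb p
    have key : ∀ ε : ℝ, 0 < ε →
        ‖∫ p : Td d × TT, (h p - uu_h4 h p.1) * (starRingEnd ℂ) (h p - uu_h4 h p.1)‖ ≤ 2 * K * ε := by
      intro ε hε
      obtain ⟨g₁, hg₁, g₂, hg₂, hg⟩ := densC_h4 hSd (bm_int_h4 hcm hcb) hε
      have hgm : Measurable fun p => ((g₁ p : ℂ) + (g₂ p : ℂ) * Complex.I) :=
        (Complex.measurable_ofReal.comp g₁.continuous.measurable).add
          ((Complex.measurable_ofReal.comp g₂.continuous.measurable).mul_const _)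
      have hgb : ∀ p, ‖((g₁ p : ℂ) + (g₂ p : ℂ) * Complex.I)‖ ≤ ‖g₁‖ + ‖g₂‖ := by
        intro p
        refine (norm_add_le _ _).trans ?_
        rw [norm_mul, Complex.norm_I, mul_one, Complex.norm_real, Complex.norm_real]
        exact add_le_add (g₁.norm_coe_le_norm p) (g₂.norm_coe_le_norm p)
      have k1 : ∀ g : C(Td d × TT, ℝ), Integrable (fun p : Td d × TT => (h p - uu_h4 h p.1) * (g p : ℂ))
          (volume : Measure (Td d × TT)) := fun g => by
        refine bm_int_h4 (hkm.mul (Complex.measurable_ofReal.comp g.continuous.measurable))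
          (K := 2 * K * ‖g‖) fun p => ?_
        rw [norm_mul, Complex.norm_real]
        exact mul_le_mul (hkb p) (g.norm_coe_le_norm p) (norm_nonneg _) (by positivity)
      have e0 : ∫ p : Td d × TT, (h p - uu_h4 h p.1) * ((g₁ p : ℂ) + (g₂ p : ℂ) * Complex.I) = 0 := by
        have e1 : ∫ p : Td d × TT, (h p - uu_h4 h p.1) * ((g₁ p : ℂ) + (g₂ p : ℂ) * Complex.I) =
            (∫ p : Td d × TT, (h p - uu_h4 h p.1) * (g₁ p : ℂ)) +
              (∫ p : Td d × TT, (h p - uu_h4 h p.1) * (g₂ p : ℂ)) * Complex.I := by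
          rw [← integral_mul_const, ← integral_add (k1 g₁) ((k1 g₂).mul_const _)]
          refine integral_congr_ae (Filter.Eventually.of_forall fun p => ?_)
          show (h p - uu_h4 h p.1) * ((g₁ p : ℂ) + (g₂ p : ℂ) * Complex.I) =
            (h p - uu_h4 h p.1) * (g₁ p : ℂ) + (h p - uu_h4 h p.1) * (g₂ p : ℂ) * Complex.I
          ring
        rw [e1, ho g₁ hg₁, ho g₂ hg₂, zero_mul, add_zero]
      have j1 : Integrable (fun p : Td d × TT => (h p - uu_h4 h p.1) *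
          ((starRingEnd ℂ) (h p - uu_h4 h p.1) - ((g₁ p : ℂ) + (g₂ p : ℂ) * Complex.I)))
          (volume : Measure (Td d × TT)) := by
        refine bm_int_h4 (hkm.mul (hcm.sub hgm)) (K := 2 * K * (2 * K + (‖g₁‖ + ‖g₂‖))) fun p => ?_
        rw [norm_mul]
        exact mul_le_mul (hkb p) ((norm_sub_le _ _).trans (add_le_add (hcb p) (hgb p))) (norm_nonneg _)
          (by positivity)
      have j2 : Integrable (fun p : Td d × TT => (h p - uu_h4 h p.1) *
          ((g₁ p : ℂ) + (g₂ p : ℂ) * Complex.I)) (volume : Measure (Td d × TT)) := by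
        refine bm_int_h4 (hkm.mul hgm) (K := 2 * K * (‖g₁‖ + ‖g₂‖)) fun p => ?_
        rw [norm_mul]
        exact mul_le_mul (hkb p) (hgb p) (norm_nonneg _) (by positivity)
      have e2 : ∫ p : Td d × TT, (h p - uu_h4 h p.1) * (starRingEnd ℂ) (h p - uu_h4 h p.1) =
          (∫ p : Td d × TT, (h p - uu_h4 h p.1) *
            ((starRingEnd ℂ) (h p - uu_h4 h p.1) - ((g₁ p : ℂ) + (g₂ p : ℂ) * Complex.I))) +
          ∫ p : Td d × TT, (h p - uu_h4 h p.1) * ((g₁ p : ℂ) + (g₂ p : ℂ) * Complex.I) := by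
        rw [← integral_add j1 j2]
        refine integral_congr_ae (Filter.Eventually.of_forall fun p => ?_)
        show (h p - uu_h4 h p.1) * (starRingEnd ℂ) (h p - uu_h4 h p.1) =
          (h p - uu_h4 h p.1) * ((starRingEnd ℂ) (h p - uu_h4 h p.1) -
            ((g₁ p : ℂ) + (g₂ p : ℂ) * Complex.I)) +
          (h p - uu_h4 h p.1) * ((g₁ p : ℂ) + (g₂ p : ℂ) * Complex.I)
        ring
      rw [e2, e0, add_zero]
      calc ‖∫ p : Td d × TT, (h p - uu_h4 h p.1) *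
            ((starRingEnd ℂ) (h p - uu_h4 h p.1) - ((g₁ p : ℂ) + (g₂ p : ℂ) * Complex.I))‖
          ≤ ∫ p : Td d × TT, ‖(h p - uu_h4 h p.1) *
            ((starRingEnd ℂ) (h p - uu_h4 h p.1) - ((g₁ p : ℂ) + (g₂ p : ℂ) * Complex.I))‖ :=
            norm_integral_le_integral_norm _
        _ ≤ ∫ p : Td d × TT, 2 * K *
            ‖(starRingEnd ℂ) (h p - uu_h4 h p.1) - ((g₁ p : ℂ) + (g₂ p : ℂ) * Complex.I)‖ := by
            refine integral_mono j1.norm ((bm_int_h4 (hcm.sub hgm)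
              (K := 2 * K + (‖g₁‖ + ‖g₂‖)) fun p =>
                (norm_sub_le _ _).trans (add_le_add (hcb p) (hgb p))).norm.const_mul (2 * K)) fun p => ?_
            show ‖_ * _‖ ≤ 2 * K * _
            rw [norm_mul]
            exact mul_le_mul_of_nonneg_right (hkb p) (norm_nonneg _)
        _ = 2 * K * ∫ p : Td d × TT,
            ‖(starRingEnd ℂ) (h p - uu_h4 h p.1) - ((g₁ p : ℂ) + (g₂ p : ℂ) * Complex.I)‖ :=
            integral_const_mul _ _
        _ ≤ 2 * K * ε := mul_le_mul_of_nonneg_left hg (by positivity)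
    by_contra hne
    have hpos := norm_pos_iff.2 hne
    set A := ‖∫ p : Td d × TT, (h p - uu_h4 h p.1) * (starRingEnd ℂ) (h p - uu_h4 h p.1)‖ with hA
    have h1 := key (A / (2 * (2 * K + 1))) (by positivity)
    have h2 : 2 * K * (A / (2 * (2 * K + 1))) ≤ A / 2 := by
      rw [mul_div_assoc', div_le_div_iff₀ (by positivity) (by norm_num)]
      nlinarith
    linarith
  have hreal : ∫ p : Td d × TT, ‖h p - uu_h4 h p.1‖ ^ 2 = 0 := by
    have h1 : ((∫ p : Td d × TT, ‖h p - uu_h4 h p.1‖ ^ 2 : ℝ) : ℂ) = 0 := by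
      rw [← hsq, ← integral_complex_ofReal]
      refine integral_congr_ae (Filter.Eventually.of_forall fun p => ?_)
      show ((‖h p - uu_h4 h p.1‖ ^ 2 : ℝ) : ℂ) =
        (h p - uu_h4 h p.1) * (starRingEnd ℂ) (h p - uu_h4 h p.1)
      rw [Complex.mul_conj, Complex.normSq_eq_norm_sq]
    exact_mod_cast h1
  have hsqi : Integrable (fun p : Td d × TT => ‖h p - uu_h4 h p.1‖ ^ 2) (volume : Measure (Td d × TT)) := by
    refine Integrable.mono' (integrable_const ((2 * K) ^ 2)) (hkm.norm.pow_const 2).aestronglyMeasurable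
      (Filter.Eventually.of_forall fun p => ?_)
    rw [Real.norm_eq_abs, abs_of_nonneg (sq_nonneg _)]
    exact pow_le_pow_left₀ (norm_nonneg _) (hkb p) 2
  have hz := (integral_eq_zero_iff_of_nonneg (fun p => sq_nonneg _) hsqi).1 hreal
  filter_upwards [hz] with p hp
  have h1 : ‖h p - uu_h4 h p.1‖ ^ 2 = 0 := hp
  have h2 : ‖h p - uu_h4 h p.1‖ = 0 := by
    rwa [pow_eq_zero_iff (two_ne_zero)] at h1
  exact sub_eq_zero.1 (norm_eq_zero.1 h2)

theorem ergR (hD : D.Ok) (hb : D.b < d / 2) (hgap : ∀ K, ∃ η, 0 < η ∧ η ≤ 1 ∧ GapT K η)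
    (hα : ∀ τ : ℝ, 1 / (d : ℝ) < τ → ∃ c : ℝ, 0 < c ∧ ∀ k : ℕ, 1 ≤ k → c * (k : ℝ) ^ (-τ) ≤ ‖k • D.α‖)
    (hR : Ergodic (fun θ : Td d => θ + D.α) volume) :
    ∀ᵐ ω ∂law d, Ergodic (Fr D ω) volume := by
  filter_upwards [fibR hD hb hgap hα] with ω hω
  refine ⟨Fr_mp hD ω, ⟨fun s hs hinv => ?_⟩⟩
  have hm : Measurable (s.indicator fun _ : Td d × TT => (1 : ℂ)) := measurable_const.indicator hs
  have hinv' : ∀ p, s.indicator (fun _ : Td d × TT => (1 : ℂ)) (Fr D ω p) =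
      1 * s.indicator (fun _ : Td d × TT => (1 : ℂ)) p := by
    intro p
    have h1 : Fr D ω p ∈ s ↔ p ∈ s := by
      rw [← mem_preimage, hinv]
    by_cases hp : p ∈ s
    · rw [indicator_of_mem hp, indicator_of_mem (h1.2 hp), one_mul]
    · rw [indicator_of_notMem hp, indicator_of_notMem (fun h => hp (h1.1 h)), mul_zero]
  obtain ⟨u, hum, hu⟩ := hω 1 (s.indicator fun _ => (1 : ℂ)) (by simp) hm
    ⟨1, fun p => by
      by_cases hp : p ∈ s
      · rw [indicator_of_mem hp]; simp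
      · rw [indicator_of_notMem hp]; simp⟩ (Filter.Eventually.of_forall hinv')
  have h1 := (Fr_mp hD ω).quasiMeasurePreserving.ae hu
  have h2 : ∀ᵐ p : Td d × TT, u (p.1 + D.α) = u p.1 := by
    filter_upwards [h1, hu] with p a b
    have c := hinv' p
    rw [one_mul] at c
    have e : (Fr D ω p).1 = p.1 + D.α := rfl
    rw [a, b, e] at c
    exact c
  have h3 : ∀ᵐ θ : Td d, u (θ + D.α) = u θ := by
    rw [Measure.volume_eq_prod] at h2
    have h4 := Measure.ae_ae_of_ae_prod h2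
    filter_upwards [h4] with θ hθ
    obtain ⟨z, hz⟩ := hθ.exists
    exact hz
  obtain ⟨c, hc⟩ := hR.ae_eq_const_of_ae_eq_comp_ae hum.aestronglyMeasurable h3
  have h5 : ∀ᵐ p : Td d × TT, u p.1 = c := by
    have h6 : Measure.QuasiMeasurePreserving (Prod.fst : Td d × TT → Td d) volume volume := by
      rw [Measure.volume_eq_prod]
      exact Measure.quasiMeasurePreserving_fst
    exact h6.ae hc
  rw [eventuallyConst_set]
  have h7 : ∀ᵐ p : Td d × TT, s.indicator (fun _ : Td d × TT => (1 : ℂ)) p = c := by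
    filter_upwards [hu, h5] with p a b
    rw [a, b]
  by_cases h1c : c = 1
  · left
    filter_upwards [h7] with p hp
    by_contra hps
    rw [indicator_of_notMem hps, h1c] at hp
    exact zero_ne_one hp
  · right
    filter_upwards [h7] with p hp
    intro hps
    rw [indicator_of_mem hps] at hp
    exact h1c hp.symm

end Pool.Agent.Helper46.QR
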