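import Mathlib

/-! Project QR (MP_9ee088_an): the definitions used in the final theorem. -/

set_option autoImplicit false
open MeasureTheory Real Set

namespace Pool.Agent.Helper46.QRO

variable {d : ℕ}

/-- the standard map `S_a(x, y) = (2 x - y + a sin (2 π x), x)` of the torus; `(fourier 1 x).im = sin (2 π x)` -/
noncomputable def std (a : ℝ) (z : UnitAddCircle × UnitAddCircle) : UnitAddCircle × UnitAddCircle :=
  (z.1 + z.1 - z.2 + ((a * (fourier 1 z.1 : ℂ).im : ℝ) : UnitAddCircle), z.1)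

/-- the skew product `(θ, z) ↦ (θ + α, S_(a(θ)) z)` of the torus of dimension `d + 2` -/
noncomputable def skew (α : Fin d → UnitAddCircle) (a : (Fin d → UnitAddCircle) → ℝ)
    (p : (Fin d → UnitAddCircle) × (UnitAddCircle × UnitAddCircle)) :
    (Fin d → UnitAddCircle) × (UnitAddCircle × UnitAddCircle) :=
  (p.1 + α, std (a p.1) p.2)

/-- the lift of the standard map to the plane -/
noncomputable def lift (a : ℝ) (z : ℝ × ℝ) : ℝ × ℝ := (2 * z.1 - z.2 + a * Real.sin (2 * π * z.1), z.1)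

/-- the lift to the plane of the `n`-th iterate of `skew α a` on the fibre of `θ` -/
noncomputable def liftn (α : Fin d → UnitAddCircle) (a : (Fin d → UnitAddCircle) → ℝ) (θ : Fin d → UnitAddCircle) :
    ℕ → ℝ × ℝ → ℝ × ℝ
  | 0 => id
  | n + 1 => fun z => lift (a (θ + n • α)) (liftn α a θ n z)

/-- the law of independent uniformly distributed points of the unit disc, indexed by level and cell -/
noncomputable def law (d : ℕ) : Measure (ℕ × (Fin d → ℕ) → ℂ) :=
  Measure.infinitePi fun _ => (ENNReal.ofReal π)⁻¹ • volume.restrict (Metric.closedBall (0 : ℂ) 1)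

/-- the coordinate `N (x - i / N)`, `x - i / N` taken modulo one in `[-1/2, 1/2]` -/
noncomputable def loc (N i : ℕ) (x : ℝ) : ℝ := N * ((x - i / N) - round (x - i / N))

/-- the real noise `∑ N ^ (- b) ∑_c re ω(l, c) ∏_m χ (N (x_m - c_m / N))`: sum over the levels `l`, `N = 2 ^ (l + 3)`, and over
the `N ^ d` cells `c` of level `l` of the torus `ℝ ^ d / ℤ ^ d` -/
noncomputable def noise (χ : ℝ → ℝ) (b : ℝ) (ω : ℕ × (Fin d → ℕ) → ℂ) (x : Fin d → ℝ) : ℝ :=
  ∑' l : ℕ, ((2 ^ (l + 3) : ℕ) : ℝ) ^ (-b) *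
    ∑ c ∈ Fintype.piFinset fun _ : Fin d => Finset.range (2 ^ (l + 3)),
      (ω (l, c)).re * ∏ m, χ (loc (2 ^ (l + 3)) (c m) (x m))

/-- the noise as a function on the torus -/
noncomputable def tnoise (χ : ℝ → ℝ) (b : ℝ) (ω : ℕ × (Fin d → ℕ) → ℂ) (θ : Fin d → UnitAddCircle) : ℝ :=
  noise χ b ω fun m => (AddCircle.equivIco (1 : ℝ) 0 (θ m) : ℝ)

end Pool.Agent.Helper46.QRO
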