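import Pool.Agent.Helper46.QR.Defs
import Pool.Agent.Helper46.QR.Out

/-! Project QR: the series of the noise. -/

set_option autoImplicit false
open MeasureTheory Real Set
open scoped ENNReal

namespace Pool.Agent.Helper46.QR

open Pool.Agent.Helper46
open Pool.Agent.Helper18.FD (NN rr)
open Pool.Agent.Helper95.PV (rp tc cel mv)
open Pool.Agent.Helper46.QP

variable {d : ℕ}

private theorem chi_bd46 {χ : ℝ → ℝ} (hχ : Continuous χ) (h0 : ∀ t, 1 ≤ |t| → χ t = 0) :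
    ∃ K : ℝ, 0 ≤ K ∧ ∀ t, |χ t| ≤ K := by
  obtain ⟨K, hK⟩ := (isCompact_Icc (a := (-1 : ℝ)) (b := 1)).exists_bound_of_continuousOn
    hχ.continuousOn
  refine ⟨max K 0, le_max_right _ _, fun t => ?_⟩
  by_cases ht : |t| ≤ 1
  · have h1 := hK t (abs_le.1 ht)
    rw [Real.norm_eq_abs] at h1
    exact h1.trans (le_max_left _ _)
  · rw [h0 t (not_le.1 ht).le, abs_zero]
    exact le_max_right _ _

private theorem nn4_46 (l : ℕ) : 4 ≤ NN l := by
  have := Pool.Agent.Helper18.FD.NN_ge l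
  have h : (4 : ℝ) ≤ (NN l : ℝ) := by linarith
  exact_mod_cast h

private theorem sum_cf46 {χ : ℝ → ℝ} (h0 : ∀ t, 1 ≤ |t| → χ t = 0) {K : ℝ} (hK : ∀ t, |χ t| ≤ K) (l : ℕ) (θ : Td d) :
    ∑ c ∈ Fintype.piFinset (fun _ : Fin d => Finset.range (NN l)), |cf χ l c θ| ≤ (2 * K) ^ d := by
  have h1 : ∀ c : Fin d → ℕ, |cf χ l c θ| = ∏ m, |χ (tc l (c m) (θ m))| := by
    intro c
    unfold cf
    rw [Finset.abs_prod]
  simp only [h1]
  rw [← Finset.prod_univ_sum (fun _ : Fin d => Finset.range (NN l)) (fun m i => |χ (tc l i (θ m))|)]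
  calc ∏ m : Fin d, ∑ i ∈ Finset.range (NN l), |χ (tc l i (θ m))| ≤ ∏ _m : Fin d, 2 * K := by
        refine Finset.prod_le_prod (fun m _ => Finset.sum_nonneg fun i _ => abs_nonneg _) fun m _ => ?_
        exact Pool.Agent.Helper18.FD.pr_sum (nn4_46 l) hK h0 (rp (θ m))
    _ = (2 * K) ^ d := by rw [Finset.prod_const, Finset.card_univ, Fintype.card_fin]

private theorem clip_le46 (w : ℂ) : ‖clip w‖ ≤ 1 := by
  unfold clip
  split_ifs with h
  · exact h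
  · simp

private theorem lvl_bd46 {χ : ℝ → ℝ} (h0 : ∀ t, 1 ≤ |t| → χ t = 0) {K : ℝ} (hK : ∀ t, |χ t| ≤ K) (ω : Om d) (l : ℕ)
    (θ : Td d) : ‖lvl χ ω l θ‖ ≤ (2 * K) ^ d := by
  unfold lvl
  refine (norm_sum_le _ _).trans (le_trans (Finset.sum_le_sum fun c _ => ?_) (sum_cf46 h0 hK l θ))
  rw [norm_mul, Complex.norm_real, Real.norm_eq_abs]
  exact mul_le_of_le_one_right (abs_nonneg _) (clip_le46 _)

private theorem summ46 {b : ℝ} (hb : 0 < b) : Summable fun l : ℕ => (NN l : ℝ) ^ (-b) := by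
  have h1 : ∀ l : ℕ, (NN l : ℝ) ^ (-b) = ((2 : ℝ) ^ (-b)) ^ 3 * ((2 : ℝ) ^ (-b)) ^ l := by
    intro l
    rw [← pow_add, add_comm 3 l]
    have h2 : (NN l : ℝ) = (2 : ℝ) ^ (l + 3) := by
      unfold Pool.Agent.Helper18.FD.NN
      push_cast
      rfl
    rw [h2, ← Real.rpow_natCast ((2 : ℝ) ^ (-b)), ← Real.rpow_mul (by norm_num), mul_comm,
      Real.rpow_mul (by norm_num), Real.rpow_natCast]
  simp only [h1]
  refine Summable.mul_left _ (summable_geometric_of_lt_one (by positivity) ?_)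
  exact Real.rpow_lt_one_of_one_lt_of_neg (by norm_num) (by linarith)

theorem nz_summable {χ : ℝ → ℝ} (hχ : Continuous χ) (h0 : ∀ t, 1 ≤ |t| → χ t = 0) {b : ℝ} (hb : 0 < b)
    (ω : Om d) (θ : Td d) : Summable fun l : ℕ => (((NN l : ℝ) ^ (-b) : ℝ) : ℂ) * lvl χ ω l θ := by
  obtain ⟨K, hK0, hK⟩ := chi_bd46 hχ h0
  refine Summable.of_norm_bounded ((summ46 hb).mul_right ((2 * K) ^ d)) fun l => ?_
  rw [norm_mul, Complex.norm_real, Real.norm_eq_abs, abs_of_nonneg (by positivity)]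
  exact mul_le_mul_of_nonneg_left (lvl_bd46 h0 hK ω l θ) (by positivity)

theorem nz_re {χ : ℝ → ℝ} (hχ : Continuous χ) (h0 : ∀ t, 1 ≤ |t| → χ t = 0) {b : ℝ} (hb : 0 < b)
    (ω : Om d) (θ : Td d) : (nz χ b ω θ).re = ∑' l : ℕ, (NN l : ℝ) ^ (-b) *
      ∑ c ∈ Fintype.piFinset fun _ : Fin d => Finset.range (NN l), (clip (ω (l, c))).re * cf χ l c θ := by
  unfold nz
  rw [Complex.re_tsum (nz_summable hχ h0 hb ω θ)]
  refine tsum_congr fun l => ?_
  rw [Complex.re_ofReal_mul]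
  congr 1
  unfold lvl
  rw [Complex.re_sum]
  refine Finset.sum_congr rfl fun c _ => ?_
  rw [Complex.re_ofReal_mul, mul_comm]

theorem clip_all : ∀ᵐ ω ∂law d, ∀ i : Ix d, clip (ω i) = ω i := by
  rw [ae_all_iff]
  intro i
  have h1 : MeasurePreserving (fun ω : Om d => ω i) (law d) dl :=
    measurePreserving_eval_infinitePi (fun _ : Ix d => dl) i
  exact h1.quasiMeasurePreserving.ae clip_ae

theorem loc_eq (l i : ℕ) (x : UnitAddCircle) : QRO.loc (2 ^ (l + 3)) i (AddCircle.equivIco (1 : ℝ) 0 x : ℝ) = tc l i x := by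
  unfold QRO.loc Pool.Agent.Helper95.PV.tc Pool.Agent.Helper18.FD.rr Pool.Agent.Helper95.PV.rp Pool.Agent.Helper18.FD.NN
  push_cast
  rfl

theorem loc_coe (l i : ℕ) (x : ℝ) : QRO.loc (2 ^ (l + 3)) i x = tc l i (x : UnitAddCircle) := by
  rw [Pool.Agent.Helper95.PV.tc_coe]
  unfold QRO.loc Pool.Agent.Helper18.FD.rr Pool.Agent.Helper18.FD.NN
  push_cast
  rfl

theorem tnoise_eq {χ : ℝ → ℝ} (hχ : Continuous χ) (h0 : ∀ t, 1 ≤ |t| → χ t = 0) {b : ℝ} (hb : 0 < b) {ω : Om d}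
    (h : ∀ i : Ix d, clip (ω i) = ω i) (θ : Td d) : QRO.tnoise χ b ω θ = (nz χ b ω θ).re := by
  rw [nz_re hχ h0 hb]
  unfold QRO.tnoise QRO.noise cf
  refine tsum_congr fun l => ?_
  simp only [loc_eq, h]
  rfl

theorem noise_eq {χ : ℝ → ℝ} (hχ : Continuous χ) (h0 : ∀ t, 1 ≤ |t| → χ t = 0) {b : ℝ} (hb : 0 < b) {ω : Om d}
    (h : ∀ i : Ix d, clip (ω i) = ω i) (x : Fin d → ℝ) :
    QRO.noise χ b ω x = (nz χ b ω fun m => (x m : UnitAddCircle)).re := by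
  rw [nz_re hχ h0 hb]
  unfold QRO.noise cf
  refine tsum_congr fun l => ?_
  simp only [loc_coe, h]
  rfl

end Pool.Agent.Helper46.QR
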