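import Pool.Agent.Helper46.QR.ErgR
import Pool.Agent.Helper46.QR.LyaR
import Pool.Agent.Helper46.QR.Ser
import Pool.Agent.Helper46.QP.Main

/-! Project QR: assembly. -/

set_option autoImplicit false
open MeasureTheory Real Set Filter Topology

namespace Pool.Agent.Helper46.QR

open Pool.Agent.Helper18.UC (nn nn_nonneg nn_mul)
open Pool.Agent.Helper18.FD (NN rr)
open Pool.Agent.Helper95.PV (rp tc cel mv)
open Pool.Agent.Helper46
open Pool.Agent.Helper46.QP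

variable {d : ℕ} {D : Dat d}

/-- all eigenfunctions are characters of the base -/
theorem eigR (hD : D.Ok) (hind : ∀ k : Fin d → ℤ, k ≠ 0 → ∑ m, k m • D.α m ≠ 0) {ω : Om d}
    (hfib : ∀ (ξ : ℂ) (h : Td d × TT → ℂ), ‖ξ‖ = 1 → Measurable h → (∃ K : ℝ, ∀ p, ‖h p‖ ≤ K) →
      (∀ᵐ p, h (Fr D ω p) = ξ * h p) → ∃ u : Td d → ℂ, Measurable u ∧ ∀ᵐ p : Td d × TT, h p = u p.1)
    (ξ : ℂ) (h : Td d × TT → ℂ) (hm : Measurable h) (hh : ∀ᵐ p, h (Fr D ω p) = ξ * h p) :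
    (∀ᵐ p, h p = 0) ∨ ∃ k : Fin d → ℤ, ∃ c : ℂ, fourier 1 (∑ m, k m • D.α m) = ξ ∧
      ∀ᵐ p : Td d × TT, h p = c * fourier 1 (∑ m, k m • p.1 m) := by
  rcases eig_mod (Fr_mp hD ω) hm hh with h0 | hξ
  · exact Or.inl h0
  set g : Td d × TT → ℂ := fun p => h p / ((1 + ‖h p‖ : ℝ) : ℂ) with hg
  have hgm : Measurable g := hm.div (Complex.measurable_ofReal.comp (measurable_const.add hm.norm))
  have hpos : ∀ p, (0 : ℝ) < 1 + ‖h p‖ := fun p => by have := norm_nonneg (h p); linarith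
  have hgn : ∀ p, ‖g p‖ = ‖h p‖ / (1 + ‖h p‖) := by
    intro p
    simp only [hg]
    rw [norm_div, Complex.norm_real, Real.norm_eq_abs, abs_of_pos (hpos p)]
  have hg1 : ∀ p, ‖g p‖ < 1 := by
    intro p
    rw [hgn, div_lt_one (hpos p)]
    linarith
  have hgi : ∀ p, h p = g p / ((1 - ‖g p‖ : ℝ) : ℂ) := by
    intro p
    have h1 : (1 - ‖g p‖ : ℝ) = 1 / (1 + ‖h p‖) := by
      rw [hgn]
      have := (hpos p).ne'
      field_simp
      ring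
    rw [h1]
    simp only [hg]
    have h2 : ((1 + ‖h p‖ : ℝ) : ℂ) ≠ 0 := by exact_mod_cast (hpos p).ne'
    push_cast at h2 ⊢
    field_simp
  have hgF : ∀ᵐ p, g (Fr D ω p) = ξ * g p := by
    filter_upwards [hh] with p hp
    simp only [hg]
    rw [hp, norm_mul, hξ, one_mul, mul_div_assoc]
  obtain ⟨u, hu, hgu⟩ := hfib ξ g hξ hgm ⟨1, fun p => (hg1 p).le⟩ hgF
  have hgu' : ∀ᵐ p : Td d × TT, g (Fr D ω p) = u (Fr D ω p).1 := (Fr_mp hD ω).quasiMeasurePreserving.ae hgu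
  have h1 : ∀ᵐ p : Td d × TT, u (p.1 + D.α) = ξ * u p.1 := by
    filter_upwards [hgF, hgu, hgu'] with p a1 a2 a3
    have a4 : (Fr D ω p).1 = p.1 + D.α := rfl
    rw [a4] at a3
    rw [← a3, a1, a2]
  have h2 : ∀ᵐ θ : Td d, u (θ + D.α) = ξ * u θ := by
    have h3 := Measure.ae_ae_of_ae_prod h1
    filter_upwards [h3] with θ hθ
    obtain ⟨z, hz⟩ := hθ.exists
    exact hz
  rcases Pool.Agent.Helper82.QP.rot_eig hind ξ u hu h2 with h3 | ⟨k, c, hk, hc⟩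
  · left
    have h4 : ∀ᵐ p : Td d × TT, u p.1 = 0 := Measure.quasiMeasurePreserving_fst.ae h3
    filter_upwards [hgu, h4] with p a1 a2
    rw [hgi, a1, a2, zero_div]
  · right
    refine ⟨k, c / ((1 - ‖c‖ : ℝ) : ℂ), hk, ?_⟩
    have h4 : ∀ᵐ p : Td d × TT, u p.1 = c * fourier 1 (∑ m, k m • p.1 m) := Measure.quasiMeasurePreserving_fst.ae hc
    filter_upwards [hgu, h4] with p a1 a2
    have h5 : ‖(fourier 1 (∑ m, k m • p.1 m) : ℂ)‖ = 1 := by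
      rw [fourier_apply]
      exact Circle.norm_coe _
    have h6 : ‖g p‖ = ‖c‖ := by rw [a1, a2, norm_mul, h5, mul_one]
    rw [hgi, h6, a1, a2]
    ring

theorem exponentR {ω : Om d} (hE : Ergodic (Fr D ω) volume)
    (hG : ∃ G : Td d × TT → ℝ, Measurable G ∧ (∀ᵐ p, 0 < G p) ∧
      ∀ᵐ p : Td d × TT, Tendsto (fun n : ℕ => Real.log (nn (Mx (Ar D ω p.1) p.2 n)) / n) atTop (𝓝 (G p))) :
    ∃ L : ℝ, 0 < L ∧ ∀ᵐ p : Td d × TT,
      Tendsto (fun n : ℕ => Real.log (nn (Mx (Ar D ω p.1) p.2 n)) / n) atTop (𝓝 L) := by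
  obtain ⟨G, hGm, hG0, hGl⟩ := hG
  have hinv : ∀ᵐ p : Td d × TT, G (Fr D ω p) = G p := by
    have h1 := hE.toMeasurePreserving.quasiMeasurePreserving.ae hGl
    filter_upwards [hGl, h1] with p a1 a2
    refine (lim_shift a1 ?_).symm
    have e1 : (fun j => Ar D ω p.1 (j + 1)) = Ar D ω (p.1 + D.α) := by
      rw [Ar_add, one_nsmul]
    have e2 : stp (Ar D ω p.1 0) p.2 = (Fr D ω p).2 := by
      unfold Fr
      rw [Ar_zero]
    rw [e1, e2]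
    exact a2
  obtain ⟨L, hL⟩ := hE.ae_eq_const_of_ae_eq_comp₀ hGm.nullMeasurable hinv
  have hL' : ∀ᵐ p : Td d × TT, G p = L := hL
  refine ⟨L, ?_, ?_⟩
  · obtain ⟨p, h1, h2⟩ := (hG0.and hL').exists
    rw [← h2]
    exact h1
  · filter_upwards [hGl, hL'] with p a1 a2
    rw [← a2]
    exact a1

/-! ### the final definitions -/

theorem std_eq (a : ℝ) (z : TT) : QRO.std a z = stp (a : ℂ) z := by
  unfold QRO.std stp ee
  rw [Complex.im_ofReal_mul]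

theorem lift_eq (a : ℝ) (z : ℝ × ℝ) : QRO.lift a z = Fl (a : ℂ) z := by
  unfold QRO.lift Fl
  have e : Complex.exp (2 * π * Complex.I * z.1) = Complex.exp (((2 * π * z.1 : ℝ) : ℂ) * Complex.I) := by
    congr 1
    push_cast
    ring
  rw [e, Complex.im_ofReal_mul, Complex.exp_ofReal_mul_I_im]

theorem liftn_eq (α : Td d) (a : Td d → ℝ) (θ : Td d) (n : ℕ) :
    QRO.liftn α a θ n = Fn (fun j => ((a (θ + j • α) : ℝ) : ℂ)) n := by
  induction n with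
  | zero => rfl
  | succ n ih =>
    funext z
    show QRO.lift (a (θ + n • α)) (QRO.liftn α a θ n z) =
      Fl ((a (θ + n • α) : ℝ) : ℂ) (Fn (fun j => ((a (θ + j • α) : ℝ) : ℂ)) n z)
    rw [ih, lift_eq]

theorem final (hgap : ∀ K, ∃ η, 0 < η ∧ η ≤ 1 ∧ GapT K η)
    (hgrow : ∀ (d : ℕ) (D : Dat d), D.Ok → ∃ C η, 0 < C ∧ 0 < η ∧ η ≤ 1 ∧ GrowR D C η)
    (d : ℕ) (hd : 1 ≤ d) (χ : ℝ → ℝ) (hχ : ∀ r : ℕ, ContDiff ℝ r χ)
    (hχ1 : ∀ t, |t| ≤ 1 / 2 → χ t = 1) (hχ0 : ∀ t, 1 ≤ |t| → χ t = 0) :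
    ∀ᵐ α : Fin d → UnitAddCircle, ∀ b : ℝ, 0 < b → b < d / 2 →
      ∀ a₀ : (Fin d → UnitAddCircle) → ℝ, Continuous a₀ → ∀ q : ℝ, 0 < q →
      ∀ᵐ ω ∂QRO.law d,
        (∀ r : ℕ, (r : ℝ) < b → ContDiff ℝ r (QRO.noise (d := d) χ b ω)) ∧
        Ergodic (QRO.skew α fun θ => a₀ θ + q * QRO.tnoise χ b ω θ) volume ∧
        (∀ (ξ : ℂ) (h : (Fin d → UnitAddCircle) × (UnitAddCircle × UnitAddCircle) → ℂ), Measurable h →
          (∀ᵐ p, h (QRO.skew α (fun θ => a₀ θ + q * QRO.tnoise χ b ω θ) p) = ξ * h p) →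
          (∀ᵐ p, h p = 0) ∨ ∃ k : Fin d → ℤ, ∃ c : ℂ, fourier 1 (∑ m, k m • α m) = ξ ∧
            ∀ᵐ p : (Fin d → UnitAddCircle) × (UnitAddCircle × UnitAddCircle),
              h p = c * fourier 1 (∑ m, k m • p.1 m)) ∧
        ∃ L : ℝ, 0 < L ∧ ∀ᵐ θ : Fin d → UnitAddCircle, ∀ᵐ z : ℝ × ℝ,
          Tendsto (fun n : ℕ => Real.log ‖fderiv ℝ (QRO.liftn α (fun θ => a₀ θ + q * QRO.tnoise χ b ω θ) θ n) z‖ / n)
            atTop (𝓝 L) := by
  have hd' : 0 < d := hd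
  filter_upwards [Pool.Agent.Helper82.QP.dio_ae hd', Pool.Agent.Helper82.QP.ind_ae] with α hα hind b hb0 hb a₀ ha q hq
  set D : Dat d := { α := α, A0 := fun θ => ((a₀ θ : ℝ) : ℂ), q := q, b := b, χ := χ } with hDdef
  have hc : Continuous χ := (hχ 0).continuous
  have hD : D.Ok := ⟨hd', Complex.continuous_ofReal.comp ha, hq, hb0, hc, hχ1, hχ0⟩
  have hR := Pool.Agent.Helper82.QP.rot_erg hind
  have hlaw : QRO.law d = law d := rfl
  rw [hlaw]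
  filter_upwards [clip_all, ergR hD hb hgap hα hR, fibR hD hb hgap hα, lyaR hD hb (hgrow d D hD) hα] with ω hcl hE hF hL
  have hAe : (fun θ => a₀ θ + q * QRO.tnoise χ b ω θ) = fun θ => (D.A ω θ).re := by
    funext θ
    rw [tnoise_eq hc hχ0 hb0 hcl]
    unfold Dat.A
    rw [Complex.add_re, Complex.ofReal_re, Complex.re_ofReal_mul]
  have hsk : QRO.skew α (fun θ => a₀ θ + q * QRO.tnoise χ b ω θ) = Fr D ω := by
    rw [hAe]
    funext p
    unfold QRO.skew Fr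
    rw [std_eq]
  rw [hsk, hAe]
  refine ⟨fun r hr => ?_, hE, fun ξ h hm hh => eigR hD hind hF ξ h hm hh, ?_⟩
  · have e : QRO.noise (d := d) χ b ω = fun x : Fin d → ℝ => (nz χ b ω fun m => (x m : UnitAddCircle)).re := by
      funext x
      exact noise_eq hc hχ0 hb0 hcl x
    rw [e]
    exact Complex.reCLM.contDiff.comp (nz_smooth (hχ r) hχ0 hr ω)
  · obtain ⟨L, hL0, hLl⟩ := exponentR hE hL
    refine ⟨L, hL0, ?_⟩
    have h1 := Measure.ae_ae_of_ae_prod hLl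
    filter_upwards [h1] with θ hθ
    filter_upwards [ae_tor hθ] with z hz
    rw [show (fun n : ℕ => Real.log ‖fderiv ℝ (QRO.liftn α (fun θ => (D.A ω θ).re) θ n) z‖ / n) =
      fun n : ℕ => Real.log ‖fderiv ℝ (Fn (Ar D ω θ) n) z‖ / n from ?_]
    · exact Fn_lim hz
    · funext n
      rw [liftn_eq]
      rfl

end Pool.Agent.Helper46.QR
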