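import Pool.Agent.Helper46.QR.Defs
import Pool.Agent.Helper46.QP.Pairs
import Pool.Agent.Helper82.QR.Stg

/-! Block QR-PAIRS: as QP-PAIRS (`QP/Pairs.lean`, complete) for the real noise. The gap is a hypothesis (`hgap`), it is proved in `Helper82/QR`.

`annQR`: as `annQ` in `QP/Ann.lean`: `ann2` with `st A z := sr A.re z` (`sr_eq`: `sr a z = stp (a : ℂ) z`) and `kk = 1`; `ch` is then `φ (orb (Ar D ω θ) z n)`, `ach` is `Qr sr s φ (arm D l ω θ) n z` because `(A 0 + s w).re = (A 0).re + s w.re`. -/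

set_option autoImplicit false
open MeasureTheory Real Set
open scoped ENNReal

namespace Pool.Agent.Helper46.QR

open Pool.Agent.Helper18.FD (NN rr)
open Pool.Agent.Helper46.QP
open Pool.Agent.Helper82.QR (sn cs sr vr Qr)

variable {d : ℕ} {D : Dat d}

/-- the gap on the torus for the amplitudes bounded by `K` -/
def GapT (K η : ℝ) : Prop := ∀ (f : TT → ℝ) (s : ℝ) (A : ℕ → ℝ) (n : ℕ), BM f → ∫ z, f z = 0 → 0 < s → s ≤ 1 →
  (∀ j, |A j| ≤ K) → ∫ z, Qr sr s f A n z ^ 2 ≤ (1 - η * s ^ 2) ^ (n / 3) * ∫ z, f z ^ 2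

/-! ### measurability -/

private theorem sr_meas63 : Measurable fun p : ℝ × TT => sr p.1 p.2 := by
  have h : (fun p : ℝ × TT => sr p.1 p.2) = fun p : ℝ × TT => stp (p.1 : ℂ) p.2 := by
    funext p
    exact Pool.Agent.Helper82.QR.sr_eq _ _
  rw [h]
  exact stp_meas.comp ((Complex.measurable_ofReal.comp measurable_fst).prodMk measurable_snd)

private theorem Ar_meas63 (hD : D.Ok) : Measurable fun p : Om d × Td d => Ar D p.1 p.2 := by
  refine measurable_pi_lambda _ fun j => ?_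
  have h := (measurable_pi_apply j).comp (As_meas hD)
  exact Complex.measurable_ofReal.comp (Complex.measurable_re.comp h)

private theorem arm_meas63 (hD : D.Ok) (l : ℕ) : Measurable fun p : Om d × Td d => arm D l p.1 p.2 := by
  refine measurable_pi_lambda _ fun j => ?_
  have h := (measurable_pi_apply j).comp (Ams_meas hD l)
  exact Complex.measurable_re.comp h

private theorem Ar_meas'63 (hD : D.Ok) (θ : Td d) : Measurable fun ω : Om d => Ar D ω θ := by
  have h0 : Measurable fun ω : Om d => ((ω, θ) : Om d × Td d) := measurable_id.prodMk measurable_const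
  have h := (Ar_meas63 hD).comp h0
  exact h

private theorem arm_meas'63 (hD : D.Ok) (l : ℕ) (θ : Td d) : Measurable fun ω : Om d => arm D l ω θ := by
  have h0 : Measurable fun ω : Om d => ((ω, θ) : Om d × Td d) := measurable_id.prodMk measurable_const
  have h := (arm_meas63 hD l).comp h0
  exact h

/-! ### the averaged operators -/

private theorem Qr_w63 {g : TT → ℝ} (hg : BM g) (s : ℝ) (n : ℕ) (A : ℕ → ℝ) (z : TT) (a : ℝ) :
    BM fun w : ℂ => Qr sr s g A n (sr (a + s * w.re) z) :=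
  (Pool.Agent.Helper82.QR.Qr_BM sr_meas63 hg s n).comp (measurable_const.prodMk (sr_meas63.comp
    ((measurable_const.add (measurable_const.mul Complex.measurable_re)).prodMk measurable_const)))

private theorem Qr_nonneg63 {g : TT → ℝ} (h0 : ∀ x, 0 ≤ g x) (s : ℝ) (n : ℕ) : ∀ (A : ℕ → ℝ) (z : TT),
    0 ≤ Qr sr s g A n z := by
  induction n with
  | zero => intro A z; exact h0 z
  | succ n ih => intro A z; exact integral_nonneg fun w => ih _ _

private theorem Qr_add63 {g : TT → ℝ} (hg : BM g) (s c : ℝ) (n : ℕ) : ∀ (A : ℕ → ℝ) (z : TT),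
    Qr sr s (fun x => g x + c) A n z = Qr sr s g A n z + c := by
  induction n with
  | zero => intro A z; rfl
  | succ n ih =>
    intro A z
    show (∫ w, Qr sr s (fun x => g x + c) (fun j => A (j + 1)) n (sr (A 0 + s * w.re) z) ∂dl) =
      (∫ w, Qr sr s g (fun j => A (j + 1)) n (sr (A 0 + s * w.re) z) ∂dl) + c
    simp only [ih]
    rw [integral_add ((Qr_w63 hg s n _ z (A 0)).int dl) (integrable_const c), integral_const,
      probReal_univ, one_smul]

private theorem Qr_one63 (s : ℝ) (n : ℕ) : ∀ (A : ℕ → ℝ) (z : TT), Qr sr s (fun _ => (1 : ℝ)) A n z = 1 := by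
  induction n with
  | zero => intro A z; rfl
  | succ n ih =>
    intro A z
    show (∫ w, Qr sr s (fun _ => (1 : ℝ)) (fun j => A (j + 1)) n (sr (A 0 + s * w.re) z) ∂dl) = 1
    simp only [ih]
    rw [integral_const, probReal_univ, one_smul]

/-! ### chains -/

private theorem ch_orb63 (g : TT → ℝ) (n : ℕ) : ∀ (A : ℕ → ℂ) (z : TT),
    ch (fun a z => sr a.re z) (fun _ _ => 1) (fun z => ENNReal.ofReal (g z)) A n z =
      ENNReal.ofReal (g (orb (fun j => (((A j).re : ℝ) : ℂ)) z n)) := by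
  induction n with
  | zero => intro A z; rfl
  | succ n ih =>
    intro A z
    show 1 * ch (fun a z => sr a.re z) (fun _ _ => 1) (fun z => ENNReal.ofReal (g z)) (fun j => A (j + 1)) n
      (sr (A 0).re z) = _
    rw [one_mul, ih, orb_one_add, Pool.Agent.Helper82.QR.sr_eq]

private theorem ach_Qr63 {g : TT → ℝ} (hg : BM g) (h0 : ∀ x, 0 ≤ g x) (s : ℝ) (n : ℕ) :
    ∀ (A : ℕ → ℂ) (z : TT),
    ach (fun a z => sr a.re z) (fun _ _ => 1) (fun z => ENNReal.ofReal (g z)) s A n z =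
      ENNReal.ofReal (Qr sr s g (fun j => (A j).re) n z) := by
  induction n with
  | zero => intro A z; rfl
  | succ n ih =>
    intro A z
    show (∫⁻ w, 1 * ach (fun a z => sr a.re z) (fun _ _ => 1) (fun z => ENNReal.ofReal (g z)) s
      (fun j => A (j + 1)) n (sr (A 0 + s * w).re z) ∂dl) =
        ENNReal.ofReal (∫ w, Qr sr s g (fun j => (A (j + 1)).re) n (sr ((A 0).re + s * w.re) z) ∂dl)
    simp only [one_mul, ih]
    rw [ofReal_integral_eq_lintegral_ofReal ((Qr_w63 hg s n _ z (A 0).re).int dl)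
      (Filter.Eventually.of_forall fun w => Qr_nonneg63 h0 s n _ _)]
    refine lintegral_congr fun w => ?_
    have e : (A 0 + s * w).re = (A 0).re + s * w.re := by
      rw [Complex.add_re, Complex.re_ofReal_mul]
    rw [e]

private theorem orb_BM63 (hD : D.Ok) {g : TT → ℝ} (hg : BM g) (θ : Td d) (z : TT) (n : ℕ) :
    BM fun ω : Om d => g (orb (Ar D ω θ) z n) :=
  hg.comp ((orb_meas n).comp ((Ar_meas'63 hD θ).prodMk measurable_const))

private theorem Qr_BM63 (hD : D.Ok) {g : TT → ℝ} (hg : BM g) (l : ℕ) (θ : Td d) (z : TT) (n : ℕ) :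
    BM fun ω : Om d => Qr sr (D.s l) g (arm D l ω θ) n z :=
  (Pool.Agent.Helper82.QR.Qr_BM sr_meas63 hg (D.s l) n).comp ((arm_meas'63 hD l θ).prodMk measurable_const)

private theorem annQR_pos63 (hD : D.Ok) {l n : ℕ} (hi : D.iso l n) {θ θ' : Td d} (hm : D.mut l n θ θ')
    {g g' : TT → ℝ} (hg : BM g) (hg' : BM g') (h0 : ∀ x, 0 ≤ g x) (h0' : ∀ x, 0 ≤ g' x) (z z' : TT) :
    ∫ ω, g (orb (Ar D ω θ) z n) * g' (orb (Ar D ω θ') z' n) ∂law d =
      ∫ ω, Qr sr (D.s l) g (arm D l ω θ) n z * Qr sr (D.s l) g' (arm D l ω θ') n z' ∂law d := by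
  rw [integral_eq_lintegral_of_nonneg_ae (Filter.Eventually.of_forall fun ω => mul_nonneg (h0 _) (h0' _))
      ((orb_BM63 hD hg θ z n).mul (orb_BM63 hD hg' θ' z' n)).1.aestronglyMeasurable,
    integral_eq_lintegral_of_nonneg_ae (Filter.Eventually.of_forall fun ω =>
        mul_nonneg (Qr_nonneg63 h0 _ _ _ _) (Qr_nonneg63 h0' _ _ _ _))
      ((Qr_BM63 hD hg l θ z n).mul (Qr_BM63 hD hg' l θ' z' n)).1.aestronglyMeasurable]
  congr 1
  have hst : Measurable fun p : ℂ × TT => (fun a z => sr a.re z : ℂ → TT → TT) p.1 p.2 :=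
    sr_meas63.comp ((Complex.measurable_re.comp measurable_fst).prodMk measurable_snd)
  have h1 := ann2 hD (st := fun a z => sr a.re z) hst (kk := fun _ _ => 1) measurable_const
    (φ := fun z => ENNReal.ofReal (g z)) (φ' := fun z => ENNReal.ofReal (g' z))
    (ENNReal.measurable_ofReal.comp hg.1) (ENNReal.measurable_ofReal.comp hg'.1) hi hm z z'
  simp only [ch_orb63, ach_Qr63 hg h0, ach_Qr63 hg' h0'] at h1
  calc ∫⁻ ω, ENNReal.ofReal (g (orb (Ar D ω θ) z n) * g' (orb (Ar D ω θ') z' n)) ∂law d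
      = ∫⁻ ω, ENNReal.ofReal (g (orb (Ar D ω θ) z n)) * ENNReal.ofReal (g' (orb (Ar D ω θ') z' n)) ∂law d :=
        lintegral_congr fun ω => ENNReal.ofReal_mul (h0 _)
    _ = _ := h1
    _ = ∫⁻ ω, ENNReal.ofReal (Qr sr (D.s l) g (arm D l ω θ) n z * Qr sr (D.s l) g' (arm D l ω θ') n z') ∂law d :=
        lintegral_congr fun ω => (ENNReal.ofReal_mul (Qr_nonneg63 h0 _ _ _ _)).symm

private theorem expand63 {X : Type*} [MeasurableSpace X] (μ : Measure X) [IsProbabilityMeasure μ] {a b : X → ℝ}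
    (ha : BM a) (hb : BM b) (K L : ℝ) :
    ∫ x, a x * b x ∂μ = ∫ x, (a x + K) * (b x + L) ∂μ - L * ∫ x, (a x + K) ∂μ - K * ∫ x, (b x + L) ∂μ + K * L := by
  have h1 := (ha.mul hb).int μ
  have h2 := ha.int μ
  have h3 := hb.int μ
  have e : ∀ x, (a x + K) * (b x + L) = a x * b x + L * a x + (K * b x + K * L) := fun x => by ring
  simp only [e]
  have j1 : Integrable (fun x => a x * b x + L * a x) μ := h1.add (h2.const_mul L)
  have j2 : Integrable (fun x => K * b x + K * L) μ := (h3.const_mul K).add (integrable_const _)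
  rw [integral_add j1 j2, integral_add h1 (h2.const_mul L),
    integral_add (h3.const_mul K) (integrable_const _),
    integral_add h2 (integrable_const _), integral_add h3 (integrable_const _),
    integral_const_mul, integral_const_mul]
  simp only [integral_const, probReal_univ, one_smul]
  ring

theorem annQR (hD : D.Ok) {l n : ℕ} (hi : D.iso l n) {θ θ' : Td d} (hm : D.mut l n θ θ')
    {f f' : TT → ℝ} (hf : BM f) (hf' : BM f') (z z' : TT) :
    ∫ ω, f (orb (Ar D ω θ) z n) * f' (orb (Ar D ω θ') z' n) ∂law d =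
      ∫ ω, Qr sr (D.s l) f (arm D l ω θ) n z * Qr sr (D.s l) f' (arm D l ω θ') n z' ∂law d := by
  obtain ⟨hfm, K, hK⟩ := id hf
  obtain ⟨hfm', K', hK'⟩ := id hf'
  have hg : BM fun x => f x + K := hf.add (BM.const K)
  have hg' : BM fun x => f' x + K' := hf'.add (BM.const K')
  have g0 : ∀ x, 0 ≤ f x + K := fun x => by linarith [(abs_le.1 (hK x)).1]
  have g0' : ∀ x, 0 ≤ f' x + K' := fun x => by linarith [(abs_le.1 (hK' x)).1]
  have h1 : BM fun _ : TT => (1 : ℝ) := BM.const 1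
  have E1 := annQR_pos63 hD hi hm hg hg' g0 g0' z z'
  have E2 := annQR_pos63 hD hi hm hg h1 g0 (fun _ => zero_le_one) z z'
  have E3 := annQR_pos63 hD hi hm h1 hg' (fun _ => zero_le_one) g0' z z'
  simp only [Qr_one63, mul_one, one_mul, Qr_add63 hf, Qr_add63 hf'] at E1 E2 E3
  rw [expand63 (law d) (orb_BM63 hD hf θ z n) (orb_BM63 hD hf' θ' z' n) K K',
    expand63 (law d) (Qr_BM63 hD hf l θ z n) (Qr_BM63 hD hf' l θ' z' n) K K', E1, E2, E3]

/-- the product of two parametric integrals -/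
private theorem two63 {X Y : Type*} [MeasurableSpace X] [MeasurableSpace Y] (μ : Measure X) (ν : Measure Y)
    [IsProbabilityMeasure μ] [IsProbabilityMeasure ν] {u v : X × Y → ℝ} (hu : BM u) (hv : BM v) :
    ∫ x, (∫ y, u (x, y) ∂ν) * (∫ y, v (x, y) ∂ν) ∂μ =
      ∫ q : Y × Y, (∫ x, u (x, q.1) * v (x, q.2) ∂μ) ∂(ν.prod ν) := by
  have h1 : ∀ x, (∫ y, u (x, y) ∂ν) * (∫ y, v (x, y) ∂ν) = ∫ q : Y × Y, u (x, q.1) * v (x, q.2) ∂(ν.prod ν) :=
    fun x => (integral_prod_mul (fun y => u (x, y)) (fun y => v (x, y))).symm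
  simp only [h1]
  apply integral_integral_swap
  have h2 : BM fun p : X × (Y × Y) => u (p.1, p.2.1) * v (p.1, p.2.2) :=
    (hu.comp (measurable_fst.prodMk (measurable_fst.comp measurable_snd))).mul
      (hv.comp (measurable_fst.prodMk (measurable_snd.comp measurable_snd)))
  exact h2.int _

private theorem Qr_sub63 {g : TT → ℝ} (hg : BM g) (s c : ℝ) (n : ℕ) (A : ℕ → ℝ) (z : TT) :
    Qr sr s (fun x => g x - c) A n z = Qr sr s g A n z - c := by
  have h := Qr_add63 hg s (-c) n A z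
  simpa only [← sub_eq_add_neg] using h

private theorem sq_int63 {X : Type*} [MeasurableSpace X] (μ : Measure X) [IsProbabilityMeasure μ] {h : X → ℝ}
    (hh : BM h) : (∫ x, h x ∂μ) ^ 2 ≤ ∫ x, h x ^ 2 ∂μ := by
  set m := ∫ x, h x ∂μ with hm
  have h0 : 0 ≤ ∫ x, (h x - m) ^ 2 ∂μ := integral_nonneg fun x => sq_nonneg _
  have e : ∀ x, (h x - m) ^ 2 = h x ^ 2 - 2 * m * h x + m ^ 2 := fun x => by ring
  simp only [e] at h0
  have j1 : Integrable (fun x => h x ^ 2 - 2 * m * h x) μ := (hh.sq.int μ).sub ((hh.int μ).const_mul _)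
  rw [integral_add j1 (integrable_const _), integral_sub (hh.sq.int μ) ((hh.int μ).const_mul _),
    integral_const_mul, integral_const, probReal_univ, one_smul, ← hm] at h0
  nlinarith

/-- one factor -/
private theorem fac63 {K₀ η : ℝ} (hη1 : η ≤ 1) (hgap : GapT K₀ η) {s : ℝ} (hs : 0 < s) (hs1 : s ≤ 1) {f ψ : TT → ℝ} (hf : BM f) (hψ : BM ψ) {K K' : ℝ}
    (hK : ∀ z, |f z| ≤ K) (hK' : ∀ z, |ψ z| ≤ K') (h0 : ∫ z, ψ z = 0) (A : ℕ → ℝ) (hA : ∀ j, |A j| ≤ K₀) (n : ℕ) :
    (∫ z, Qr sr s f A n z * ψ z) ^ 2 ≤ K ^ 2 * K' ^ 2 * (1 - η * s ^ 2) ^ (n / 3) := by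
  set m := ∫ z, f z with hm
  have hρ : 0 ≤ 1 - η * s ^ 2 := by
    have h1 : s ^ 2 ≤ 1 := pow_le_one₀ hs.le hs1
    nlinarith [sq_nonneg s]
  have hfm : BM fun z => f z - m := hf.sub (BM.const m)
  have hz : Measurable fun z : TT => ((A, z) : (ℕ → ℝ) × TT) := measurable_const.prodMk measurable_id
  have hQ : BM fun z => Qr sr s f A n z := (Pool.Agent.Helper82.QR.Qr_BM sr_meas63 hf s n).comp hz
  have hQm : BM fun z => Qr sr s (fun z => f z - m) A n z := (Pool.Agent.Helper82.QR.Qr_BM sr_meas63 hfm s n).comp hz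
  have hint0 : ∫ z, (f z - m) = 0 := by
    rw [integral_sub (hf.int _) (integrable_const _), integral_const, probReal_univ, one_smul, ← hm, sub_self]
  have e1 : ∫ z, Qr sr s f A n z * ψ z = ∫ z, Qr sr s (fun z => f z - m) A n z * ψ z := by
    have e2 : ∀ z, Qr sr s (fun z => f z - m) A n z * ψ z = Qr sr s f A n z * ψ z - m * ψ z := by
      intro z
      rw [Qr_sub63 hf]
      ring
    simp only [e2]
    rw [integral_sub ((hQ.mul hψ).int _) ((hψ.int _).const_mul m), integral_const_mul, h0, mul_zero, sub_zero]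
  rw [e1]
  refine (sq_int63 volume (hQm.mul hψ)).trans ?_
  have h1 : ∫ z, (Qr sr s (fun z => f z - m) A n z * ψ z) ^ 2 ≤ ∫ z, K' ^ 2 * Qr sr s (fun z => f z - m) A n z ^ 2 := by
    refine integral_mono ((hQm.mul hψ).sq.int _) ((hQm.sq.int _).const_mul _) fun z => ?_
    show (Qr sr s (fun z => f z - m) A n z * ψ z) ^ 2 ≤ K' ^ 2 * Qr sr s (fun z => f z - m) A n z ^ 2
    rw [mul_pow, mul_comm]
    refine mul_le_mul_of_nonneg_right ?_ (sq_nonneg _)
    rw [← sq_abs (ψ z)]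
    exact pow_le_pow_left₀ (abs_nonneg _) (hK' z) 2
  rw [integral_const_mul] at h1
  have h2 := hgap _ s A n hfm hint0 hs hs1 hA
  have h3 : ∫ z, (f z - m) ^ 2 ≤ K ^ 2 := by
    have e : ∀ z, (f z - m) ^ 2 = f z ^ 2 - 2 * m * f z + m ^ 2 := fun z => by ring
    simp only [e]
    have j1 : Integrable (fun z => f z ^ 2 - 2 * m * f z) (volume : Measure TT) :=
      (hf.sq.int _).sub ((hf.int _).const_mul _)
    rw [integral_add j1 (integrable_const _), integral_sub (hf.sq.int _) ((hf.int _).const_mul _),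
      integral_const_mul, integral_const, probReal_univ, one_smul, ← hm]
    have h4 : ∫ z, f z ^ 2 ≤ K ^ 2 := by
      calc ∫ z, f z ^ 2 ≤ ∫ _z : TT, K ^ 2 := by
            refine integral_mono (hf.sq.int _) (integrable_const _) fun z => ?_
            show f z ^ 2 ≤ K ^ 2
            rw [← sq_abs (f z)]
            exact pow_le_pow_left₀ (abs_nonneg _) (hK z) 2
        _ = K ^ 2 := by rw [integral_const, probReal_univ, one_smul]
    nlinarith [sq_nonneg m]
  calc ∫ z, (Qr sr s (fun z => f z - m) A n z * ψ z) ^ 2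
      ≤ K' ^ 2 * ∫ z, Qr sr s (fun z => f z - m) A n z ^ 2 := h1
    _ ≤ K' ^ 2 * ((1 - η * s ^ 2) ^ (n / 3) * K ^ 2) :=
        mul_le_mul_of_nonneg_left (h2.trans (mul_le_mul_of_nonneg_left h3 (pow_nonneg hρ _))) (sq_nonneg _)
    _ = _ := by ring

private theorem arm_le63 {K₀ : ℝ} (hK₀ : ∀ l ω θ, ‖D.Am l ω θ‖ ≤ K₀) (l : ℕ) (ω : Om d) (θ : Td d) (j : ℕ) :
    |arm D l ω θ j| ≤ K₀ :=
  (Complex.abs_re_le_norm _).trans (hK₀ l ω _)

theorem pairsR (hD : D.Ok) {K₀ η : ℝ} (hK₀ : ∀ l ω θ, ‖D.Am l ω θ‖ ≤ K₀) (hη : 0 < η) (hη1 : η ≤ 1)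
    (hgap : GapT K₀ η) {l n : ℕ} (hi : D.iso l n) (hs : D.s l ≤ 1) {G Ψ : Td d × TT → ℝ}
    (hG : Measurable G) (hΨ : Measurable Ψ) {K K' : ℝ} (hK : ∀ p, |G p| ≤ K) (hK' : ∀ p, |Ψ p| ≤ K')
    (h0 : ∀ θ, ∫ z, Ψ (θ, z) = 0) :
    ∫ ω, (∫ p, G ((Fr D ω)^[n] p) * Ψ p) ^ 2 ∂law d ≤
      K ^ 2 * K' ^ 2 * ((1 - η * D.s l ^ 2) ^ (n / 3) + 2 * n * (4 / (NN l : ℝ)) ^ d) := by
  have hN : (0 : ℝ) < NN l := by exact_mod_cast Pool.Agent.Helper18.FD.NN_pos l
  have hs0 : 0 < D.s l := mul_pos hD.hq (Real.rpow_pos_of_pos hN _)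
  set ρ : ℝ := (1 - η * D.s l ^ 2) ^ (n / 3) with hρdef
  have hρ : 0 ≤ ρ := pow_nonneg (by nlinarith) _
  have hGB : BM G := ⟨hG, K, hK⟩
  have hΨB : BM Ψ := ⟨hΨ, K', hK'⟩
  -- the integrand
  have hBm : Measurable fun p : (Om d × Td d) × TT =>
      ((p.1.2 + n • D.α, orb (Ar D p.1.1 p.1.2) p.2 n) : Td d × TT) := by
    have h1 : Measurable fun p : (Om d × Td d) × TT => ((Ar D p.1.1 p.1.2, p.2) : (ℕ → ℂ) × TT) :=
      ((Ar_meas63 hD).comp measurable_fst).prodMk measurable_snd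
    exact ((measurable_snd.comp measurable_fst).add_const _).prodMk ((orb_meas n).comp h1)
  set B : (Om d × Td d) × TT → ℝ := fun p =>
    G (p.1.2 + n • D.α, orb (Ar D p.1.1 p.1.2) p.2 n) * Ψ (p.1.2, p.2) with hB
  have hBB : BM B := (hGB.comp hBm).mul (hΨB.comp ((measurable_snd.comp measurable_fst).prodMk measurable_snd))
  set a : Om d × Td d → ℝ := fun p => ∫ z, B (p, z) with ha
  have haB : BM a := hBB.integral volume
  -- the correlation
  have e1 : ∀ ω, ∫ p, G ((Fr D ω)^[n] p) * Ψ p = ∫ θ, a (ω, θ) := by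
    intro ω
    have h1 : BM fun p : Td d × TT => B ((ω, p.1), p.2) :=
      hBB.comp ((measurable_const.prodMk measurable_fst).prodMk measurable_snd)
    have h2 : ∀ p : Td d × TT, G ((Fr D ω)^[n] p) * Ψ p = B ((ω, p.1), p.2) := by
      rintro ⟨θ, z⟩
      rw [Fr_iter]
    simp only [h2]
    rw [Measure.volume_eq_prod, integral_prod _ (h1.int _)]
  have e2 : ∫ ω, (∫ p, G ((Fr D ω)^[n] p) * Ψ p) ^ 2 ∂law d =
      ∫ q : Td d × Td d, (∫ ω, a (ω, q.1) * a (ω, q.2) ∂law d) := by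
    simp only [e1, sq]
    rw [two63 (law d) (volume : Measure (Td d)) haB haB, ← Measure.volume_eq_prod]
  -- the bounds
  have hab : ∀ p, |a p| ≤ K * K' := by
    intro p
    have h := norm_integral_le_of_norm_le_const (μ := (volume : Measure TT)) (f := fun z => B (p, z)) (C := K * K')
      (Filter.Eventually.of_forall fun z => by
        rw [Real.norm_eq_abs, hB]
        simp only
        rw [abs_mul]
        exact mul_le_mul (hK _) (hK' _) (abs_nonneg _) ((abs_nonneg _).trans (hK (p.2, z))))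
    simpa using h
  have hcB : BM fun q : Td d × Td d => ∫ ω, a (ω, q.1) * a (ω, q.2) ∂law d := by
    have h1 : BM fun p : (Td d × Td d) × Om d => a (p.2, p.1.1) * a (p.2, p.1.2) :=
      (haB.comp (measurable_snd.prodMk (measurable_fst.comp measurable_fst))).mul
        (haB.comp (measurable_snd.prodMk (measurable_snd.comp measurable_fst)))
    exact h1.integral (law d)
  have hall : ∀ q : Td d × Td d, ∫ ω, a (ω, q.1) * a (ω, q.2) ∂law d ≤ K ^ 2 * K' ^ 2 := by
    intro q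
    have h1 : BM fun ω : Om d => a (ω, q.1) * a (ω, q.2) :=
      (haB.comp (measurable_id.prodMk measurable_const)).mul (haB.comp (measurable_id.prodMk measurable_const))
    calc ∫ ω, a (ω, q.1) * a (ω, q.2) ∂law d ≤ ∫ _ω : Om d, K ^ 2 * K' ^ 2 ∂law d := by
          refine integral_mono (h1.int _) (integrable_const _) fun ω => ?_
          show a (ω, q.1) * a (ω, q.2) ≤ K ^ 2 * K' ^ 2
          have h2 := hab (ω, q.1)
          have h3 := hab (ω, q.2)
          calc a (ω, q.1) * a (ω, q.2) ≤ |a (ω, q.1) * a (ω, q.2)| := le_abs_self _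
            _ = |a (ω, q.1)| * |a (ω, q.2)| := abs_mul _ _
            _ ≤ (K * K') * (K * K') := mul_le_mul h2 h3 (abs_nonneg _) ((abs_nonneg _).trans h2)
            _ = K ^ 2 * K' ^ 2 := by ring
      _ = K ^ 2 * K' ^ 2 := by rw [integral_const, probReal_univ, one_smul]
  have hmut : ∀ q : Td d × Td d, D.mut l n q.1 q.2 →
      ∫ ω, a (ω, q.1) * a (ω, q.2) ∂law d ≤ K ^ 2 * K' ^ 2 * ρ := by
    rintro ⟨θ, θ'⟩ hm
    simp only
    set f : TT → ℝ := fun z => G (θ + n • D.α, z) with hf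
    set f' : TT → ℝ := fun z => G (θ' + n • D.α, z) with hf'
    set ψ : TT → ℝ := fun z => Ψ (θ, z) with hψ
    set ψ' : TT → ℝ := fun z => Ψ (θ', z) with hψ'
    have hpk : ∀ t : Td d, Measurable fun z : TT => ((t, z) : Td d × TT) := fun t =>
      measurable_const.prodMk measurable_id
    have hfB : BM f := hGB.comp (hpk _)
    have hfB' : BM f' := hGB.comp (hpk _)
    have hψB : BM ψ := hΨB.comp (hpk _)
    have hψB' : BM ψ' := hΨB.comp (hpk _)
    have hAs : ∀ t : Td d, Measurable fun p : Om d × TT => ((Ar D p.1 t, p.2) : (ℕ → ℂ) × TT) := fun t =>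
      ((Ar_meas63 hD).comp (measurable_fst.prodMk measurable_const)).prodMk measurable_snd
    have hAms : ∀ t : Td d, Measurable fun p : Om d × TT => ((arm D l p.1 t, p.2) : (ℕ → ℝ) × TT) := by
      intro t
      have h := (arm_meas63 hD l).comp (show Measurable fun p : Om d × TT => ((p.1, t) : Om d × Td d) from
        measurable_fst.prodMk measurable_const)
      simp only [Function.comp_def] at h
      exact h.prodMk measurable_snd
    have hu : ∀ {g φ : TT → ℝ} (t : Td d), BM g → BM φ →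
        BM fun p : Om d × TT => g (orb (Ar D p.1 t) p.2 n) * φ p.2 := fun t hg hφ =>
      (hg.comp ((orb_meas n).comp (hAs t))).mul (hφ.comp measurable_snd)
    have hv : ∀ {g φ : TT → ℝ} (t : Td d), BM g → BM φ →
        BM fun p : Om d × TT => Qr sr (D.s l) g (arm D l p.1 t) n p.2 * φ p.2 := fun t hg hφ =>
      ((Pool.Agent.Helper82.QR.Qr_BM sr_meas63 hg (D.s l) n).comp (hAms t)).mul (hφ.comp measurable_snd)
    have h1 : ∫ ω, a (ω, θ) * a (ω, θ') ∂law d =
        ∫ ω, (∫ z, Qr sr (D.s l) f (arm D l ω θ) n z * ψ z) * (∫ z, Qr sr (D.s l) f' (arm D l ω θ') n z * ψ' z) ∂law d := by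
      have j1 := two63 (law d) (volume : Measure TT) (hu θ hfB hψB) (hu θ' hfB' hψB')
      have j2 := two63 (law d) (volume : Measure TT) (hv θ hfB hψB) (hv θ' hfB' hψB')
      simp only at j1 j2
      have j3 : ∫ ω, a (ω, θ) * a (ω, θ') ∂law d =
          ∫ ω, (∫ z, f (orb (Ar D ω θ) z n) * ψ z) * (∫ z, f' (orb (Ar D ω θ') z n) * ψ' z) ∂law d := rfl
      rw [j3, j1, j2]
      refine integral_congr_ae (Filter.Eventually.of_forall fun q => ?_)
      simp only
      have k1 : ∀ ω, f (orb (Ar D ω θ) q.1 n) * ψ q.1 * (f' (orb (Ar D ω θ') q.2 n) * ψ' q.2) =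
          (ψ q.1 * ψ' q.2) * (f (orb (Ar D ω θ) q.1 n) * f' (orb (Ar D ω θ') q.2 n)) := fun ω => by ring
      have k2 : ∀ ω, Qr sr (D.s l) f (arm D l ω θ) n q.1 * ψ q.1 * (Qr sr (D.s l) f' (arm D l ω θ') n q.2 * ψ' q.2) =
          (ψ q.1 * ψ' q.2) * (Qr sr (D.s l) f (arm D l ω θ) n q.1 * Qr sr (D.s l) f' (arm D l ω θ') n q.2) :=
        fun ω => by ring
      simp only [k1, k2]
      rw [integral_const_mul, integral_const_mul, annQR hD hi hm hfB hfB']
    rw [h1]
    have hF1 : BM fun ω : Om d => ∫ z, Qr sr (D.s l) f (arm D l ω θ) n z * ψ z := (hv θ hfB hψB).integral volume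
    have hF2 : BM fun ω : Om d => ∫ z, Qr sr (D.s l) f' (arm D l ω θ') n z * ψ' z :=
      (hv θ' hfB' hψB').integral volume
    calc ∫ ω, (∫ z, Qr sr (D.s l) f (arm D l ω θ) n z * ψ z) *
          (∫ z, Qr sr (D.s l) f' (arm D l ω θ') n z * ψ' z) ∂law d
        ≤ ∫ _ω : Om d, K ^ 2 * K' ^ 2 * ρ ∂law d := by
          refine integral_mono ((hF1.mul hF2).int _) (integrable_const _) fun ω => ?_
          have g1 := fac63 hη1 hgap hs0 hs hfB hψB (fun z => hK _) (fun z => hK' _) (h0 θ) (arm D l ω θ)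
            (arm_le63 hK₀ l ω θ) n
          have g2 := fac63 hη1 hgap hs0 hs hfB' hψB' (fun z => hK _) (fun z => hK' _) (h0 θ') (arm D l ω θ')
            (arm_le63 hK₀ l ω θ') n
          show (∫ z, Qr sr (D.s l) f (arm D l ω θ) n z * ψ z) *
            (∫ z, Qr sr (D.s l) f' (arm D l ω θ') n z * ψ' z) ≤ K ^ 2 * K' ^ 2 * ρ
          nlinarith [sq_nonneg ((∫ z, Qr sr (D.s l) f (arm D l ω θ) n z * ψ z) -
            (∫ z, Qr sr (D.s l) f' (arm D l ω θ') n z * ψ' z))]
      _ = K ^ 2 * K' ^ 2 * ρ := by rw [integral_const, probReal_univ, one_smul]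
  -- integrate
  obtain ⟨hm1, hm2⟩ := mut_meas D l n
  have hmc : MeasurableSet {p : Td d × Td d | ¬ D.mut l n p.1 p.2} := hm1.compl
  rw [e2]
  have hfin : ∀ q : Td d × Td d, ∫ ω, a (ω, q.1) * a (ω, q.2) ∂law d ≤
      K ^ 2 * K' ^ 2 * ρ + K ^ 2 * K' ^ 2 *
        {p : Td d × Td d | ¬ D.mut l n p.1 p.2}.indicator (1 : Td d × Td d → ℝ) q := by
    intro q
    by_cases hq : D.mut l n q.1 q.2
    · have : q ∉ {p : Td d × Td d | ¬ D.mut l n p.1 p.2} := fun h => h hq
      rw [indicator_of_notMem this, mul_zero, add_zero]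
      exact hmut q hq
    · have : q ∈ {p : Td d × Td d | ¬ D.mut l n p.1 p.2} := hq
      rw [indicator_of_mem this, Pi.one_apply, mul_one]
      have := hall q
      have h3 : 0 ≤ K ^ 2 * K' ^ 2 * ρ := by positivity
      linarith
  have hind : Integrable ({p : Td d × Td d | ¬ D.mut l n p.1 p.2}.indicator (1 : Td d × Td d → ℝ))
      (volume : Measure (Td d × Td d)) := (integrable_const (1 : ℝ)).indicator hmc
  calc ∫ q : Td d × Td d, (∫ ω, a (ω, q.1) * a (ω, q.2) ∂law d)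
      ≤ ∫ q : Td d × Td d, (K ^ 2 * K' ^ 2 * ρ + K ^ 2 * K' ^ 2 *
          {p : Td d × Td d | ¬ D.mut l n p.1 p.2}.indicator (1 : Td d × Td d → ℝ) q) :=
        integral_mono (hcB.int _) ((integrable_const _).add (hind.const_mul _)) hfin
    _ = K ^ 2 * K' ^ 2 * ρ + K ^ 2 * K' ^ 2 *
          (volume : Measure (Td d × Td d)).real {p : Td d × Td d | ¬ D.mut l n p.1 p.2} := by
        rw [integral_add (integrable_const _) (hind.const_mul _), integral_const, probReal_univ, one_smul,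
          integral_const_mul, integral_indicator_one hmc]
    _ ≤ K ^ 2 * K' ^ 2 * ρ + K ^ 2 * K' ^ 2 * (2 * n * (4 / (NN l : ℝ)) ^ d) := by
        have := mul_le_mul_of_nonneg_left hm2 (by positivity : 0 ≤ K ^ 2 * K' ^ 2)
        linarith
    _ = _ := by ring

end Pool.Agent.Helper46.QR
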