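import Pool.Agent.Helper46.QR.Defs
import Pool.Agent.Helper46.QR.Tri

/-! Block QR-CORE: three steps with independent real noise spread the directions.

`re_le`: the density of the real part of `w` is `(2/π) √(1 - t²) ≤ 1` on `[-1, 1]` (compare `dl_im_ge` in `Helper46/QP/Gap1.lean`).
`core`: `z = (X0, Xm)` with `X0 = rp z.1`, `Xm = rp z.2` in `[0, 1)`, real lifts `X1 = 2 X0 - Xm + (A 0 + s w0.re) sin 2πX0`, `X2 = 2 X1 - X0 + (A 1 + s w1.re) sin 2πX1`, `X3 = 2 X2 - X1 + (A 2 + s w2.re) sin 2πX2`: `orb (am3 ..) z 1 = (X1, X0)`, `.. 2 = (X2, X1)`, `.. 3 = (X3, X2)` modulo one. `|X1|, |X2|, |X3| ≤ B := 8 K + 20`.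
On the event, with `C = 2π cos 2πX0 / sin 2πX0`, `A = 2π cos 2πX2 / sin 2πX2`, `κ0 = 2 X0 - Xm`, `κ1 = X0 + X2`, `κ2 = 2 X2 - X3`: `v0 = 2 + C (X1 - κ0)`, `v2 = 2 + A (X1 - κ2)`, `v1 = 2 + 2π (cos 2πX1 / sin 2πX1) (κ1 - 2 X1)`, and `sin 2πX1 * (q · K p) = tri p.1 p.2 q.1 q.2 A C κ0 κ1 κ2 X1`
(`q · K p = (q1 v2 + q2) (v1 l - p1) - q1 l`, `l = p1 v0 - p2`), `q = q (X3, X2)`. So the event is contained in `|tri ..| < ε` with `ρ ≤ |sin 2πX1|`, `ρ ≤ |sin 2πX2|`, `ρ ≤ |cos 2πX2|`.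
Change of variables, one after the other (`re_le`, affine substitutions `t ↦ c + s sin(..) t`, factor `1 / (s |sin ..|) ≤ 1 / (s ρ)`): the triple integral is at most `(s ρ)⁻³ ∫ X1, ∫ X2, ∫ X3 in [-B, B] of the indicator`; change the order, integrate first over `X1` (`tri_sub`): at most `(s ρ)⁻³ (2 B)² C₀ (ε / ρ⁴)^(1/8)`. -/

set_option autoImplicit false
open MeasureTheory Real Set
open scoped ENNReal

namespace Pool.Agent.Helper46.QR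

open Pool.Agent.Helper18.UC (nn)
open Pool.Agent.Helper95.PV (mv rp)
open Pool.Agent.Helper46.QP
open Pool.Agent.Helper82.QR (sn cs sr vr act)

/-- amplitudes of three steps with noise -/
noncomputable def am3 (A : ℕ → ℝ) (s : ℝ) (w0 w1 w2 : ℂ) (j : ℕ) : ℂ :=
  ((A j + s * (if j = 0 then w0 else if j = 1 then w1 else w2).re : ℝ) : ℂ)

/-- `q · v` -/
def dot2 (q v : ℝ × ℝ) : ℝ := q.1 * v.1 + q.2 * v.2

/-- the bad event -/
def bad3 (A : ℕ → ℝ) (s ρ ε : ℝ) (z : TT) (p : ℝ × ℝ) (q : TT → ℝ × ℝ) (w0 w1 w2 : ℂ) : Prop :=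
  ρ ≤ |sn (orb (am3 A s w0 w1 w2) z 1).1| ∧ ρ ≤ |sn (orb (am3 A s w0 w1 w2) z 2).1| ∧
  ρ ≤ |cs (orb (am3 A s w0 w1 w2) z 2).1| ∧
  |dot2 (q (orb (am3 A s w0 w1 w2) z 3)) (act (Mx (am3 A s w0 w1 w2) z 3) p)| < ε

theorem re_le {H : ℝ → ℝ≥0∞} (hH : Measurable H) : ∫⁻ w, H w.re ∂dl ≤ ∫⁻ t in Icc (-1 : ℝ) 1, H t := by
  have hb : Metric.closedBall (0 : ℂ) 1 ⊆ (Icc (-1 : ℝ) 1) ×ℂ (Icc (-1 : ℝ) 1) := by
    intro ζ hζ
    rw [mem_closedBall_zero_iff] at hζ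
    rw [Complex.mem_reProdIm]
    exact ⟨abs_le.1 ((Complex.abs_re_le_norm ζ).trans hζ), abs_le.1 ((Complex.abs_im_le_norm ζ).trans hζ)⟩
  have h1 : ∫⁻ w in Metric.closedBall (0 : ℂ) 1, H w.re ≤ ∫⁻ w in (Icc (-1 : ℝ) 1) ×ℂ (Icc (-1 : ℝ) 1), H w.re :=
    lintegral_mono_set hb
  have e1 : (Icc (-1 : ℝ) 1) ×ℂ (Icc (-1 : ℝ) 1) =
      Complex.measurableEquivRealProd ⁻¹' ((Icc (-1 : ℝ) 1) ×ˢ (Icc (-1 : ℝ) 1)) := by
    ext ζ
    simp only [Complex.mem_reProdIm, Complex.measurableEquivRealProd, mem_preimage, mem_prod]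
    rfl
  have e2 : ∫⁻ ζ in (Icc (-1 : ℝ) 1) ×ℂ (Icc (-1 : ℝ) 1), H ζ.re =
      ∫⁻ p in (Icc (-1 : ℝ) 1) ×ˢ (Icc (-1 : ℝ) 1), H p.1 := by
    rw [e1, ← Complex.volume_preserving_equiv_real_prod.setLIntegral_comp_preimage_emb
      Complex.measurableEquivRealProd.measurableEmbedding (fun p : ℝ × ℝ => H p.1)]
    rfl
  have e3 : ∫⁻ p in (Icc (-1 : ℝ) 1) ×ˢ (Icc (-1 : ℝ) 1), H p.1 = (∫⁻ t in Icc (-1 : ℝ) 1, H t) * 2 := by
    rw [Measure.volume_eq_prod, ← Measure.prod_restrict,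
      lintegral_prod (fun p : ℝ × ℝ => H p.1) (hH.comp measurable_fst).aemeasurable]
    have h2 : ∀ x : ℝ, ∫⁻ _ in Icc (-1 : ℝ) 1, H x = H x * 2 := by
      intro x
      rw [setLIntegral_const, Real.volume_Icc]
      congr 1
      norm_num
    rw [lintegral_congr h2, lintegral_mul_const _ hH]
  unfold dl
  rw [lintegral_smul_measure, smul_eq_mul]
  calc (ENNReal.ofReal π)⁻¹ * ∫⁻ w in Metric.closedBall (0 : ℂ) 1, H w.re
      ≤ (ENNReal.ofReal π)⁻¹ * ((∫⁻ t in Icc (-1 : ℝ) 1, H t) * 2) := by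
        rw [← e3, ← e2]
        gcongr
    _ = (∫⁻ t in Icc (-1 : ℝ) 1, H t) * (2 / ENNReal.ofReal π) := by
        rw [div_eq_mul_inv]
        ring
    _ ≤ (∫⁻ t in Icc (-1 : ℝ) 1, H t) * 1 := by
        gcongr
        apply ENNReal.div_le_of_le_mul
        rw [one_mul, ← ENNReal.ofReal_ofNat]
        exact ENNReal.ofReal_le_ofReal (by linarith [Real.pi_gt_three])
    _ = _ := mul_one _

theorem aff_le95 {h : ℝ → ℝ≥0∞} (hh : Measurable h) (c : ℝ) {σ : ℝ} (hσ : σ ≠ 0) :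
    ∫⁻ t in Icc (-1 : ℝ) 1, h (c + σ * t) ≤ ENNReal.ofReal |σ|⁻¹ * ∫⁻ x, h x := by
  refine (setLIntegral_le_lintegral _ _).trans (le_of_eq ?_)
  have h1 : ∫⁻ t, h (c + σ * t) = ∫⁻ x, h (c + x) ∂(Measure.map (σ * ·) volume) := by
    have hm : Measurable fun x : ℝ => h (c + x) := hh.comp (measurable_const.add measurable_id)
    rw [lintegral_map hm (measurable_const_mul σ)]
  rw [h1, Real.map_volume_mul_left hσ, lintegral_smul_measure, lintegral_add_left_eq_self h c, abs_inv, smul_eq_mul]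

/-- one change of variables -/
theorem stepI95 {h : ℝ → ℝ≥0∞} (hh : Measurable h) (c a : ℝ) {s S ρ : ℝ} (hs : 0 < s) (hρ : 0 < ρ) (hS : ρ ≤ |S|) :
    ∫⁻ w, h (c + (a + s * w.re) * S) ∂dl ≤ ENNReal.ofReal (s * ρ)⁻¹ * ∫⁻ x, h x := by
  have hS0 : s * S ≠ 0 := by
    have : S ≠ 0 := by
      intro h0
      rw [h0, abs_zero] at hS
      linarith
    exact mul_ne_zero hs.ne' this
  have hm : Measurable fun t : ℝ => h (c + a * S + s * S * t) :=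
    hh.comp (measurable_const.add (measurable_id.const_mul _))
  have h1 : ∀ w : ℂ, h (c + (a + s * w.re) * S) = (fun t : ℝ => h (c + a * S + s * S * t)) w.re := by
    intro w
    simp only
    congr 1
    ring
  rw [lintegral_congr h1]
  refine (re_le hm).trans ((aff_le95 hh _ hS0).trans ?_)
  gcongr
  rw [abs_mul, abs_of_pos hs]
  gcongr

/-- the amplitudes are bounded almost surely -/
theorem re_ae95 : ∀ᵐ w ∂dl, |w.re| ≤ 1 := by
  unfold dl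
  refine Measure.ae_smul_measure ?_ _
  filter_upwards [ae_restrict_mem (μ := (volume : Measure ℂ)) (Metric.isClosed_closedBall (x := (0 : ℂ)) (ε := 1)).measurableSet] with w hw
  rw [mem_closedBall_zero_iff] at hw
  exact (Complex.abs_re_le_norm w).trans hw

/-- one step in real coordinates -/
theorem stp_coe95 (a X Y : ℝ) : stp (a : ℂ) ((X : UnitAddCircle), (Y : UnitAddCircle)) =
    (((2 * X - Y + a * Real.sin (2 * π * X) : ℝ) : UnitAddCircle), (X : UnitAddCircle)) := by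
  rw [← Pool.Agent.Helper82.QR.sr_eq]
  unfold sr
  rw [Pool.Agent.Helper82.QR.sn_coe]
  refine Prod.ext ?_ rfl
  simp only
  rw [← AddCircle.coe_add, ← AddCircle.coe_sub, ← AddCircle.coe_add]
  congr 1
  ring

theorem va_coe95 (a X : ℝ) : va (a : ℂ) (X : UnitAddCircle) = 2 + 2 * π * a * Real.cos (2 * π * X) := by
  rw [← Pool.Agent.Helper82.QR.vr_eq]
  unfold vr
  rw [Pool.Agent.Helper82.QR.cs_coe]

theorem act_mv95 (v : ℝ) (w : ℝ × ℝ) : act (mv v) w = (v * w.1 - w.2, w.1) := by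
  unfold act mv
  refine Prod.ext ?_ ?_
  · simp
    ring
  · simp

/-- the lifts -/
noncomputable def L1 (A : ℕ → ℝ) (s X0 Xm t : ℝ) : ℝ := 2 * X0 - Xm + (A 0 + s * t) * Real.sin (2 * π * X0)
noncomputable def L2 (A : ℕ → ℝ) (s X0 x1 t : ℝ) : ℝ := 2 * x1 - X0 + (A 1 + s * t) * Real.sin (2 * π * x1)
noncomputable def L3 (A : ℕ → ℝ) (s x1 x2 t : ℝ) : ℝ := 2 * x2 - x1 + (A 2 + s * t) * Real.sin (2 * π * x2)

theorem orb1_95 (A : ℕ → ℝ) (s X0 Xm : ℝ) (w0 w1 w2 : ℂ) :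
    orb (am3 A s w0 w1 w2) ((X0 : UnitAddCircle), (Xm : UnitAddCircle)) 1 =
      ((L1 A s X0 Xm w0.re : UnitAddCircle), (X0 : UnitAddCircle)) := by
  show stp (am3 A s w0 w1 w2 0) ((X0 : UnitAddCircle), (Xm : UnitAddCircle)) = _
  have h : am3 A s w0 w1 w2 0 = ((A 0 + s * w0.re : ℝ) : ℂ) := by
    unfold am3
    simp
  rw [h, stp_coe95]
  rfl

theorem orb2_95 (A : ℕ → ℝ) (s X0 Xm : ℝ) (w0 w1 w2 : ℂ) :
    orb (am3 A s w0 w1 w2) ((X0 : UnitAddCircle), (Xm : UnitAddCircle)) 2 =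
      ((L2 A s X0 (L1 A s X0 Xm w0.re) w1.re : UnitAddCircle), (L1 A s X0 Xm w0.re : UnitAddCircle)) := by
  rw [orb_succ, orb1_95]
  have h : am3 A s w0 w1 w2 1 = ((A 1 + s * w1.re : ℝ) : ℂ) := by
    unfold am3
    simp
  rw [h, stp_coe95]
  rfl

theorem orb3_95 (A : ℕ → ℝ) (s X0 Xm : ℝ) (w0 w1 w2 : ℂ) :
    orb (am3 A s w0 w1 w2) ((X0 : UnitAddCircle), (Xm : UnitAddCircle)) 3 =
      ((L3 A s (L1 A s X0 Xm w0.re) (L2 A s X0 (L1 A s X0 Xm w0.re) w1.re) w2.re : UnitAddCircle),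
        (L2 A s X0 (L1 A s X0 Xm w0.re) w1.re : UnitAddCircle)) := by
  rw [orb_succ, orb2_95]
  have h : am3 A s w0 w1 w2 2 = ((A 2 + s * w2.re : ℝ) : ℂ) := by
    unfold am3
    simp
  rw [h, stp_coe95]
  rfl

/-- the image of `p` under the three matrices -/
theorem actK95 (A : ℕ → ℝ) (s X0 Xm : ℝ) (w0 w1 w2 : ℂ) (p : ℝ × ℝ) {x1 x2 v0 v1 v2 : ℝ}
    (h1 : x1 = L1 A s X0 Xm w0.re) (h2 : x2 = L2 A s X0 x1 w1.re)
    (hv0 : v0 = 2 + 2 * π * (A 0 + s * w0.re) * Real.cos (2 * π * X0))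
    (hv1 : v1 = 2 + 2 * π * (A 1 + s * w1.re) * Real.cos (2 * π * x1))
    (hv2 : v2 = 2 + 2 * π * (A 2 + s * w2.re) * Real.cos (2 * π * x2)) :
    act (Mx (am3 A s w0 w1 w2) ((X0 : UnitAddCircle), (Xm : UnitAddCircle)) 3) p =
      (v2 * (v1 * (v0 * p.1 - p.2) - p.1) - (v0 * p.1 - p.2), v1 * (v0 * p.1 - p.2) - p.1) := by
  have a0 : am3 A s w0 w1 w2 0 = ((A 0 + s * w0.re : ℝ) : ℂ) := by
    unfold am3
    simp
  have a1 : am3 A s w0 w1 w2 1 = ((A 1 + s * w1.re : ℝ) : ℂ) := by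
    unfold am3
    simp
  have a2 : am3 A s w0 w1 w2 2 = ((A 2 + s * w2.re : ℝ) : ℂ) := by
    unfold am3
    simp
  rw [Mx_succ, Mx_succ, Mx_succ, orb1_95, orb2_95, ← h1, ← h2, a0, a1, a2]
  rw [Pool.Agent.Helper82.QR.act_mul, Pool.Agent.Helper82.QR.act_mul, Pool.Agent.Helper82.QR.act_mul]
  have e : act (Mx (am3 A s w0 w1 w2) ((X0 : UnitAddCircle), (Xm : UnitAddCircle)) 0) p = p := by
    show act 1 p = p
    unfold act
    simp
  rw [e]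
  have e0 : (orb (am3 A s w0 w1 w2) ((X0 : UnitAddCircle), (Xm : UnitAddCircle)) 0).1 = (X0 : UnitAddCircle) := rfl
  rw [e0, va_coe95, va_coe95, va_coe95, ← hv0, ← hv1, ← hv2, act_mv95, act_mv95, act_mv95]

/-- the bad set in real coordinates -/
def Eb (B ρ ε X0 Xm : ℝ) (p : ℝ × ℝ) (q : TT → ℝ × ℝ) : Set (ℝ × ℝ × ℝ) :=
  {x | |x.1| ≤ B ∧ |x.2.1| ≤ B ∧ |x.2.2| ≤ B ∧ ρ ≤ |Real.sin (2 * π * x.1)| ∧ ρ ≤ |Real.sin (2 * π * x.2.1)| ∧
    ρ ≤ |Real.cos (2 * π * x.2.1)| ∧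
    |tri p.1 p.2 (q ((x.2.2 : UnitAddCircle), (x.2.1 : UnitAddCircle))).1 (q ((x.2.2 : UnitAddCircle), (x.2.1 : UnitAddCircle))).2
      (2 * π * Real.cos (2 * π * x.2.1) / Real.sin (2 * π * x.2.1)) (2 * π * Real.cos (2 * π * X0) / Real.sin (2 * π * X0))
      (2 * X0 - Xm) (X0 + x.2.1) (2 * x.2.1 - x.2.2) x.1| < ε}

theorem Eb_meas (B ρ ε X0 Xm : ℝ) (p : ℝ × ℝ) {q : TT → ℝ × ℝ} (hq : Measurable q) :
    MeasurableSet (Eb B ρ ε X0 Xm p q) := by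
  have m1 : Measurable fun x : ℝ × ℝ × ℝ => x.1 := measurable_fst
  have m2 : Measurable fun x : ℝ × ℝ × ℝ => x.2.1 := measurable_fst.comp measurable_snd
  have m3 : Measurable fun x : ℝ × ℝ × ℝ => x.2.2 := measurable_snd.comp measurable_snd
  have s1 : Measurable fun x : ℝ × ℝ × ℝ => Real.sin (2 * π * x.1) := Real.measurable_sin.comp (m1.const_mul _)
  have c1 : Measurable fun x : ℝ × ℝ × ℝ => Real.cos (2 * π * x.1) := Real.measurable_cos.comp (m1.const_mul _)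
  have s2 : Measurable fun x : ℝ × ℝ × ℝ => Real.sin (2 * π * x.2.1) := Real.measurable_sin.comp (m2.const_mul _)
  have c2 : Measurable fun x : ℝ × ℝ × ℝ => Real.cos (2 * π * x.2.1) := Real.measurable_cos.comp (m2.const_mul _)
  have mq : Measurable fun x : ℝ × ℝ × ℝ => q ((x.2.2 : UnitAddCircle), (x.2.1 : UnitAddCircle)) :=
    hq.comp ((meas_coe.comp m3).prodMk (meas_coe.comp m2))
  have q1 : Measurable fun x : ℝ × ℝ × ℝ => (q ((x.2.2 : UnitAddCircle), (x.2.1 : UnitAddCircle))).1 := measurable_fst.comp mq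
  have q2 : Measurable fun x : ℝ × ℝ × ℝ => (q ((x.2.2 : UnitAddCircle), (x.2.1 : UnitAddCircle))).2 := measurable_snd.comp mq
  have mt : Measurable fun x : ℝ × ℝ × ℝ => tri p.1 p.2 (q ((x.2.2 : UnitAddCircle), (x.2.1 : UnitAddCircle))).1
      (q ((x.2.2 : UnitAddCircle), (x.2.1 : UnitAddCircle))).2
      (2 * π * Real.cos (2 * π * x.2.1) / Real.sin (2 * π * x.2.1)) (2 * π * Real.cos (2 * π * X0) / Real.sin (2 * π * X0))
      (2 * X0 - Xm) (X0 + x.2.1) (2 * x.2.1 - x.2.2) x.1 := by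
    unfold tri
    fun_prop
  refine (measurableSet_le m1.norm measurable_const).inter ((measurableSet_le m2.norm measurable_const).inter
    ((measurableSet_le m3.norm measurable_const).inter ((measurableSet_le measurable_const s1.norm).inter
    ((measurableSet_le measurable_const s2.norm).inter ((measurableSet_le measurable_const c2.norm).inter
    (measurableSet_lt mt.norm measurable_const))))))

theorem mem_Eb {K B s ρ ε : ℝ} (hK : 0 ≤ K) (hB : B = 8 * K + 20) (hs : 0 < s) (hs1 : s ≤ 1) (hρ : 0 < ρ) {A : ℕ → ℝ}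
    (hA : ∀ j, |A j| ≤ K) {X0 Xm : ℝ} (hX0 : X0 ∈ Ico (0 : ℝ) 1) (hXm : Xm ∈ Ico (0 : ℝ) 1) {p : ℝ × ℝ} {q : TT → ℝ × ℝ}
    (h0 : ρ ≤ |Real.sin (2 * π * X0)|) {w0 w1 w2 : ℂ} (hw0 : |w0.re| ≤ 1) (hw1 : |w1.re| ≤ 1) (hw2 : |w2.re| ≤ 1)
    (hb : bad3 A s ρ ε ((X0 : UnitAddCircle), (Xm : UnitAddCircle)) p q w0 w1 w2) {x1 x2 x3 : ℝ}
    (h1 : x1 = L1 A s X0 Xm w0.re) (h2 : x2 = L2 A s X0 x1 w1.re) (h3 : x3 = L3 A s x1 x2 w2.re) :
    ((x1, x2, x3) : ℝ × ℝ × ℝ) ∈ Eb B ρ ε X0 Xm p q := by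
  obtain ⟨b1, b2, b3, b4⟩ := hb
  rw [orb1_95, ← h1, Pool.Agent.Helper82.QR.sn_coe] at b1
  rw [orb2_95, ← h1, ← h2, Pool.Agent.Helper82.QR.sn_coe] at b2
  rw [orb2_95, ← h1, ← h2, Pool.Agent.Helper82.QR.cs_coe] at b3
  rw [orb3_95, ← h1, ← h2, ← h3, actK95 A s X0 Xm w0 w1 w2 p h1 h2 rfl rfl rfl] at b4
  have ham : ∀ (j : ℕ) (w : ℂ) (S : ℝ), |w.re| ≤ 1 → |S| ≤ 1 → |(A j + s * w.re) * S| ≤ K + 1 := by
    intro j w S hw hS
    rw [abs_mul]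
    have e1 : |A j + s * w.re| ≤ K + 1 := by
      refine (abs_add_le _ _).trans (add_le_add (hA j) ?_)
      rw [abs_mul, abs_of_pos hs]
      exact mul_le_one₀ hs1 (abs_nonneg _) hw
    calc |A j + s * w.re| * |S| ≤ (K + 1) * 1 := mul_le_mul e1 hS (abs_nonneg _) (by linarith)
      _ = K + 1 := mul_one _
  have g0 := ham 0 w0 _ hw0 (Real.abs_sin_le_one (2 * π * X0))
  have g1 := ham 1 w1 _ hw1 (Real.abs_sin_le_one (2 * π * x1))
  have g2 := ham 2 w2 _ hw2 (Real.abs_sin_le_one (2 * π * x2))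
  obtain ⟨g0a, g0b⟩ := abs_le.1 g0
  obtain ⟨g1a, g1b⟩ := abs_le.1 g1
  obtain ⟨g2a, g2b⟩ := abs_le.1 g2
  unfold L1 at h1
  unfold L2 at h2
  unfold L3 at h3
  obtain ⟨u1, u2⟩ := hX0
  obtain ⟨u3, u4⟩ := hXm
  have k1 : |x1| ≤ K + 3 := abs_le.2 ⟨by linarith, by linarith⟩
  obtain ⟨k1a, k1b⟩ := abs_le.1 k1
  have k2 : |x2| ≤ 3 * K + 8 := abs_le.2 ⟨by linarith, by linarith⟩
  obtain ⟨k2a, k2b⟩ := abs_le.1 k2
  have k3 : |x3| ≤ 8 * K + 20 := abs_le.2 ⟨by linarith, by linarith⟩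
  refine ⟨by rw [hB]; linarith, by rw [hB]; linarith, by rw [hB]; exact k3, b1, b2, b3, ?_⟩
  have n0 : Real.sin (2 * π * X0) ≠ 0 := by
    intro h
    rw [h, abs_zero] at h0
    linarith
  have n1 : Real.sin (2 * π * x1) ≠ 0 := by
    intro h
    rw [h, abs_zero] at b1
    linarith
  have n2 : Real.sin (2 * π * x2) ≠ 0 := by
    intro h
    rw [h, abs_zero] at b2
    linarith
  refine lt_of_le_of_lt ?_ b4
  set Q := q ((x3 : UnitAddCircle), (x2 : UnitAddCircle)) with hQ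
  have e0 : A 0 + s * w0.re = (x1 - (2 * X0 - Xm)) / Real.sin (2 * π * X0) := by
    rw [eq_div_iff n0]
    linarith
  have e1 : A 1 + s * w1.re = (x2 - 2 * x1 + X0) / Real.sin (2 * π * x1) := by
    rw [eq_div_iff n1]
    linarith
  have e2 : A 2 + s * w2.re = (x1 - (2 * x2 - x3)) / Real.sin (2 * π * x2) := by
    rw [eq_div_iff n2]
    linarith
  simp only
  rw [e0, e1, e2]
  have key : tri p.1 p.2 Q.1 Q.2
      (2 * π * Real.cos (2 * π * x2) / Real.sin (2 * π * x2)) (2 * π * Real.cos (2 * π * X0) / Real.sin (2 * π * X0))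
      (2 * X0 - Xm) (X0 + x2) (2 * x2 - x3) x1 = Real.sin (2 * π * x1) *
      dot2 Q ((2 + 2 * π * ((x1 - (2 * x2 - x3)) / Real.sin (2 * π * x2)) * Real.cos (2 * π * x2)) *
        ((2 + 2 * π * ((x2 - 2 * x1 + X0) / Real.sin (2 * π * x1)) * Real.cos (2 * π * x1)) *
          ((2 + 2 * π * ((x1 - (2 * X0 - Xm)) / Real.sin (2 * π * X0)) * Real.cos (2 * π * X0)) * p.1 - p.2) - p.1) -
          ((2 + 2 * π * ((x1 - (2 * X0 - Xm)) / Real.sin (2 * π * X0)) * Real.cos (2 * π * X0)) * p.1 - p.2),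
        (2 + 2 * π * ((x2 - 2 * x1 + X0) / Real.sin (2 * π * x1)) * Real.cos (2 * π * x1)) *
          ((2 + 2 * π * ((x1 - (2 * X0 - Xm)) / Real.sin (2 * π * X0)) * Real.cos (2 * π * X0)) * p.1 - p.2) - p.1) := by
    unfold tri dot2
    simp only
    field_simp
    ring
  rw [key, abs_mul]
  calc _ ≤ 1 * _ := mul_le_mul_of_nonneg_right (Real.abs_sin_le_one _) (abs_nonneg _)
    _ = _ := one_mul _

/-- the triple integral in real coordinates -/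
theorem three95 {K B s ρ ε : ℝ} (hK : 0 ≤ K) (hB : B = 8 * K + 20) (hs : 0 < s) (hs1 : s ≤ 1) (hρ : 0 < ρ) {A : ℕ → ℝ}
    (hA : ∀ j, |A j| ≤ K) {X0 Xm : ℝ} (hX0 : X0 ∈ Ico (0 : ℝ) 1) (hXm : Xm ∈ Ico (0 : ℝ) 1) {p : ℝ × ℝ} {q : TT → ℝ × ℝ}
    (hq : Measurable q) (h0 : ρ ≤ |Real.sin (2 * π * X0)|) :
    ∫⁻ w0, ∫⁻ w1, ∫⁻ w2, {w : ℂ | bad3 A s ρ ε ((X0 : UnitAddCircle), (Xm : UnitAddCircle)) p q w0 w1 w}.indicator 1 w2
        ∂dl ∂dl ∂dl ≤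
      ENNReal.ofReal (s * ρ)⁻¹ ^ 3 * ∫⁻ x1 : ℝ, ∫⁻ x2 : ℝ, ∫⁻ x3 : ℝ, (Eb B ρ ε X0 Xm p q).indicator 1 (x1, x2, x3) := by
  obtain ⟨c, hc⟩ : ∃ c, c = ENNReal.ofReal (s * ρ)⁻¹ := ⟨_, rfl⟩
  obtain ⟨g, hg⟩ : ∃ g : ℝ × ℝ × ℝ → ℝ≥0∞, g = (Eb B ρ ε X0 Xm p q).indicator 1 := ⟨_, rfl⟩
  have hgm : Measurable g := by
    rw [hg]
    exact measurable_one.indicator (Eb_meas B ρ ε X0 Xm p hq)
  rw [← hc, ← hg]
  have hzero : ∀ {x1 x2 x3 : ℝ}, ¬ (ρ ≤ |Real.sin (2 * π * x1)| ∧ ρ ≤ |Real.sin (2 * π * x2)|) → g (x1, x2, x3) = 0 := by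
    intro x1 x2 x3 h
    rw [hg]
    apply indicator_of_notMem
    intro hmem
    exact h ⟨hmem.2.2.2.1, hmem.2.2.2.2.1⟩
  have m3 : ∀ x1 x2, Measurable fun x3 : ℝ => g (x1, x2, x3) := fun x1 x2 =>
    hgm.comp (measurable_const.prodMk (measurable_const.prodMk measurable_id))
  have hG2 : Measurable fun r : ℝ × ℝ => ∫⁻ x3 : ℝ, g (r.1, r.2, x3) := by
    have h1 : Measurable fun r : (ℝ × ℝ) × ℝ => g (r.1.1, r.1.2, r.2) :=
      hgm.comp ((measurable_fst.comp measurable_fst).prodMk ((measurable_snd.comp measurable_fst).prodMk measurable_snd))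
    exact h1.lintegral_prod_right'
  have m2 : ∀ x1, Measurable fun x2 : ℝ => ∫⁻ x3 : ℝ, g (x1, x2, x3) := fun x1 =>
    hG2.comp (measurable_const.prodMk measurable_id)
  have m1 : Measurable fun x1 : ℝ => ∫⁻ x2 : ℝ, ∫⁻ x3 : ℝ, g (x1, x2, x3) := hG2.lintegral_prod_right'
  -- the third variable
  have s3 : ∀ {w0 w1 : ℂ}, |w0.re| ≤ 1 → |w1.re| ≤ 1 →
      ∫⁻ w2, {w : ℂ | bad3 A s ρ ε ((X0 : UnitAddCircle), (Xm : UnitAddCircle)) p q w0 w1 w}.indicator 1 w2 ∂dl ≤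
        c * ∫⁻ x3 : ℝ, g (L1 A s X0 Xm w0.re, L2 A s X0 (L1 A s X0 Xm w0.re) w1.re, x3) := by
    intro w0 w1 hw0 hw1
    obtain ⟨x1, hx1⟩ : ∃ x1, x1 = L1 A s X0 Xm w0.re := ⟨_, rfl⟩
    obtain ⟨x2, hx2⟩ : ∃ x2, x2 = L2 A s X0 x1 w1.re := ⟨_, rfl⟩
    rw [← hx1, ← hx2]
    by_cases hS : ρ ≤ |Real.sin (2 * π * x2)|
    · have h1 : ∫⁻ w2, {w : ℂ | bad3 A s ρ ε ((X0 : UnitAddCircle), (Xm : UnitAddCircle)) p q w0 w1 w}.indicator 1 w2 ∂dl ≤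
          ∫⁻ w2, (fun x3 => g (x1, x2, x3)) ((2 * x2 - x1) + (A 2 + s * w2.re) * Real.sin (2 * π * x2)) ∂dl := by
        refine lintegral_mono_ae ?_
        filter_upwards [re_ae95] with w2 hw2
        by_cases hb : bad3 A s ρ ε ((X0 : UnitAddCircle), (Xm : UnitAddCircle)) p q w0 w1 w2
        · rw [indicator_of_mem (show w2 ∈ {w : ℂ | bad3 A s ρ ε ((X0 : UnitAddCircle), (Xm : UnitAddCircle)) p q w0 w1 w} from hb)]
          have h2 := mem_Eb hK hB hs hs1 hρ hA hX0 hXm h0 hw0 hw1 hw2 hb hx1 hx2 (x3 := L3 A s x1 x2 w2.re) rfl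
          rw [hg, indicator_of_mem (by exact h2)]
          exact le_rfl
        · rw [indicator_of_notMem (show w2 ∉ {w : ℂ | bad3 A s ρ ε ((X0 : UnitAddCircle), (Xm : UnitAddCircle)) p q w0 w1 w} from hb)]
          exact zero_le
      refine h1.trans ?_
      rw [hc]
      exact stepI95 (m3 x1 x2) _ _ hs hρ hS
    · have h1 : ∫⁻ w2, {w : ℂ | bad3 A s ρ ε ((X0 : UnitAddCircle), (Xm : UnitAddCircle)) p q w0 w1 w}.indicator 1 w2 ∂dl = 0 := by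
        rw [← lintegral_zero (μ := dl)]
        refine lintegral_congr fun w2 => ?_
        apply indicator_of_notMem
        rintro ⟨-, b2, -, -⟩
        rw [orb2_95, ← hx1, ← hx2, Pool.Agent.Helper82.QR.sn_coe] at b2
        exact hS b2
      rw [h1]
      exact zero_le
  -- the second variable
  have s2 : ∀ {w0 : ℂ}, |w0.re| ≤ 1 →
      ∫⁻ w1, ∫⁻ w2, {w : ℂ | bad3 A s ρ ε ((X0 : UnitAddCircle), (Xm : UnitAddCircle)) p q w0 w1 w}.indicator 1 w2 ∂dl ∂dl ≤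
        c ^ 2 * ∫⁻ x2 : ℝ, ∫⁻ x3 : ℝ, g (L1 A s X0 Xm w0.re, x2, x3) := by
    intro w0 hw0
    obtain ⟨x1, hx1⟩ : ∃ x1, x1 = L1 A s X0 Xm w0.re := ⟨_, rfl⟩
    have h1 : ∫⁻ w1, ∫⁻ w2, {w : ℂ | bad3 A s ρ ε ((X0 : UnitAddCircle), (Xm : UnitAddCircle)) p q w0 w1 w}.indicator 1 w2 ∂dl ∂dl ≤
        ∫⁻ w1, c * (fun x2 => ∫⁻ x3 : ℝ, g (x1, x2, x3)) ((2 * x1 - X0) + (A 1 + s * w1.re) * Real.sin (2 * π * x1)) ∂dl := by
      refine lintegral_mono_ae ?_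
      filter_upwards [re_ae95] with w1 hw1
      have h2 := s3 hw0 hw1
      rw [← hx1] at h2
      exact h2
    rw [← hx1]
    refine h1.trans ?_
    have hmw : Measurable fun w1 : ℂ => (fun x2 => ∫⁻ x3 : ℝ, g (x1, x2, x3)) ((2 * x1 - X0) + (A 1 + s * w1.re) * Real.sin (2 * π * x1)) := by
      refine (m2 x1).comp ?_
      exact measurable_const.add (((Complex.measurable_re.const_mul s).const_add _).mul_const _)
    rw [lintegral_const_mul _ hmw, sq, mul_assoc c c]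
    refine mul_le_mul_right ?_ _
    by_cases hS : ρ ≤ |Real.sin (2 * π * x1)|
    · rw [hc]
      exact stepI95 (m2 x1) _ _ hs hρ hS
    · have h3 : ∀ x2 : ℝ, ∫⁻ x3 : ℝ, g (x1, x2, x3) = 0 := by
        intro x2
        rw [← lintegral_zero (μ := (volume : Measure ℝ))]
        exact lintegral_congr fun x3 => hzero (fun h => hS h.1)
      simp only [h3, lintegral_zero]
      exact zero_le
  -- the first variable
  have h1 : ∫⁻ w0, ∫⁻ w1, ∫⁻ w2, {w : ℂ | bad3 A s ρ ε ((X0 : UnitAddCircle), (Xm : UnitAddCircle)) p q w0 w1 w}.indicator 1 w2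
        ∂dl ∂dl ∂dl ≤
      ∫⁻ w0, c ^ 2 * (fun x1 => ∫⁻ x2 : ℝ, ∫⁻ x3 : ℝ, g (x1, x2, x3)) ((2 * X0 - Xm) + (A 0 + s * w0.re) * Real.sin (2 * π * X0)) ∂dl := by
    refine lintegral_mono_ae ?_
    filter_upwards [re_ae95] with w0 hw0
    exact s2 hw0
  refine h1.trans ?_
  have hmw : Measurable fun w0 : ℂ => (fun x1 => ∫⁻ x2 : ℝ, ∫⁻ x3 : ℝ, g (x1, x2, x3)) ((2 * X0 - Xm) + (A 0 + s * w0.re) * Real.sin (2 * π * X0)) := by
    refine m1.comp ?_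
    exact measurable_const.add (((Complex.measurable_re.const_mul s).const_add _).mul_const _)
  have e3 : c ^ 3 = c ^ 2 * c := by ring
  rw [lintegral_const_mul _ hmw, e3, mul_assoc (c ^ 2) c]
  refine mul_le_mul_right ?_ _
  rw [hc]
  exact stepI95 m1 _ _ hs hρ h0

theorem core (K : ℝ) (hK : 0 ≤ K) : ∃ C : ℝ, 0 < C ∧ ∀ (s ρ ε : ℝ) (A : ℕ → ℝ) (z : TT) (p : ℝ × ℝ) (q : TT → ℝ × ℝ),
    0 < s → s ≤ 1 → 0 < ρ → ρ ≤ 1 → 0 < ε → (∀ j, |A j| ≤ K) → Measurable q → 1 ≤ p.1 ^ 2 + p.2 ^ 2 →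
    (∀ y, 1 ≤ (q y).1 ^ 2 + (q y).2 ^ 2) → ρ ≤ |sn z.1| → ρ ≤ |cs z.1| →
    ∫⁻ w0, ∫⁻ w1, ∫⁻ w2, {w : ℂ | bad3 A s ρ ε z p q w0 w1 w}.indicator 1 w2 ∂dl ∂dl ∂dl ≤
      ENNReal.ofReal (C * (s * ρ)⁻¹ ^ 4 * ε ^ ((1 : ℝ) / 8)) := by
  obtain ⟨B, hB⟩ : ∃ B : ℝ, B = 8 * K + 20 := ⟨_, rfl⟩
  have hB1 : 1 ≤ B := by rw [hB]; linarith
  obtain ⟨C₀, hC0, hC⟩ := tri_sub B hB1
  refine ⟨(2 * B) ^ 2 * C₀, by positivity, ?_⟩
  intro s ρ ε A z p q hs hs1 hρ hρ1 hε hA hq hp hqn hz1 hz2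
  obtain ⟨X0, hX0⟩ : ∃ X0, X0 = rp z.1 := ⟨_, rfl⟩
  obtain ⟨Xm, hXm⟩ : ∃ Xm, Xm = rp z.2 := ⟨_, rfl⟩
  have hX0m : X0 ∈ Ico (0 : ℝ) 1 := by rw [hX0]; exact Pool.Agent.Helper95.PV.rp_mem _
  have hXmm : Xm ∈ Ico (0 : ℝ) 1 := by rw [hXm]; exact Pool.Agent.Helper95.PV.rp_mem _
  have hz : z = ((X0 : UnitAddCircle), (Xm : UnitAddCircle)) := by
    rw [hX0, hXm, Pool.Agent.Helper95.PV.coe_rp, Pool.Agent.Helper95.PV.coe_rp]
  rw [hz, Pool.Agent.Helper82.QR.sn_coe] at hz1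
  rw [hz, Pool.Agent.Helper82.QR.cs_coe] at hz2
  rw [hz]
  refine (three95 hK hB hs hs1 hρ hA hX0m hXmm hq hz1).trans ?_
  obtain ⟨g, hg⟩ : ∃ g : ℝ × ℝ × ℝ → ℝ≥0∞, g = (Eb B ρ ε X0 Xm p q).indicator 1 := ⟨_, rfl⟩
  have hgm : Measurable g := by
    rw [hg]
    exact measurable_one.indicator (Eb_meas B ρ ε X0 Xm p hq)
  rw [← hg]
  obtain ⟨V, hV⟩ : ∃ V : ℝ, V = C₀ * (ε / ρ ^ 4) ^ ((1 : ℝ) / 8) := ⟨_, rfl⟩
  have hV0 : 0 ≤ V := by rw [hV]; positivity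
  -- the inner integral
  have hAC : ∀ {X : ℝ}, ρ ≤ |Real.sin (2 * π * X)| → ρ ≤ |Real.cos (2 * π * X)| →
      2 * π * ρ ≤ |2 * π * Real.cos (2 * π * X) / Real.sin (2 * π * X)| ∧
      |2 * π * Real.cos (2 * π * X) / Real.sin (2 * π * X)| ≤ 2 * π / ρ := by
    intro X h1 h2
    have h3 := Real.abs_sin_le_one (2 * π * X)
    have h4 := Real.abs_cos_le_one (2 * π * X)
    have h5 : 0 < |Real.sin (2 * π * X)| := lt_of_lt_of_le hρ h1
    have hpi := Real.pi_pos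
    rw [abs_div, abs_mul, abs_of_pos (show (0 : ℝ) < 2 * π by positivity)]
    constructor
    · rw [le_div_iff₀ h5]
      calc 2 * π * ρ * |Real.sin (2 * π * X)| ≤ 2 * π * ρ * 1 := by gcongr
        _ = 2 * π * ρ := mul_one _
        _ ≤ _ := by gcongr
    · calc 2 * π * |Real.cos (2 * π * X)| / |Real.sin (2 * π * X)| ≤ 2 * π * 1 / ρ := by gcongr
        _ = 2 * π / ρ := by rw [mul_one]
  have hin : ∀ x2 x3 : ℝ, ∫⁻ x1 : ℝ, g (x1, x2, x3) ≤ ((Icc (-B) B).indicator 1 x2 : ℝ≥0∞) * ((Icc (-B) B).indicator 1 x3 * ENNReal.ofReal V) := by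
    intro x2 x3
    by_cases h : |x2| ≤ B ∧ |x3| ≤ B ∧ ρ ≤ |Real.sin (2 * π * x2)| ∧ ρ ≤ |Real.cos (2 * π * x2)|
    · obtain ⟨h1, h2, h3, h4⟩ := h
      rw [indicator_of_mem (show x2 ∈ Icc (-B) B from abs_le.1 h1), indicator_of_mem (show x3 ∈ Icc (-B) B from abs_le.1 h2)]
      simp only [Pi.one_apply, one_mul]
      obtain ⟨a1, a2⟩ := hAC h3 h4
      obtain ⟨a3, a4⟩ := hAC hz1 hz2
      obtain ⟨u1, u2⟩ := abs_le.1 h1
      obtain ⟨u3, u4⟩ := abs_le.1 h2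
      obtain ⟨u5, u6⟩ := hX0m
      obtain ⟨u7, u8⟩ := hXmm
      have h5 := hC p.1 p.2 (q ((x3 : UnitAddCircle), (x2 : UnitAddCircle))).1 (q ((x3 : UnitAddCircle), (x2 : UnitAddCircle))).2
        (2 * π * Real.cos (2 * π * x2) / Real.sin (2 * π * x2)) (2 * π * Real.cos (2 * π * X0) / Real.sin (2 * π * X0))
        (2 * X0 - Xm) (X0 + x2) (2 * x2 - x3) ρ ε hp (hqn _) hρ hρ1 a1 a2 a3 a4
        (abs_le.2 ⟨by linarith, by linarith⟩) (abs_le.2 ⟨by linarith, by linarith⟩) (abs_le.2 ⟨by linarith, by linarith⟩) hε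
      rw [hV]
      refine le_trans ?_ h5
      have hms : MeasurableSet {x1 : ℝ | (x1, x2, x3) ∈ Eb B ρ ε X0 Xm p q} :=
        (measurable_id.prodMk measurable_const) (Eb_meas B ρ ε X0 Xm p hq)
      have e1 : ∀ x1 : ℝ, g (x1, x2, x3) = {x1 : ℝ | (x1, x2, x3) ∈ Eb B ρ ε X0 Xm p q}.indicator 1 x1 := by
        intro x1
        rw [hg]
        by_cases hm : (x1, x2, x3) ∈ Eb B ρ ε X0 Xm p q
        · rw [indicator_of_mem hm, indicator_of_mem (by exact hm)]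
          rfl
        · rw [indicator_of_notMem hm, indicator_of_notMem (by exact hm)]
      rw [lintegral_congr e1, lintegral_indicator_one hms]
      refine measure_mono ?_
      rintro x1 ⟨m1, -, -, -, -, -, m2⟩
      exact ⟨abs_le.1 m1, m2⟩
    · have e1 : ∀ x1 : ℝ, g (x1, x2, x3) = 0 := by
        intro x1
        rw [hg]
        apply indicator_of_notMem
        rintro ⟨-, m2, m3, -, m5, m6, -⟩
        exact h ⟨m2, m3, m5, m6⟩
      rw [lintegral_congr e1, lintegral_zero]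
      exact zero_le
  have hswap : ∫⁻ x1 : ℝ, ∫⁻ x2 : ℝ, ∫⁻ x3 : ℝ, g (x1, x2, x3) = ∫⁻ x2 : ℝ, ∫⁻ x3 : ℝ, ∫⁻ x1 : ℝ, g (x1, x2, x3) := by
    have hG2 : Measurable fun r : ℝ × ℝ => ∫⁻ x3 : ℝ, g (r.1, r.2, x3) := by
      have h1 : Measurable fun r : (ℝ × ℝ) × ℝ => g (r.1.1, r.1.2, r.2) :=
        hgm.comp ((measurable_fst.comp measurable_fst).prodMk ((measurable_snd.comp measurable_fst).prodMk measurable_snd))
      exact h1.lintegral_prod_right'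
    rw [lintegral_lintegral_swap (f := fun x1 x2 : ℝ => ∫⁻ x3 : ℝ, g (x1, x2, x3)) hG2.aemeasurable]
    refine lintegral_congr fun x2 => ?_
    have h2 : Measurable fun r : ℝ × ℝ => g (r.1, x2, r.2) :=
      hgm.comp (measurable_fst.prodMk (measurable_const.prodMk measurable_snd))
    exact lintegral_lintegral_swap (f := fun x1 x3 : ℝ => g (x1, x2, x3)) h2.aemeasurable
  have htot : ∫⁻ x1 : ℝ, ∫⁻ x2 : ℝ, ∫⁻ x3 : ℝ, g (x1, x2, x3) ≤ ENNReal.ofReal ((2 * B) ^ 2 * V) := by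
    rw [hswap]
    have mi : Measurable fun x : ℝ => ((Icc (-B) B).indicator 1 x : ℝ≥0∞) := measurable_one.indicator measurableSet_Icc
    have hI : ∫⁻ x : ℝ, ((Icc (-B) B).indicator 1 x : ℝ≥0∞) = ENNReal.ofReal (2 * B) := by
      rw [lintegral_indicator_one measurableSet_Icc, Real.volume_Icc]
      congr 1
      ring
    refine (lintegral_mono fun x2 => lintegral_mono fun x3 => hin x2 x3).trans (le_of_eq ?_)
    have e1 : ∀ x2 : ℝ, ∫⁻ x3 : ℝ, ((Icc (-B) B).indicator 1 x2 : ℝ≥0∞) * ((Icc (-B) B).indicator 1 x3 * ENNReal.ofReal V) =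
        ((Icc (-B) B).indicator 1 x2 : ℝ≥0∞) * (ENNReal.ofReal (2 * B) * ENNReal.ofReal V) := by
      intro x2
      rw [lintegral_const_mul _ (mi.mul_const _), lintegral_mul_const _ mi, hI]
    rw [lintegral_congr e1, lintegral_mul_const _ mi, hI, ← ENNReal.ofReal_mul (by positivity), ← ENNReal.ofReal_mul (by positivity)]
    congr 1
    ring
  refine (mul_le_mul_right htot _).trans ?_
  rw [← ENNReal.ofReal_pow (by positivity), ← ENNReal.ofReal_mul (by positivity)]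
  apply ENNReal.ofReal_le_ofReal
  -- the final inequality
  have hr : (ε / ρ ^ 4) ^ ((1 : ℝ) / 8) ≤ (s * ρ)⁻¹ * ε ^ ((1 : ℝ) / 8) := by
    rw [div_eq_mul_inv, Real.mul_rpow hε.le (by positivity), mul_comm]
    have h1 : ((ρ ^ 4)⁻¹ : ℝ) ^ ((1 : ℝ) / 8) ≤ (s * ρ)⁻¹ := by
      have h2 : ((ρ ^ 4)⁻¹ : ℝ) ≤ ((s * ρ)⁻¹) ^ 8 := by
        rw [← inv_pow]
        have h3 : ρ⁻¹ ≤ (s * ρ)⁻¹ := by
          apply inv_anti₀ (by positivity)
          nlinarith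
        have h4 : 1 ≤ ρ⁻¹ := (one_le_inv₀ hρ).2 hρ1
        calc ρ⁻¹ ^ 4 ≤ ρ⁻¹ ^ 8 := pow_le_pow_right₀ h4 (by norm_num)
          _ ≤ _ := pow_le_pow_left₀ (by positivity) h3 8
      calc ((ρ ^ 4)⁻¹ : ℝ) ^ ((1 : ℝ) / 8) ≤ (((s * ρ)⁻¹) ^ 8) ^ ((1 : ℝ) / 8) :=
            Real.rpow_le_rpow (by positivity) h2 (by norm_num)
        _ = (s * ρ)⁻¹ := by
            rw [← Real.rpow_natCast, ← Real.rpow_mul (by positivity)]
            norm_num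
    gcongr
  calc (s * ρ)⁻¹ ^ 3 * ((2 * B) ^ 2 * V) ≤ (s * ρ)⁻¹ ^ 3 * ((2 * B) ^ 2 * (C₀ * ((s * ρ)⁻¹ * ε ^ ((1 : ℝ) / 8)))) := by
        rw [hV]
        gcongr
    _ = (2 * B) ^ 2 * C₀ * (s * ρ)⁻¹ ^ 4 * ε ^ ((1 : ℝ) / 8) := by ring

theorem sin_ge95 {t : ℝ} (ht : |t| ≤ 1 / 4) : 4 * |t| ≤ |Real.sin (2 * π * t)| := by
  have h1 : |Real.sin (2 * π * t)| = |Real.sin (2 * π * |t|)| := by
    rcases abs_cases t with ⟨h, _⟩ | ⟨h, _⟩
    · rw [h]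
    · rw [h, mul_neg, Real.sin_neg, abs_neg]
  have hpi := Real.pi_pos
  have h2 : 0 ≤ 2 * π * |t| := by positivity
  have h3 : 2 * π * |t| ≤ π / 2 := by nlinarith
  have h4 := Real.mul_le_sin h2 h3
  have h5 : 2 / π * (2 * π * |t|) = 4 * |t| := by
    field_simp
    ring
  rw [h5] at h4
  rw [h1]
  exact h4.trans (le_abs_self _)

theorem cut_sn95 (ρ : ℝ) : volume {x : UnitAddCircle | |sn x| < ρ} ≤ ENNReal.ofReal (2 * ρ) := by
  rcases le_or_gt ρ 0 with hρ | hρ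
  · have h1 : {x : UnitAddCircle | |sn x| < ρ} = ∅ := by
      ext x
      simp only [mem_ofPred_eq, mem_empty_iff_false, iff_false, not_lt]
      exact hρ.trans (abs_nonneg _)
    rw [h1, measure_empty]
    exact zero_le
  have hm : MeasurableSet {x : UnitAddCircle | |sn x| < ρ} :=
    measurableSet_lt Pool.Agent.Helper82.QR.sn_meas.norm measurable_const
  rw [← (UnitAddCircle.measurePreserving_mk (-(1 / 4))).measure_preimage hm.nullMeasurableSet]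
  have hsub : (fun t : ℝ => (t : UnitAddCircle)) ⁻¹' {x : UnitAddCircle | |sn x| < ρ} ∩ Ioc (-(1 / 4) : ℝ) (-(1 / 4) + 1) ⊆
      Ioo (-(ρ / 4)) (ρ / 4) ∪ Ioo (1 / 2 - ρ / 4) (1 / 2 + ρ / 4) := by
    rintro t ⟨h1, h2, h3⟩
    simp only [mem_preimage, mem_ofPred_eq, Pool.Agent.Helper82.QR.sn_coe] at h1
    by_cases h4 : t ≤ 1 / 4
    · left
      have h5 := sin_ge95 (abs_le.2 ⟨by linarith, h4⟩)
      have h6 : |t| < ρ / 4 := by linarith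
      exact abs_lt.1 h6
    · right
      push Not at h4
      have h5 := sin_ge95 (t := t - 1 / 2) (abs_le.2 ⟨by linarith, by linarith⟩)
      have h6 : Real.sin (2 * π * (t - 1 / 2)) = -Real.sin (2 * π * t) := by
        rw [mul_sub, show 2 * π * (1 / 2) = π by ring, Real.sin_sub_pi]
      rw [h6, abs_neg] at h5
      have h7 : |t - 1 / 2| < ρ / 4 := by linarith
      obtain ⟨h8, h9⟩ := abs_lt.1 h7
      exact ⟨by linarith, by linarith⟩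
  have hmp : MeasurableSet ((fun t : ℝ => (t : UnitAddCircle)) ⁻¹' {x : UnitAddCircle | |sn x| < ρ}) := meas_coe hm
  rw [Measure.restrict_apply hmp]
  refine (measure_mono hsub).trans ((measure_union_le _ _).trans ?_)
  rw [Real.volume_Ioo, Real.volume_Ioo, ← ENNReal.ofReal_add (by linarith) (by linarith)]
  apply ENNReal.ofReal_le_ofReal
  linarith

/-- the cut off -/
theorem cut {ρ : ℝ} (hρ : 0 ≤ ρ) : volume {x : UnitAddCircle | |sn x| < ρ} ≤ ENNReal.ofReal (2 * ρ) ∧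
    volume {x : UnitAddCircle | |cs x| < ρ} ≤ ENNReal.ofReal (2 * ρ) := by
  refine ⟨cut_sn95 ρ, ?_⟩
  have h1 : {x : UnitAddCircle | |cs x| < ρ} = (fun x => x + ((1 / 4 : ℝ) : UnitAddCircle)) ⁻¹' {x : UnitAddCircle | |sn x| < ρ} := by
    ext x
    simp only [mem_ofPred_eq, mem_preimage]
    rw [Pool.Agent.Helper82.QR.sn_add, show 2 * π * (1 / 4) = π / 2 by ring, Real.cos_pi_div_two, Real.sin_pi_div_two, mul_zero,
      mul_one, zero_add]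
  rw [h1, measure_preimage_add_right]
  exact cut_sn95 ρ

end Pool.Agent.Helper46.QR
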