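import Pool.Agent.Helper46.QR.MainR
import Pool.Agent.Helper82.QR.GapT
import Pool.Agent.Helper82.QR.GrowR

/-! Project QR: the final theorem. -/

set_option autoImplicit false
open MeasureTheory Real Set Filter Topology

namespace Pool.Agent.Helper46.QR

open Pool.Agent.Helper46
open Pool.Agent.Helper46.QP
open Pool.Agent.Helper18.UC (nn)

theorem gap_all (K : ℝ) : ∃ η : ℝ, 0 < η ∧ η ≤ 1 ∧ GapT K η := by
  obtain ⟨η, h0, h1, h⟩ := Pool.Agent.Helper82.QR.gapT (max K 0) (le_max_right _ _)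
  exact ⟨η, h0, h1, fun f s A n hf hf0 hs hs1 hA => h s hs hs1 A (fun j => (hA j).trans (le_max_left _ _)) f hf hf0 n⟩

theorem grow_all (d : ℕ) (D : Dat d) (hD : D.Ok) : ∃ C η : ℝ, 0 < C ∧ 0 < η ∧ η ≤ 1 ∧ GrowR D C η := by
  obtain ⟨C, η, hC, h0, h1, h⟩ := Pool.Agent.Helper82.QR.growR hD
  refine ⟨C, η, hC, h0, h1, fun l n hi hs θ => ?_⟩
  have e : ∀ x : ℝ, x⁻¹ ^ 2 = x ^ (-2 : ℤ) := by
    intro x
    rw [zpow_neg, inv_pow]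
    norm_cast
  simp only [e]
  exact h l n hi hs θ

theorem fin (d : ℕ) (hd : 1 ≤ d) (χ : ℝ → ℝ) (hχ : ∀ r : ℕ, ContDiff ℝ r χ)
    (hχ1 : ∀ t, |t| ≤ 1 / 2 → χ t = 1) (hχ0 : ∀ t, 1 ≤ |t| → χ t = 0) :
    ∀ᵐ α : Fin d → UnitAddCircle, ∀ b : ℝ, 0 < b → b < d / 2 →
      ∀ a₀ : (Fin d → UnitAddCircle) → ℝ, Continuous a₀ → ∀ q : ℝ, 0 < q →
      ∀ᵐ ω ∂QRO.law d,
        (∀ r : ℕ, (r : ℝ) < b → ContDiff ℝ r (QRO.noise (d := d) χ b ω)) ∧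
        Ergodic (QRO.skew α fun θ => a₀ θ + q * QRO.tnoise χ b ω θ) volume ∧
        (∀ (ξ : ℂ) (h : (Fin d → UnitAddCircle) × (UnitAddCircle × UnitAddCircle) → ℂ), Measurable h →
          (∀ᵐ p, h (QRO.skew α (fun θ => a₀ θ + q * QRO.tnoise χ b ω θ) p) = ξ * h p) →
          (∀ᵐ p, h p = 0) ∨ ∃ k : Fin d → ℤ, ∃ c : ℂ, fourier 1 (∑ m, k m • α m) = ξ ∧
            ∀ᵐ p : (Fin d → UnitAddCircle) × (UnitAddCircle × UnitAddCircle),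
              h p = c * fourier 1 (∑ m, k m • p.1 m)) ∧
        ∃ L : ℝ, 0 < L ∧ ∀ᵐ θ : Fin d → UnitAddCircle, ∀ᵐ z : ℝ × ℝ,
          Tendsto (fun n : ℕ => Real.log ‖fderiv ℝ (QRO.liftn α (fun θ => a₀ θ + q * QRO.tnoise χ b ω θ) θ n) z‖ / n)
            atTop (𝓝 L) :=
  final gap_all grow_all d hd χ hχ hχ1 hχ0

end Pool.Agent.Helper46.QR
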